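import Pool.Agent.Results.MP_1a953e_ag.SeparableUniformization

/-!
Dedekind rings and ring isomorphisms.
-/

set_option autoImplicit false

universe u

namespace Pool.Agent.V5helper88.SP

theorem ded_equiv {A B : Type u} [CommRing A] [CommRing B] (e : A ≃+* B)
    [IsDedekindDomain A] : IsDedekindDomain B := by
  haveI : IsDomain B := MulEquiv.isDomain A (e.symm : B ≃* A)
  let Q := FractionRing A
  letI : Algebra B Q := ((algebraMap A Q).comp e.symm.toRingHom).toAlgebra
  have hmap : ∀ b : B, algebraMap B Q b = algebraMap A Q (e.symm b) := fun b => rfl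
  have hinj : Function.Injective (algebraMap A Q) := IsFractionRing.injective A Q
  haveI : IsFractionRing B Q := by
    constructor
    constructor
    · rintro ⟨y, hy⟩
      have hy0 : y ≠ 0 := nonZeroDivisors.ne_zero hy
      refine IsUnit.mk0 _ ?_
      rw [hmap, Ne, map_eq_zero_iff _ hinj, map_eq_zero_iff _ e.symm.injective]
      exact hy0
    · intro z
      obtain ⟨a, b, hb, rfl⟩ := IsFractionRing.div_surjective (A := A) z
      have hb0 : b ≠ 0 := nonZeroDivisors.ne_zero hb
      refine ⟨(e a, ⟨e b, mem_nonZeroDivisors_of_ne_zero ((map_ne_zero_iff _ e.injective).2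
        hb0)⟩), ?_⟩
      rw [hmap, hmap, RingEquiv.symm_apply_apply, RingEquiv.symm_apply_apply]
      exact div_mul_cancel₀ _ ((map_ne_zero_iff _ hinj).2 hb0)
    · intro y z hyz
      rw [hmap, hmap] at hyz
      exact ⟨1, by rw [e.symm.injective (hinj hyz)]⟩
  rw [isDedekindDomain_iff B Q]
  refine ⟨inferInstance, isNoetherianRing_of_ringEquiv A e, ?_, ?_⟩
  · constructor
    intro p hp0 hp
    have h1 : (p.comap e).IsPrime := Ideal.comap_isPrime e p
    have h2 : p.comap e ≠ ⊥ := by
      intro h
      apply hp0
      rw [eq_bot_iff]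
      intro x hx
      have h3 : e.symm x ∈ p.comap e := by
        rw [Ideal.mem_comap, RingEquiv.apply_symm_apply]; exact hx
      rw [h, Ideal.mem_bot, map_eq_zero_iff _ e.symm.injective] at h3
      exact (Ideal.mem_bot).2 h3
    have h4 : (p.comap e).IsMaximal := Ring.DimensionLEOne.maximalOfPrime h2 h1
    have h5 := Ideal.comap_isMaximal_of_surjective e.symm e.symm.surjective (K := p.comap e)
    have h6 : (p.comap e).comap e.symm = p := by
      ext x
      rw [Ideal.mem_comap, Ideal.mem_comap, RingEquiv.apply_symm_apply]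
    rwa [h6] at h5
  · intro x hx
    have h1 : IsIntegral A x := by
      obtain ⟨P, hP, hP0⟩ := hx
      refine ⟨P.map e.symm.toRingHom, hP.map _, ?_⟩
      rw [Polynomial.eval₂_map]
      exact hP0
    obtain ⟨y, hy⟩ := IsIntegrallyClosed.isIntegral_iff.1 h1
    refine ⟨e y, ?_⟩
    rw [hmap, RingEquiv.symm_apply_apply]
    exact hy

open Pool.Agent.Results.MP_1a953e_ag.SeparableUniformization in
theorem base_equiv {A B : Type u} [CommRing A] [CommRing B] (e : A ≃+* B) (h : IsBase A) :
    IsBase B := by
  rcases h with h | ⟨p, hp, hc, hf⟩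
  · left
    exact (RingHom.charZero_iff (ϕ := e.toRingHom) e.injective).1 h
  · right
    have hc' : CharP B p := (e.toRingHom.charP_iff e.injective p).1 hc
    refine ⟨p, hp, hc', ?_⟩
    have h1 : frobenius B p = (e.toRingHom.comp (frobenius A p)).comp e.symm.toRingHom := by
      ext x
      change x ^ p = e ((e.symm x) ^ p)
      rw [map_pow, RingEquiv.apply_symm_apply]
    rw [h1]
    refine RingHom.Finite.comp (RingHom.Finite.comp ?_ hf) ?_
    · exact RingHom.Finite.of_surjective _ e.surjective
    · exact RingHom.Finite.of_surjective _ e.symm.surjective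

end Pool.Agent.V5helper88.SP
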