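import Pool.Agent.V5helper88.SP.Core2

/-!
The main theorem in internal form, for all admissible blowing-ups of the closure of the support.
-/

set_option autoImplicit false

open Pointwise Pool.Agent.W418.LU2 Polynomial

universe u

namespace Pool.Agent.V5helper88.SP

theorem core3 {K F : Type u} [Field K] [Field F] {R : Subring K} {res : R →+* F} (hR : Rl res)
    (hs : Function.Surjective res) {O : Subring K} (hOn : IsNoetherianRing O) {k : Subfield K}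
    (hOk : O ≤ k.toSubring)
    (hkO : ∀ x ∈ k, ∃ a ∈ O, ∃ b ∈ O, b ≠ 0 ∧ x = a / b)
    (hO0 : ∀ a ∈ O, a ≠ 0 → ev res a ≠ 0)
    {k₁ : Subfield F} (hk₁ : k₁ = Subfield.closure (im res O : Set F))
    {W : Set K} (hW : W.Finite) (hW1 : (1 : K) ∈ W) (hAR : ch O W 1 ≤ R)
    (hfr : ∀ x ∈ R, ∃ a ∈ ch O W 1, ∃ b ∈ ch O W 1, ev res b ≠ 0 ∧ x = a / b)
    (hK : ∀ z : K, ∃ a ∈ ch O W 1, ∃ b ∈ ch O W 1, b ≠ 0 ∧ z = a / b)
    {c : ℕ} (f : Fin c → K) (hfA : ∀ i, f i ∈ ch O W 1) (hf0 : ∀ i, ev res (f i) = 0)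
    (hdim : (c : WithBot ℕ∞) ≤ ringKrullDim R) {h : K} (hh : h ∈ ch O W 1)
    (hh0 : ev res h ≠ 0)
    (hf : ∀ a ∈ ch O W 1, ev res a = 0 → ∃ (n : ℕ) (d : K), d ∈ O ∧ d ≠ 0 ∧
      ∃ g : Fin c → K, (∀ j, g j ∈ ch O W 1) ∧ d * h ^ n * a = ∑ j, g j * f j)
    (hG : ∀ y : F, IsSeparable k₁ y → ∃ (n : ℕ) (d a : K), d ∈ O ∧ d ≠ 0 ∧ a ∈ ch O W 1 ∧
      ev res (d * h ^ n) * y = ev res a)
    (V : ValuationSubring F) (hAS : ch O W 1 ≤ sp res V) {π : K} (hπ : π ∈ O) (hπ0 : π ≠ 0)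
    (hπV : ∀ z : F, z ≠ 0 → ∃ n : ℕ, V.valuation (ev res π) ^ n ≤ V.valuation z)
    (hU : ∀ Y : Set K, Vert O π W Y → (∀ y ∈ Y, y ∈ R) → Unif V (im res O) k₁ (ev res '' bu W Y)) :
    ∃ Y₀ : Set K, Vert O π W Y₀ ∧
      ∃ (K' F' : Type u) (_ : Field K') (_ : Field F') (_ : Algebra K K') (_ : Algebra F F')
        (V' : ValuationSubring F') (R' : Subring K') (res' : R' →+* F') (ϖ : K'),
        ϖ ∈ R' ∧ (V'.comap (algebraMap F F') = V ∧
          (∀ z : F', z ∈ Subfield.closure (Set.range (algebraMap F F') ∪ {ev res' ϖ})) ∧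
          (∃ P : Polynomial k₁, P.Separable ∧
            P.eval₂ ((algebraMap F F').comp k₁.subtype) (ev res' ϖ) = 0) ∧
          ∃ (_ : IsDiscreteValuationRing
              (lo V'.toSubring (ram (algebraMap F F') (im res O) (ev res' ϖ))))
            (h : ev res' ϖ ∈ lo V'.toSubring (ram (algebraMap F F') (im res O) (ev res' ϖ))),
            IsLocalRing.maximalIdeal
              (lo V'.toSubring (ram (algebraMap F F') (im res O) (ev res' ϖ))) =
              Ideal.span {⟨ev res' ϖ, h⟩}) ∧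
        (∀ z : K', z ∈ Subfield.closure (Set.range (algebraMap K K') ∪ {ϖ})) ∧
        (∃ P : Polynomial k, P.Separable ∧
          P.eval₂ ((algebraMap K K').comp k.subtype) ϖ = 0) ∧
        (ch (ram (algebraMap K K') O ϖ) (algebraMap K K' '' W) 1 ≤ R' ∧
          Function.Surjective res' ∧ Rl res' ∧
          ∀ x ∈ R', ∃ a ∈ ch (ram (algebraMap K K') O ϖ) (algebraMap K K' '' W) 1,
            ∃ b ∈ ch (ram (algebraMap K K') O ϖ) (algebraMap K K' '' W) 1,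
              ev res' b ≠ 0 ∧ x = a / b) ∧
        Compat res res' ∧
        ∃ Y : Set K', Vert (ram (algebraMap K K') O ϖ) ϖ (algebraMap K K' '' bu W Y₀) Y ∧
          ∀ V₁ : ValuationSubring F', V' ≤ V₁ → V₁.valuation (ev res' ϖ) < 1 →
            ∃ w ∈ bu (algebraMap K K' '' bu W Y₀) Y, w ≠ 0 ∧
              (∀ v ∈ bu (algebraMap K K' '' bu W Y₀) Y, v / w ∈ sp res' V₁) ∧
              Semi (lo (sp res' V₁) (ch (ram (algebraMap K K') O ϖ)
                (bu (algebraMap K K' '' bu W Y₀) Y) w)) ϖ := by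
  classical
  have hOA : O ≤ ch O W 1 := O_le_ch
  have hOR : O ≤ R := hOA.trans hAR
  have hWA : W ⊆ ch O W 1 := fun v hv => by
    have := div_mem_ch (O := O) (w := 1) hv
    rwa [div_one] at this
  have hWR : W ⊆ R := fun v hv => hAR (hWA hv)
  have hhK : h ≠ 0 := ne_of_ev res hh0
  have hπe : ev res π ≠ 0 := hO0 π hπ hπ0
  obtain ⟨N, hN⟩ := hπV (ev res h) hh0
  have hqS : π ^ N / h ∈ sp res V := by
    refine ⟨hR.div_mem (pow_mem (hOR hπ) N) hh0, ?_⟩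
    rw [hR.ev_div (pow_mem (hOR hπ) N) hh0, ev_pow res (hOR hπ), ← V.valuation_le_one_iff,
      map_div₀, map_pow]
    exact div_le_one_of_le₀ hN zero_le'
  obtain ⟨e, hY₀, hhT, hchT⟩ := pre_blowup hW hW1 hπ N hh hhK
  set Y₀ : Set K := (fun m => π ^ N * m) '' (W ^ e) ∪ {h} with hY₀def
  have hY₀R : ∀ y ∈ Y₀, y ∈ R := by
    rintro y (⟨m, hm, rfl⟩ | hy)
    · refine mul_mem (pow_mem (hOR hπ) N) (span_R hOR hWR e m ?_)
      rw [Submodule.span_pow]
      exact Submodule.subset_span hm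
    · rw [Set.mem_singleton_iff.1 hy]
      exact hAR hh
  have hTR : bu W Y₀ ⊆ R := by
    rintro _ ⟨y, hy, v, hv, rfl⟩
    exact mul_mem (hY₀R y hy) (hWR hv)
  have hchS : ch O (bu W Y₀) h ≤ sp res V := by
    rw [hchT, Subring.closure_le]
    rintro z (hz | hz)
    · exact hAS hz
    · rw [Set.mem_singleton_iff.1 hz]; exact hqS
  have hTV : ∀ v ∈ bu W Y₀, v / h ∈ sp res V := fun v hv => hchS (div_mem_ch hv)
  have hAT : ch O W 1 ≤ ch O (bu W Y₀) h := by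
    rw [hchT]
    exact fun z hz => Subring.subset_closure (Or.inl hz)
  have hgen := pre_gen hOA hAR hπ hπ0 N hh hhK hqS.1 f hf
  rw [← hchT] at hgen
  have hL2 : ∀ y : F, IsSeparable k₁ y → ∃ z ∈ quo O (ch O (bu W Y₀) h) O_le_ch,
      ev res z = y := by
    intro y hy
    obtain ⟨n, d, a, hd, hd0, ha, hda⟩ := hG y hy
    have hdR : d ∈ R := hOR hd
    have hhR : h ∈ R := hAR hh
    have hne : ev res (d * h ^ n) ≠ 0 := by
      rw [ev_mul res hdR (pow_mem hhR n), ev_pow res hhR]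
      exact mul_ne_zero (hO0 d hd hd0) (pow_ne_zero _ hh0)
    refine ⟨a / (d * h ^ n), ⟨d * (π ^ N) ^ n, mul_mem hd (pow_mem (pow_mem hπ N) n),
      mul_ne_zero hd0 (pow_ne_zero _ (pow_ne_zero _ hπ0)), ?_⟩, ?_⟩
    · have e1 : d * (π ^ N) ^ n * (a / (d * h ^ n)) = (π ^ N / h) ^ n * a := by
        rw [div_pow]
        field_simp
      rw [e1]
      refine mul_mem (pow_mem ?_ n) (hAT ha)
      rw [hchT]
      exact Subring.subset_closure (Or.inr rfl)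
    · rw [hR.ev_div (hAR ha) hne, ← hda]
      exact mul_div_cancel_left₀ _ hne
  obtain ⟨F', _, algF, V', t, ⟨hVV, hgenF, hsep, hQ⟩, Z, hZ, hss⟩ := hU Y₀ hY₀ hY₀R
  obtain ⟨K', _, algK, R', res', ϖ, hR', hs', hc, hϖ, hev, hK', hsep', hpoly, Y, hY, w, hw, hw0,
      hfin⟩ :=
    transfer2 hR hs hOn hOk hkO hO0 hOR hk₁ V (by
      intro z hz
      obtain ⟨o, ho, rfl⟩ := (mem_im hOR).1 hz
      exact (hAS (hOA ho)).2) (bu_finite hW hY₀.1) hTR hhT hh0 hTV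
      (fun x hx => by
        obtain ⟨a, ha, b, hb, hb0, hab⟩ := hfr x hx
        exact ⟨a, hAT ha, b, hAT hb, hb0, hab⟩)
      (fun z => by
        obtain ⟨a, ha, b, hb, hb0, hab⟩ := hK z
        exact ⟨a, hAR ha, b, hAR hb, hb0, hab⟩) f (fun i => hAT (hfA i)) hf0 hdim hgen hL2 V' hVV t
      hgenF hsep hQ hZ hss
  have hA' : ch (ram (algebraMap K K') O ϖ) (algebraMap K K' '' W) 1 =
      Subring.closure (((ch O W 1).map (algebraMap K K') : Set K') ∪ {ϖ}) := by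
    rw [← ch_ram, map_one]
  refine ⟨Y₀, hY₀, K', F', inferInstance, inferInstance, algK, algF, V', R', res', ϖ, hϖ, ?_, hK',
    hsep', ⟨?_, hs', hR', ?_⟩, hc, Y, hY, ?_⟩
  · rw [hev]
    exact ⟨hVV, hgenF, hsep, hQ⟩
  · rw [hA', Subring.closure_le]
    rintro z (⟨a, ha, rfl⟩ | hz)
    · exact (hc a (hAR ha)).1
    · rw [Set.mem_singleton_iff.1 hz]; exact hϖ
  · rw [hA']
    exact frac_ext2 hc hϖ hpoly hAR hfr
  · intro V₁ hV₁ hV₁t
    rw [hev] at hV₁t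
    obtain ⟨h1, h2⟩ := hfin V₁ hV₁ hV₁t
    exact ⟨w, hw, hw0, h1, h2⟩

end Pool.Agent.V5helper88.SP
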