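import Mathlib

/-!
The algebraic elements of a finitely generated field extension form a finite extension.
-/

set_option autoImplicit false

open scoped IntermediateField.algebraAdjoinAdjoin

namespace Pool.Agent.V5helper88.SP

/-- Linearly independent algebraic elements stay linearly independent over the polynomials in
algebraically independent elements. -/
theorem linInd_of_algInd {k L F : Type*} [Field k] [Field L] [Field F] [Algebra k L] [Algebra L F]
    [Algebra k F] [IsScalarTower k L F] [Algebra.IsAlgebraic k L] {ι σ : Type*} (b : ι → L)
    (hb : LinearIndependent k b) (x : σ → F) (hx : AlgebraicIndependent k x) (t : Finset ι)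
    (P : ι → MvPolynomial σ k)
    (h : ∑ i ∈ t, MvPolynomial.aeval x (P i) * algebraMap L F (b i) = 0) :
    ∀ i ∈ t, P i = 0 := by
  have hxL : AlgebraicIndependent L x := hx.extendScalars L
  set Q : MvPolynomial σ L := ∑ i ∈ t, (P i).map (algebraMap k L) * MvPolynomial.C (b i) with hQ
  have h1 : MvPolynomial.aeval x Q = 0 := by
    rw [hQ, map_sum, ← h]
    refine Finset.sum_congr rfl fun i _ => ?_
    rw [map_mul, MvPolynomial.aeval_C, MvPolynomial.aeval_map_algebraMap]
  have h2 : Q = 0 := by
    apply hxL
    rw [h1, map_zero]
  intro i hi
  ext m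
  have h3 : ∑ i ∈ t, (P i).coeff m • b i = 0 := by
    have h4 := congrArg (MvPolynomial.coeff m) h2
    rw [hQ, MvPolynomial.coeff_sum, MvPolynomial.coeff_zero] at h4
    rw [← h4]
    refine Finset.sum_congr rfl fun i _ => ?_
    rw [mul_comm, MvPolynomial.coeff_C_mul, MvPolynomial.coeff_map, Algebra.smul_def, mul_comm]
  rw [MvPolynomial.coeff_zero]
  exact linearIndependent_iff'.1 hb t (fun i => (P i).coeff m) h3 i hi

theorem fin_alg {k F : Type*} [Field k] [Field F] [Algebra k F] [Algebra.EssFiniteType k F]
    (L : IntermediateField k F) [Algebra.IsAlgebraic k L] : Module.Finite k L := by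
  obtain ⟨s, hs⟩ := exists_finset_isTranscendenceBasis k F
  set x : s → F := ((↑) : s → F) with hx
  let A := Algebra.adjoin k (Set.range x)
  let M := IntermediateField.adjoin k (Set.range x)
  haveI halg : Algebra.IsAlgebraic M F := hs.isAlgebraic_field
  haveI : Algebra.EssFiniteType M F := Algebra.EssFiniteType.of_comp k M F
  haveI : Module.Finite M F := Algebra.finite_of_essFiniteType_of_isAlgebraic
  let b := Module.Basis.ofVectorSpace k L
  have hli : LinearIndependent A (fun i => (b i : F)) := by
    rw [linearIndependent_iff']
    intro t g hg i hi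
    have hg1 : ∀ a : A, ∃ P : MvPolynomial s k, MvPolynomial.aeval x P = (a : F) := by
      intro a
      have h1 : (a : F) ∈ (MvPolynomial.aeval x : MvPolynomial s k →ₐ[k] F).range := by
        rw [← Algebra.adjoin_range_eq_range_aeval]
        exact a.2
      exact h1
    choose P hP using hg1
    have h2 := linInd_of_algInd (fun i => b i) b.linearIndependent x hs.1 t (fun i => P (g i)) (by
      rw [← hg]
      refine Finset.sum_congr rfl fun j _ => ?_
      rw [hP, Algebra.smul_def]
      rfl) i hi
    have h3 := hP (g i)
    rw [h2, map_zero] at h3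
    exact Subtype.ext h3.symm
  have hlM : LinearIndependent (IntermediateField.adjoin k (Set.range x))
      (fun i => (b i : F)) :=
    (LinearIndependent.iff_fractionRing (Algebra.adjoin k (Set.range x))
      (IntermediateField.adjoin k (Set.range x))).1 hli
  haveI hfin := hlM.finite
  exact Module.Finite.of_basis b

end Pool.Agent.V5helper88.SP
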