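import Pool.Agent.V5helper88.SP.Core2
import Pool.Agent.V5helper88.SP.FinAlg

/-!
The equations of the closure of a regular point, and its constants, near the point.
-/

set_option autoImplicit false

open Pointwise Pool.Agent.W418.LU2

universe u

namespace Pool.Agent.V5helper88.SP

variable {K F : Type u} [Field K] [Field F] {R : Subring K} {res : R →+* F}

lemma common_den (hR : Rl res) {A : Subring K} (hAR : A ≤ R)
    (hfr : ∀ x ∈ R, ∃ a ∈ A, ∃ b ∈ A, ev res b ≠ 0 ∧ x = a / b) {ι : Type*} (t : Finset ι)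
    (g : ι → K) (hg : ∀ i ∈ t, g i ∈ R) :
    ∃ s ∈ A, ev res s ≠ 0 ∧ ∀ i ∈ t, s * g i ∈ A := by
  classical
  induction t using Finset.induction_on with
  | empty => exact ⟨1, one_mem _, by rw [ev_one]; exact one_ne_zero, fun i hi => absurd hi (by simp)⟩
  | insert j t hj ih =>
    obtain ⟨s, hs, hs0, hst⟩ := ih fun i hi => hg i (Finset.mem_insert_of_mem hi)
    obtain ⟨a, ha, b, hb, hb0, hab⟩ := hfr (g j) (hg j (Finset.mem_insert_self _ _))
    refine ⟨s * b, mul_mem hs hb, ?_, ?_⟩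
    · rw [ev_mul res (hAR hs) (hAR hb)]
      exact mul_ne_zero hs0 hb0
    · intro i hi
      rcases Finset.mem_insert.1 hi with rfl | hi
      · have e1 : s * b * g i = s * a := by
          rw [hab, mul_assoc, mul_div_cancel₀ _ (ne_of_ev res hb0)]
        rw [e1]
        exact mul_mem hs ha
      · have e1 : s * b * g i = b * (s * g i) := by ring
        rw [e1]
        exact mul_mem hb (hst i hi)

/-- regular parameters in `A` -/
lemma exists_param (hR : Rl res) [hreg : IsRegularLocalRing R] {A : Subring K} (hAR : A ≤ R)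
    (hfr : ∀ x ∈ R, ∃ a ∈ A, ∃ b ∈ A, ev res b ≠ 0 ∧ x = a / b) :
    ∃ (c : ℕ) (f : Fin c → K), (∀ i, f i ∈ A) ∧ (∀ i, ev res (f i) = 0) ∧
      (c : WithBot ℕ∞) ≤ ringKrullDim R ∧
      ∀ x ∈ R, ev res x = 0 → ∃ g : Fin c → K, (∀ i, g i ∈ R) ∧ x = ∑ i, g i * f i := by
  have hmax : ∀ x : R, x ∈ IsLocalRing.maximalIdeal R ↔ res x = 0 := by
    intro x
    rw [IsLocalRing.mem_maximalIdeal, mem_nonunits_iff]
    constructor
    · intro h
      by_contra h0
      apply h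
      have h1 := hR x h0
      have h2 : (x : K) ≠ 0 := fun h3 => h0 (by
        have : x = 0 := Subtype.ext h3
        rw [this, map_zero])
      exact IsUnit.of_mul_eq_one ⟨(x : K)⁻¹, h1⟩ (Subtype.ext (mul_inv_cancel₀ h2))
    · intro h hu
      have := hu.map res
      rw [h] at this
      exact not_isUnit_zero this
  have hfg : (IsLocalRing.maximalIdeal R).FG := IsNoetherian.noetherian _
  obtain ⟨s, hs1, hs2⟩ := Submodule.FG.exists_span_finset_card_eq_spanFinrank hfg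
  have hdim : ((s.card : ℕ) : WithBot ℕ∞) ≤ ringKrullDim R := by
    rw [hs1, hreg.spanFinrank_maximalIdeal]
  let f₀ : Fin s.card → R := fun i => (s.equivFin.symm i : R)
  have hr : Set.range f₀ = (s : Set R) := by
    ext x
    constructor
    · rintro ⟨i, rfl⟩
      exact (s.equivFin.symm i).2
    · intro hx
      exact ⟨s.equivFin ⟨x, hx⟩, by simp [f₀]⟩
  have hsp : Ideal.span (Set.range f₀) = IsLocalRing.maximalIdeal R := by
    rw [hr]; exact hs2
  have h1 : ∀ i, ∃ a ∈ A, ∃ b ∈ A, ev res b ≠ 0 ∧ (f₀ i : K) = a / b := fun i =>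
    hfr _ (f₀ i).2
  choose a ha b hb hb0 hab using h1
  refine ⟨s.card, a, ha, ?_, hdim, ?_⟩
  · intro i
    have h2 : a i = (f₀ i : K) * b i := by
      rw [hab, div_mul_cancel₀ _ (ne_of_ev res (hb0 i))]
    have h3 : res (f₀ i) = 0 := by
      rw [← hmax, ← hsp]
      exact Ideal.subset_span ⟨i, rfl⟩
    rw [h2, ev_mul res (f₀ i).2 (hAR (hb i)), ev_mk, h3, zero_mul]
  · intro x hx hx0
    rw [ev_of res hx, ← hmax, ← hsp, mem_span_range] at hx0
    obtain ⟨g, hg⟩ := hx0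
    refine ⟨fun i => (g i : K) / b i, fun i => hR.div_mem (g i).2 (hb0 i), ?_⟩
    have h4 := congrArg Subtype.val hg
    push_cast at h4
    rw [h4]
    refine Finset.sum_congr rfl fun i _ => ?_
    rw [hab i]
    ring

/-- equations of the closure -/
lemma exists_eqs (hR : Rl res) {A : Subring K} (hAn : IsNoetherianRing A) (hAR : A ≤ R)
    (hfr : ∀ x ∈ R, ∃ a ∈ A, ∃ b ∈ A, ev res b ≠ 0 ∧ x = a / b) {c : ℕ} (f : Fin c → K)
    (hfA : ∀ i, f i ∈ A)
    (hgen : ∀ x ∈ R, ev res x = 0 → ∃ g : Fin c → K, (∀ i, g i ∈ R) ∧ x = ∑ i, g i * f i) :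
    ∃ h ∈ A, ev res h ≠ 0 ∧ ∀ a ∈ A, ev res a = 0 →
      ∃ g : Fin c → K, (∀ i, g i ∈ A) ∧ h * a = ∑ i, g i * f i := by
  classical
  let φ : A →+* F := res.comp (Subring.inclusion hAR)
  have hφ : ∀ a : A, φ a = ev res (a : K) := fun a => (ev_of res (hAR a.2)).symm
  obtain ⟨G, hG'⟩ := (IsNoetherian.noetherian (RingHom.ker φ) : (RingHom.ker φ).FG)
  have hG : Ideal.span (G : Set A) = RingHom.ker φ := hG'
  have h1 : ∀ p ∈ G, ∃ s ∈ A, ev res s ≠ 0 ∧
      ∃ g : Fin c → K, (∀ i, g i ∈ A) ∧ s * (p : K) = ∑ i, g i * f i := by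
    intro p hp
    have hp0 : ev res (p : K) = 0 := by
      rw [← hφ, ← RingHom.mem_ker, ← hG]
      exact Ideal.subset_span hp
    obtain ⟨g, hg, hgs⟩ := hgen p (hAR p.2) hp0
    obtain ⟨s, hs, hs0, hsg⟩ := common_den hR hAR hfr Finset.univ g fun i _ => hg i
    refine ⟨s, hs, hs0, fun i => s * g i, fun i => hsg i (Finset.mem_univ i), ?_⟩
    rw [hgs, Finset.mul_sum]
    exact Finset.sum_congr rfl fun i _ => by ring
  choose! s hs hs0 g hg hgs using h1
  set h : K := ∏ p ∈ G, s p with hh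
  have hhA : h ∈ A := prod_mem fun p hp => hs p hp
  refine ⟨h, hhA, ?_, ?_⟩
  · rw [hh, ev_prod res G s fun p hp => hAR (hs p hp)]
    exact Finset.prod_ne_zero_iff.2 fun p hp => hs0 p hp
  · intro a ha ha0
    have h2 : (⟨a, ha⟩ : A) ∈ Ideal.span (G : Set A) := by
      rw [hG, RingHom.mem_ker, hφ]
      exact ha0
    have h3 : ∀ y ∈ Ideal.span (G : Set A), ∃ g : Fin c → K, (∀ i, g i ∈ A) ∧
        h * (y : K) = ∑ i, g i * f i := by
      intro y hy
      induction hy using Submodule.span_induction with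
      | mem p hp =>
        have hp' : p ∈ G := hp
        refine ⟨fun i => (∏ q ∈ G.erase p, s q) * g p i, fun i => mul_mem (prod_mem fun q hq =>
          hs q (Finset.mem_of_mem_erase hq)) (hg p hp' i), ?_⟩
        have e1 : h = s p * ∏ q ∈ G.erase p, s q := (Finset.mul_prod_erase G s hp').symm
        calc h * (p : K) = (∏ q ∈ G.erase p, s q) * (s p * (p : K)) := by rw [e1]; ring
          _ = ∑ i, (∏ q ∈ G.erase p, s q) * g p i * f i := by
            rw [hgs p hp', Finset.mul_sum]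
            exact Finset.sum_congr rfl fun i _ => by ring
      | zero => exact ⟨fun _ => 0, fun _ => zero_mem _, by simp⟩
      | add x y _ _ hx hy =>
        obtain ⟨g1, hg1, e1⟩ := hx
        obtain ⟨g2, hg2, e2⟩ := hy
        refine ⟨fun i => g1 i + g2 i, fun i => add_mem (hg1 i) (hg2 i), ?_⟩
        push_cast
        rw [mul_add, e1, e2, ← Finset.sum_add_distrib]
        exact Finset.sum_congr rfl fun i _ => by ring
      | smul r x _ hx =>
        obtain ⟨g1, hg1, e1⟩ := hx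
        refine ⟨fun i => (r : K) * g1 i, fun i => mul_mem r.2 (hg1 i), ?_⟩
        rw [smul_eq_mul]
        push_cast
        rw [mul_left_comm, e1, Finset.mul_sum]
        exact Finset.sum_congr rfl fun i _ => by ring
    exact h3 _ h2

/-- The constants of the residue field are fractions with one denominator. -/
lemma exists_const (hR : Rl res) (hs : Function.Surjective res) {O : Subring K}
    (hO0 : ∀ a ∈ O, a ≠ 0 → ev res a ≠ 0)
    {k₁ : Subfield F} (hk₁ : k₁ = Subfield.closure (im res O : Set F))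
    {W : Set K} (hW : W.Finite) (hAR : ch O W 1 ≤ R)
    (hfr : ∀ x ∈ R, ∃ a ∈ ch O W 1, ∃ b ∈ ch O W 1, ev res b ≠ 0 ∧ x = a / b) :
    ∃ h ∈ ch O W 1, ev res h ≠ 0 ∧
      ∀ y : F, IsSeparable k₁ y → ∃ (d a : K), d ∈ O ∧ d ≠ 0 ∧ a ∈ ch O W 1 ∧
        ev res (d * h) * y = ev res a := by
  classical
  have hOA : O ≤ ch O W 1 := O_le_ch
  have hOR : O ≤ R := hOA.trans hAR
  -- `F` is finitely generated
  have hfg : (⊤ : IntermediateField k₁ F).FG := by
    refine ⟨(hW.image (ev res)).toFinset, ?_⟩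
    rw [Set.Finite.coe_toFinset, eq_top_iff]
    intro z _
    set M := IntermediateField.adjoin k₁ (ev res '' W) with hM
    let D : Subring K := (M.toSubfield.toSubring.comap res).map R.subtype
    have hD : ∀ x ∈ R, ev res x ∈ M → x ∈ D := by
      intro x hx hxM
      rw [ev_of res hx] at hxM
      exact ⟨⟨x, hx⟩, hxM, rfl⟩
    have hD' : ∀ x ∈ D, ev res x ∈ M := by
      rintro _ ⟨x, hx, rfl⟩
      change ev res (x : K) ∈ M
      rw [ev_mk]
      exact hx
    have hWR : ∀ v ∈ W, v ∈ R := fun v hv => hAR (by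
      have := div_mem_ch (O := O) (w := 1) hv
      rwa [div_one] at this)
    have hAD : ch O W 1 ≤ D := by
      unfold ch
      rw [Subring.closure_le]
      rintro x (hx | ⟨v, hv, rfl⟩)
      · refine hD x (hOR hx) ?_
        have h1 : ev res x ∈ k₁ := by
          rw [hk₁]
          exact Subfield.subset_closure (ev_mem_im hOR hx)
        exact M.algebraMap_mem ⟨_, h1⟩
      · rw [div_one]
        exact hD v (hWR v hv) (IntermediateField.subset_adjoin _ _ ⟨v, hv, rfl⟩)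
    obtain ⟨x, rfl⟩ := hs z
    obtain ⟨a, ha, b, hb, hb0, hab⟩ := hfr x x.2
    rw [← ev_mk res x, hab, hR.ev_div (hAR ha) hb0]
    exact div_mem (hD' a (hAD ha)) (hD' b (hAD hb))
  haveI : Algebra.EssFiniteType k₁ F := IntermediateField.fg_top_iff.1 hfg
  haveI hfin : Module.Finite k₁ (separableClosure k₁ F) := fin_alg _
  let b := Module.finBasis k₁ (separableClosure k₁ F)
  choose r hr using fun i => hs (b i : F)
  obtain ⟨h, hh, hh0, hhr⟩ := common_den hR hAR hfr Finset.univ (fun i => (r i : K))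
    fun i _ => (r i).2
  refine ⟨h, hh, hh0, ?_⟩
  intro y hy
  have hyL : y ∈ separableClosure k₁ F := mem_separableClosure_iff.2 hy
  have hadd : ∀ y₁ y₂ : F,
      (∃ (d a : K), d ∈ O ∧ d ≠ 0 ∧ a ∈ ch O W 1 ∧ ev res (d * h) * y₁ = ev res a) →
      (∃ (d a : K), d ∈ O ∧ d ≠ 0 ∧ a ∈ ch O W 1 ∧ ev res (d * h) * y₂ = ev res a) →
      ∃ (d a : K), d ∈ O ∧ d ≠ 0 ∧ a ∈ ch O W 1 ∧ ev res (d * h) * (y₁ + y₂) = ev res a := by
    rintro y₁ y₂ ⟨d₁, a₁, hd₁, hd₁0, ha₁, e₁⟩ ⟨d₂, a₂, hd₂, hd₂0, ha₂, e₂⟩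
    refine ⟨d₁ * d₂, d₂ * a₁ + d₁ * a₂, mul_mem hd₁ hd₂, mul_ne_zero hd₁0 hd₂0,
      add_mem (mul_mem (hOA hd₂) ha₁) (mul_mem (hOA hd₁) ha₂), ?_⟩
    rw [ev_add res (mul_mem (hOR hd₂) (hAR ha₁)) (mul_mem (hOR hd₁) (hAR ha₂)),
      ev_mul res (hOR hd₂) (hAR ha₁), ev_mul res (hOR hd₁) (hAR ha₂), ← e₁, ← e₂,
      ev_mul res (hOR hd₁) (hAR hh), ev_mul res (hOR hd₂) (hAR hh),
      ev_mul res (mul_mem (hOR hd₁) (hOR hd₂)) (hAR hh), ev_mul res (hOR hd₁) (hOR hd₂)]
    ring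
  have hone : ∀ (c : k₁) (i : Fin (Module.finrank k₁ (separableClosure k₁ F))),
      ∃ (d a : K), d ∈ O ∧ d ≠ 0 ∧ a ∈ ch O W 1 ∧
        ev res (d * h) * ((c : F) * (b i : F)) = ev res a := by
    intro c i
    have hc : (c : F) ∈ Subfield.closure (im res O : Set F) := by rw [← hk₁]; exact c.2
    rw [Subfield.mem_closure_iff] at hc
    obtain ⟨o, ho, d, hd, hod⟩ := hc
    rw [Subring.closure_eq] at ho hd
    obtain ⟨o', ho', rfl⟩ := (mem_im hOR).1 ho
    obtain ⟨d', hd', rfl⟩ := (mem_im hOR).1 hd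
    have hri : ev res (r i : K) = b i := by rw [ev_mk]; exact hr i
    have hhri : h * (r i : K) ∈ ch O W 1 := hhr i (Finset.mem_univ i)
    by_cases hd0 : ev res d' = 0
    · rw [hd0, div_zero] at hod
      refine ⟨1, 0, one_mem _, one_ne_zero, zero_mem _, ?_⟩
      rw [← hod, zero_mul, mul_zero, ev_zero]
    · refine ⟨d', o' * (h * (r i : K)), hd', ne_of_ev res hd0, mul_mem (hOA ho') hhri, ?_⟩
      rw [ev_mul res (hOR ho') (hAR hhri), ev_mul res (hAR hh) (r i).2, hri,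
        ev_mul res (hOR hd') (hAR hh), ← hod]
      field_simp
  have hsum : ∀ (t : Finset (Fin (Module.finrank k₁ (separableClosure k₁ F))))
      (c : Fin (Module.finrank k₁ (separableClosure k₁ F)) → k₁),
      ∃ (d a : K), d ∈ O ∧ d ≠ 0 ∧ a ∈ ch O W 1 ∧
        ev res (d * h) * (∑ i ∈ t, (c i : F) * (b i : F)) = ev res a := by
    intro t c
    induction t using Finset.induction_on with
    | empty =>
      refine ⟨1, 0, one_mem _, one_ne_zero, zero_mem _, ?_⟩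
      rw [Finset.sum_empty, mul_zero, ev_zero]
    | insert j t hj ih =>
      rw [Finset.sum_insert hj]
      exact hadd _ _ (hone _ _) ih
  have h1 := b.sum_repr ⟨y, hyL⟩
  have h2 : y = ∑ i, ((b.repr ⟨y, hyL⟩ i : k₁) : F) * (b i : F) := by
    have h3 := congrArg (algebraMap (separableClosure k₁ F) F) h1
    rw [map_sum] at h3
    change _ = y at h3
    refine h3.symm.trans (Finset.sum_congr rfl fun i _ => ?_)
    rw [Algebra.smul_def, map_mul]
    rfl
  have h3 := hsum Finset.univ fun i => b.repr ⟨y, hyL⟩ i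
  rwa [← h2] at h3

theorem exists_good (hR : Rl res) (hs : Function.Surjective res) [hreg : IsRegularLocalRing R]
    {O : Subring K} (hOn : IsNoetherianRing O)
    (hO0 : ∀ a ∈ O, a ≠ 0 → ev res a ≠ 0)
    {k₁ : Subfield F} (hk₁ : k₁ = Subfield.closure (im res O : Set F))
    {W : Set K} (hW : W.Finite) (hAR : ch O W 1 ≤ R)
    (hfr : ∀ x ∈ R, ∃ a ∈ ch O W 1, ∃ b ∈ ch O W 1, ev res b ≠ 0 ∧ x = a / b) :
    ∃ (c : ℕ) (f : Fin c → K) (h : K), (∀ i, f i ∈ ch O W 1) ∧ (∀ i, ev res (f i) = 0) ∧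
      (c : WithBot ℕ∞) ≤ ringKrullDim R ∧ h ∈ ch O W 1 ∧ ev res h ≠ 0 ∧
      (∀ a ∈ ch O W 1, ev res a = 0 → ∃ (n : ℕ) (d : K), d ∈ O ∧ d ≠ 0 ∧
        ∃ g : Fin c → K, (∀ j, g j ∈ ch O W 1) ∧ d * h ^ n * a = ∑ j, g j * f j) ∧
      (∀ y : F, IsSeparable k₁ y → ∃ (n : ℕ) (d a : K), d ∈ O ∧ d ≠ 0 ∧ a ∈ ch O W 1 ∧
        ev res (d * h ^ n) * y = ev res a) := by
  have hOA : O ≤ ch O W 1 := O_le_ch
  have hOR : O ≤ R := hOA.trans hAR
  obtain ⟨c, f, hfA, hf0, hdim, hgen⟩ := exists_param hR hAR hfr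
  obtain ⟨h₂, hh₂, hh₂0, hf⟩ := exists_eqs hR (ch_noeth hOn hW) hAR hfr f hfA hgen
  obtain ⟨h₁, hh₁, hh₁0, hG⟩ := exists_const hR hs hO0 hk₁ hW hAR hfr
  refine ⟨c, f, h₁ * h₂, hfA, hf0, hdim, mul_mem hh₁ hh₂, ?_, ?_, ?_⟩
  · rw [ev_mul res (hAR hh₁) (hAR hh₂)]
    exact mul_ne_zero hh₁0 hh₂0
  · intro a ha ha0
    obtain ⟨g, hg, hgs⟩ := hf a ha ha0
    refine ⟨1, 1, one_mem _, one_ne_zero, fun j => h₁ * g j, fun j => mul_mem hh₁ (hg j), ?_⟩
    rw [one_mul, pow_one, mul_assoc, hgs, Finset.mul_sum]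
    exact Finset.sum_congr rfl fun i _ => by ring
  · intro y hy
    obtain ⟨d, a, hd, hd0, ha, hda⟩ := hG y hy
    refine ⟨1, d, a * h₂, hd, hd0, mul_mem ha hh₂, ?_⟩
    rw [pow_one, ← mul_assoc, ev_mul res (mul_mem (hOR hd) (hAR hh₁)) (hAR hh₂),
      ev_mul res (hAR ha) (hAR hh₂), ← hda]
    ring

end Pool.Agent.V5helper88.SP
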