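import Pool.Agent.V5helper88.SP.Pl

/-!
Images of vertical centres.
-/

set_option autoImplicit false

open Pointwise

universe u

namespace Pool.Agent.V5helper88.SP

variable {K F : Type u} [Field K] [Field F] {R : Subring K} {res : R →+* F}
  {O : Subring K} {W Y : Set K}

theorem im_vert (hO : O ≤ R) (hW : W ⊆ R) {π : K} (hπ : π ∈ O) (hY : Vert O π W Y)
    (hYR : ∀ y ∈ Y, y ∈ R) : Vert (im res O) (ev res π) (ev res '' W) (ev res '' Y) := by
  obtain ⟨hf, d, n, h1, h2⟩ := hY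
  refine ⟨hf.image _, d, n, ?_, ?_⟩
  · rintro _ ⟨y, hy, rfl⟩
    exact ev_span hO hW d y (h1 hy)
  · intro z hz
    obtain ⟨z', hz', rfl⟩ := lift_span hO hW d z hz
    have hzR := span_R hO hW d z' hz'
    rw [← ev_pow res (hO hπ), ← ev_mul res (pow_mem (hO hπ) n) hzR]
    have h3 := ev_span (res := res) hO (W := Y) (fun y hy => hYR y hy) 1 (π ^ n * z') (by
      rw [pow_one]; exact h2 z' hz')
    rwa [pow_one] at h3

theorem im_bu (hW : W ⊆ R) (hYR : ∀ y ∈ Y, y ∈ R) :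
    ev res '' bu W Y = bu (ev res '' W) (ev res '' Y) := by
  ext z
  constructor
  · rintro ⟨_, ⟨y, hy, v, hv, rfl⟩, rfl⟩
    exact ⟨_, ⟨y, hy, rfl⟩, _, ⟨v, hv, rfl⟩, ev_mul res (hYR y hy) (hW hv)⟩
  · rintro ⟨_, ⟨y, hy, rfl⟩, _, ⟨v, hv, rfl⟩, rfl⟩
    exact ⟨_, ⟨y, hy, v, hv, rfl⟩, ev_mul res (hYR y hy) (hW hv)⟩

end Pool.Agent.V5helper88.SP
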