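import Pool.Agent.V5helper88.SP.Pl
import Pool.Agent.N98.T2.Blow

/-!
A semistable local ring of the support gives a semistable local ring of the ambient model.
-/

set_option autoImplicit false

open Pointwise Pool.Agent.W418.LU2 IsLocalRing

universe u

namespace Pool.Agent.V5helper88.SP

/-- `P` is regular and `ϖ` is a product of distinct elements of a regular system of parameters. -/
def Semi {K : Type u} [Field K] (P : Subring K) (ϖ : K) : Prop :=
  ∃ (_ : IsRegularLocalRing P) (n : ℕ) (x : Fin n → P) (S : Finset (Fin n)),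
    Ideal.span (Set.range x) = IsLocalRing.maximalIdeal P ∧ ringKrullDim P = n ∧
      S.Nonempty ∧ ϖ = ∏ i ∈ S, (x i : K)

/-- The dimension inequality. -/
theorem height_add_quot {R : Type u} [CommRing R] (p : Ideal R) [hp : p.IsPrime] :
    (p.height : WithBot ℕ∞) + ringKrullDim (R ⧸ p) ≤ ringKrullDim R := by
  have hne : Nonempty (PrimeSpectrum R) := ⟨⟨p, hp⟩⟩
  let x : PrimeSpectrum R := ⟨p, hp⟩
  have h1 : ringKrullDim (R ⧸ p) = Order.coheight x := by
    rw [ringKrullDim_quotient, Order.coheight_eq_krullDim_Ici]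
    rfl
  have h2 : p.height = Order.height x := PrimeSpectrum.height_eq_orderHeight x
  rw [h1, h2]
  unfold ringKrullDim
  rw [Order.krullDim_eq_iSup_height_add_coheight_of_nonempty]
  have h3 := le_iSup (fun a : PrimeSpectrum R => Order.height a + Order.coheight a) x
  exact_mod_cast h3

variable {K F : Type u} [Field K] [Field F] {R : Subring K} {res : R →+* F}

/-- Finitely generated extensions of noetherian rings. -/
lemma noeth_adjoin {B : Subring K} (hB : IsNoetherianRing B) {c : ℕ} (t : Fin c → K) :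
    IsNoetherianRing (Subring.closure ((B : Set K) ∪ Set.range t)) := by
  let φ : MvPolynomial (Fin c) B →+* K := MvPolynomial.eval₂Hom B.subtype t
  have h1 : Subring.closure ((B : Set K) ∪ Set.range t) = φ.range := by
    apply le_antisymm
    · rw [Subring.closure_le]
      rintro z (hz | ⟨i, rfl⟩)
      · exact ⟨MvPolynomial.C ⟨z, hz⟩, by simp [φ]⟩
      · exact ⟨MvPolynomial.X i, by simp [φ]⟩
    · rintro _ ⟨q, rfl⟩
      induction q using MvPolynomial.induction_on with
      | C a =>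
        have e : φ (MvPolynomial.C a) = a := by simp [φ]
        rw [e]
        exact Subring.subset_closure (Or.inl a.2)
      | add p q hp hq => rw [map_add]; exact add_mem hp hq
      | mul_X p i hp =>
        have e : φ (MvPolynomial.X i) = t i := by simp [φ]
        rw [map_mul, e]
        exact mul_mem hp (Subring.subset_closure (Or.inr ⟨i, rfl⟩))
  rw [h1]
  exact isNoetherianRing_range φ

/-- Decomposition of the elements of `B[t]`. -/
lemma adjoin_decomp {B : Subring K} {c : ℕ} (t : Fin c → K) {x : K}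
    (hx : x ∈ Subring.closure ((B : Set K) ∪ Set.range t)) :
    ∃ a ∈ B, ∃ g : Fin c → K, (∀ i, g i ∈ Subring.closure ((B : Set K) ∪ Set.range t)) ∧
      x = a + ∑ i, g i * t i := by
  set D := Subring.closure ((B : Set K) ∪ Set.range t) with hD
  have hBD : B ≤ D := fun z hz => Subring.subset_closure (Or.inl hz)
  have htD : ∀ i, t i ∈ D := fun i => Subring.subset_closure (Or.inr ⟨i, rfl⟩)
  classical
  have h0 : ∀ y ∈ D, y = y := fun _ _ => rfl
  rw [hD] at hx
  induction hx using Subring.closure_induction with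
  | mem x hx =>
    rcases hx with hx | ⟨i, rfl⟩
    · exact ⟨x, hx, 0, fun i => zero_mem _, by simp⟩
    · refine ⟨0, zero_mem _, Pi.single i 1, fun j => ?_, ?_⟩
      · by_cases h : j = i
        · subst h; rw [Pi.single_eq_same]; exact one_mem _
        · rw [Pi.single_eq_of_ne h]; exact zero_mem _
      · rw [zero_add, Finset.sum_eq_single i]
        · rw [Pi.single_eq_same, one_mul]
        · intro j _ hj
          rw [Pi.single_eq_of_ne hj, zero_mul]
        · intro h; exact absurd (Finset.mem_univ i) h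
  | zero => exact ⟨0, zero_mem _, 0, fun i => zero_mem _, by simp⟩
  | one => exact ⟨1, one_mem _, 0, fun i => zero_mem _, by simp⟩
  | add x y _ _ hx hy =>
    obtain ⟨a, ha, g, hg, rfl⟩ := hx
    obtain ⟨b, hb, k, hk, rfl⟩ := hy
    refine ⟨a + b, add_mem ha hb, fun i => g i + k i, fun i => add_mem (hg i) (hk i), ?_⟩
    simp only [add_mul, Finset.sum_add_distrib]
    ring
  | neg x _ hx =>
    obtain ⟨a, ha, g, hg, rfl⟩ := hx
    refine ⟨-a, neg_mem ha, fun i => -g i, fun i => neg_mem (hg i), ?_⟩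
    simp only [neg_mul, Finset.sum_neg_distrib]
    ring
  | mul x y hx' _ hx hy =>
    obtain ⟨a, ha, g, hg, rfl⟩ := hx
    obtain ⟨b, hb, k, hk, rfl⟩ := hy
    have hx'' : a + ∑ i, g i * t i ∈ D := add_mem (hBD ha)
      (sum_mem fun i _ => mul_mem (hg i) (htD i))
    refine ⟨a * b, mul_mem ha hb, fun i => g i * b + (a + ∑ i, g i * t i) * k i, fun i =>
      add_mem (mul_mem (hg i) (hBD hb)) (mul_mem hx'' (hk i)), ?_⟩
    have e1 : ∑ i, (g i * b + (a + ∑ i, g i * t i) * k i) * t i =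
        b * ∑ i, g i * t i + (a + ∑ i, g i * t i) * ∑ i, k i * t i := by
      rw [Finset.mul_sum, Finset.mul_sum, ← Finset.sum_add_distrib]
      refine Finset.sum_congr rfl fun i _ => ?_
      ring
    rw [e1]
    ring

/-- A uniform exponent. -/
lemma exists_unif {Λ : Type u} [CommRing Λ] [IsNoetherianRing Λ] (I J : Ideal Λ) (p : Λ)
    (h : ∀ x ∈ I, ∃ M : ℕ, p ^ M * x ∈ J) : ∃ M : ℕ, ∀ x ∈ I, p ^ M * x ∈ J := by
  obtain ⟨s, hs⟩ := (IsNoetherian.noetherian I : I.FG)
  have hs' : ∀ g ∈ s, g ∈ I := fun g hg => by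
    rw [← hs]; exact Ideal.subset_span hg
  choose! M hM using fun g (hg : g ∈ s) => h g (hs' g hg)
  refine ⟨∑ g ∈ s, M g, fun x hx => ?_⟩
  rw [← hs] at hx
  induction hx using Submodule.span_induction with
  | mem g hg =>
    have h1 : M g ≤ ∑ g ∈ s, M g := Finset.single_le_sum (fun _ _ => Nat.zero_le _) hg
    obtain ⟨k, hk⟩ := Nat.exists_eq_add_of_le h1
    rw [hk, pow_add, mul_right_comm]
    exact Ideal.mul_mem_right _ _ (hM g hg)
  | zero => rw [mul_zero]; exact J.zero_mem
  | add x y _ _ hx hy => rw [mul_add]; exact J.add_mem hx hy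
  | smul a x _ hx =>
    rw [smul_eq_mul, mul_left_comm]
    exact J.mul_mem_left _ hx

lemma mem_span_range {Λ : Type u} [CommRing Λ] {c : ℕ} {f : Fin c → Λ} {x : Λ} :
    x ∈ Ideal.span (Set.range f) ↔ ∃ g : Fin c → Λ, x = ∑ i, g i * f i := by
  rw [Ideal.span, Submodule.mem_span_range_iff_exists_fun]
  constructor
  · rintro ⟨g, rfl⟩; exact ⟨g, by simp [smul_eq_mul]⟩
  · rintro ⟨g, rfl⟩; exact ⟨g, by simp [smul_eq_mul]⟩

/-- A uniform exponent. -/
theorem unif_gen (hR : Rl res) (V : ValuationSubring F) (B : Subring K)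
    (hBn : IsNoetherianRing B) (hB : B ≤ sp res V)
    {c : ℕ} (b : Fin c → K) (hbB : ∀ i, b i ∈ B) (p : K) (hpB : p ∈ B)
    (hgen : ∀ x ∈ B, ev res x = 0 → ∃ (M : ℕ) (g : Fin c → K),
      (∀ i, g i ∈ lo (sp res V) B) ∧ p ^ M * x = ∑ i, g i * b i) :
    ∃ M : ℕ, ∀ x ∈ B, ev res x = 0 → ∃ g : Fin c → K,
      (∀ i, g i ∈ lo (sp res V) B) ∧ p ^ M * x = ∑ i, g i * b i := by
  classical
  set S := sp res V with hS
  have hSl : Loc S := hR.loc
  have hSR : S ≤ R := sp_le
  have hBR : B ≤ R := hB.trans hSR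
  set Λ := lo S B with hΛ
  have hΛn : IsNoetherianRing Λ := Pool.Agent.N98.T2.noeth_lo hBn hSl hB
  have hBΛ : B ≤ Λ := le_lo S B
  have hΛS : Λ ≤ S := lo_le hB
  let pΛ : Λ := ⟨p, hBΛ hpB⟩
  let bΛ : Fin c → Λ := fun i => ⟨b i, hBΛ (hbB i)⟩
  let evΛ : Λ →+* F := res.comp (Subring.inclusion (hΛS.trans hSR))
  have hevΛ : ∀ x : Λ, evΛ x = ev res x := fun x => (ev_of res _).symm
  obtain ⟨M, hM⟩ := exists_unif (RingHom.ker evΛ) (Ideal.span (Set.range bΛ)) pΛ (by
    rintro ⟨x, hx⟩ hx0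
    rw [RingHom.mem_ker, hevΛ] at hx0
    obtain ⟨a, ha, s, hs, hs0, hsS, rfl⟩ := hx
    have hse : ev res s ≠ 0 := ev_ne_of_inv (hBR hs) (hSR hsS) hs0
    have hsΛ : s⁻¹ ∈ Λ := inv_mem_lo hB (hBΛ hs) hs0 hsS
    have ha0 : ev res a = 0 := by
      have h1 : ev res (a * s⁻¹) = 0 := hx0
      rw [ev_mul res (hBR ha) (hSR hsS), hR.ev_inv hse] at h1
      rcases mul_eq_zero.1 h1 with h | h
      · exact h
      · exact absurd (inv_eq_zero.1 h) hse
    obtain ⟨M, g, hg, hgx⟩ := hgen a ha ha0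
    refine ⟨M, mem_span_range.2 ⟨fun i => ⟨g i * s⁻¹, mul_mem (hg i) hsΛ⟩, ?_⟩⟩
    apply Subtype.ext
    push_cast
    change p ^ M * (a * s⁻¹) = ∑ i, g i * s⁻¹ * b i
    rw [← mul_assoc, hgx, Finset.sum_mul]
    refine Finset.sum_congr rfl fun i _ => ?_
    ring)
  refine ⟨M, fun x hx hx0 => ?_⟩
  have h1 := hM ⟨x, hBΛ hx⟩ (by rw [RingHom.mem_ker, hevΛ]; exact hx0)
  obtain ⟨g, hg⟩ := mem_span_range.1 h1
  refine ⟨fun i => g i, fun i => (g i).2, ?_⟩
  have h2 := congrArg Subtype.val hg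
  push_cast at h2
  exact h2

/-- The main algebraic step. -/
theorem semi_up (hR : Rl res) (V : ValuationSubring F) (B : Subring K)
    (hBn : IsNoetherianRing B) (hB : B ≤ sp res V)
    (hfr : ∀ x ∈ R, ∃ a ∈ B, ∃ b ∈ B, ev res b ≠ 0 ∧ x = a / b)
    {c : ℕ} (b : Fin c → K) (hbB : ∀ i, b i ∈ B) (hb0 : ∀ i, ev res (b i) = 0)
    (hdim : (c : WithBot ℕ∞) ≤ ringKrullDim R)
    (p : K) (hpB : p ∈ B) (hp0 : ev res p ≠ 0) (M : ℕ)
    (hgen : ∀ x ∈ B, ev res x = 0 → ∃ g : Fin c → K,
      (∀ i, g i ∈ lo (sp res V) B) ∧ p ^ M * x = ∑ i, g i * b i)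
    (hZ : Semi (lo V.toSubring (im res B)) (ev res p)) :
    Semi (lo (sp res V)
      (Subring.closure ((B : Set K) ∪ Set.range fun i => b i / p ^ (M + 1)))) p := by
  classical
  set S := sp res V with hS
  have hSl : Loc S := hR.loc
  have hSR : S ≤ R := sp_le
  have hBR : B ≤ R := hB.trans hSR
  set Λ := lo S B with hΛ
  have hΛn : IsNoetherianRing Λ := Pool.Agent.N98.T2.noeth_lo hBn hSl hB
  have hBΛ : B ≤ Λ := le_lo S B
  have hΛS : Λ ≤ S := lo_le hB
  have hpK : p ≠ 0 := ne_of_ev res hp0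
  have hM' : ∀ x ∈ Λ, ev res x = 0 → ∃ g : Fin c → K, (∀ i, g i ∈ Λ) ∧
      p ^ M * x = ∑ i, g i * b i := by
    rintro x hx hx0
    obtain ⟨a, ha, s, hs, hs0, hsS, rfl⟩ := hx
    have hse : ev res s ≠ 0 := ev_ne_of_inv (hBR hs) (hSR hsS) hs0
    have hsΛ : s⁻¹ ∈ Λ := inv_mem_lo hB (hBΛ hs) hs0 hsS
    have ha0 : ev res a = 0 := by
      have h1 : ev res (a * s⁻¹) = 0 := hx0
      rw [ev_mul res (hBR ha) (hSR hsS), hR.ev_inv hse] at h1
      rcases mul_eq_zero.1 h1 with h | h
      · exact h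
      · exact absurd (inv_eq_zero.1 h) hse
    obtain ⟨g, hg, hgx⟩ := hgen a ha ha0
    refine ⟨fun i => g i * s⁻¹, fun i => mul_mem (hg i) hsΛ, ?_⟩
    rw [← mul_assoc, hgx, Finset.sum_mul]
    refine Finset.sum_congr rfl fun i _ => ?_
    ring
  -- the new elements
  set t : Fin c → K := fun i => b i / p ^ (M + 1) with ht
  have hpe : ev res (p ^ (M + 1)) ≠ 0 := by
    rw [ev_pow res (hBR hpB)]
    exact pow_ne_zero _ hp0
  have htR : ∀ i, t i ∈ R := fun i => hR.div_mem (hBR (hbB i)) hpe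
  have ht0 : ∀ i, ev res (t i) = 0 := fun i => by
    rw [ht]
    simp only []
    rw [hR.ev_div (hBR (hbB i)) hpe, hb0, zero_div]
  have htS : ∀ i, t i ∈ S := fun i => ⟨htR i, by rw [ht0]; exact zero_mem V⟩
  have htb : ∀ i, b i = p ^ (M + 1) * t i := fun i => by
    rw [ht]; field_simp
  have hM2 : ∀ x ∈ Λ, ev res x = 0 → ∃ g : Fin c → K, (∀ i, g i ∈ Λ) ∧
      x = p * ∑ i, g i * t i := by
    intro x hx hx0
    obtain ⟨g, hg, h1⟩ := hM' x hx hx0
    refine ⟨g, hg, ?_⟩
    have h2 : p ^ M * x = p ^ M * (p * ∑ i, g i * t i) := by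
      rw [h1, Finset.mul_sum, Finset.mul_sum]
      refine Finset.sum_congr rfl fun i _ => ?_
      rw [htb i]
      ring
    exact mul_left_cancel₀ (pow_ne_zero M hpK) h2
  set D0 := Subring.closure ((B : Set K) ∪ Set.range t) with hD0
  have hBD0 : B ≤ D0 := fun z hz => Subring.subset_closure (Or.inl hz)
  have htD0 : ∀ i, t i ∈ D0 := fun i => Subring.subset_closure (Or.inr ⟨i, rfl⟩)
  have hD0S : D0 ≤ S := by
    rw [hD0, Subring.closure_le]
    rintro z (hz | ⟨i, rfl⟩)
    · exact hB hz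
    · exact htS i
  have hD0n : IsNoetherianRing D0 := noeth_adjoin hBn t
  change Semi (lo S D0) p
  set D := lo S D0 with hD
  have hDn : IsNoetherianRing D := Pool.Agent.N98.T2.noeth_lo hD0n hSl hD0S
  have hDl : IsLocalRing D := isLocalRing_lo hSl hD0S
  have hDS : D ≤ S := lo_le hD0S
  have hDR : D ≤ R := hDS.trans hSR
  have hD0D : D0 ≤ D := le_lo S D0
  have hΛD : Λ ≤ D := lo_mono hBD0
  have htD : ∀ i, t i ∈ D := fun i => hD0D (htD0 i)
  -- the residue map
  set L := lo V.toSubring (im res B) with hL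
  obtain ⟨hLr, n, x, T, hx, hxd, hT, hpx⟩ := hZ
  have hevD : ∀ y ∈ D, ev res y ∈ L := by
    rintro _ ⟨a, ha, s, hs, hs0, hsS, rfl⟩
    have hse : ev res s ≠ 0 := ev_ne_of_inv (hSR (hD0S hs)) (hSR hsS) hs0
    have key : ∀ a ∈ D0, ev res a ∈ im res B := by
      intro a ha
      obtain ⟨a0, ha0, g, hg, rfl⟩ := adjoin_decomp t ha
      have h1 : ev res (∑ i, g i * t i) = 0 := by
        rw [ev_sum res _ _ fun i _ => mul_mem (hSR (hD0S (hg i))) (htR i)]
        refine Finset.sum_eq_zero fun i _ => ?_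
        rw [ev_mul res (hSR (hD0S (hg i))) (htR i), ht0, mul_zero]
      rw [ev_add res (hBR ha0) (sum_mem fun i _ => mul_mem (hSR (hD0S (hg i))) (htR i)), h1,
        add_zero]
      exact ev_mem_im hBR ha0
    refine ⟨ev res a, key a ha, ev res s, key s hs, hse, ?_, ?_⟩
    · rw [← hR.ev_inv hse]
      exact hsS.2
    · rw [ev_mul res (hSR (hD0S ha)) (hSR hsS), hR.ev_inv hse]
  let ψ : D →+* L := (res.comp (Subring.inclusion hDR)).codRestrict L fun y => by
    have h1 : (res.comp (Subring.inclusion hDR)) y = ev res y := (ev_of res _).symm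
    rw [h1]
    exact hevD y y.2
  have hψ : ∀ y : D, (ψ y : F) = ev res y := fun y => (ev_of res _).symm
  have hψs : ∀ z : L, ∃ y ∈ Λ, ev res y = z := by
    rintro ⟨z, hz⟩
    rw [hL, ← im_lo hR hB, mem_im (hΛS.trans hSR)] at hz
    exact hz
  have hψsurj : Function.Surjective ψ := by
    intro z
    obtain ⟨y, hy, hyz⟩ := hψs z
    exact ⟨⟨y, hΛD hy⟩, Subtype.ext (by rw [hψ]; exact hyz)⟩
  let tD : Fin c → D := fun i => ⟨t i, htD i⟩
  have hker : RingHom.ker ψ = Ideal.span (Set.range tD) := by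
    apply le_antisymm
    · rintro ⟨y, hy⟩ hy0
      rw [RingHom.mem_ker] at hy0
      have hy1 : ev res y = 0 := by
        have := congrArg Subtype.val hy0
        rwa [hψ] at this
      obtain ⟨a, ha, s, hs, hs0, hsS, hys⟩ := id hy
      have hse : ev res s ≠ 0 := ev_ne_of_inv (hSR (hD0S hs)) (hSR hsS) hs0
      have hsD : s⁻¹ ∈ D := inv_mem_lo hD0S (hD0D hs) hs0 hsS
      have ha0 : ev res a = 0 := by
        rw [hys, ev_mul res (hSR (hD0S ha)) (hSR hsS), hR.ev_inv hse] at hy1
        rcases mul_eq_zero.1 hy1 with h | h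
        · exact h
        · exact absurd (inv_eq_zero.1 h) hse
      obtain ⟨a0, ha0', g, hg, haa⟩ := adjoin_decomp t ha
      have h1 : ev res (∑ i, g i * t i) = 0 := by
        rw [ev_sum res _ _ fun i _ => mul_mem (hSR (hD0S (hg i))) (htR i)]
        refine Finset.sum_eq_zero fun i _ => ?_
        rw [ev_mul res (hSR (hD0S (hg i))) (htR i), ht0, mul_zero]
      have h2 : ev res a0 = 0 := by
        rw [haa, ev_add res (hBR ha0') (sum_mem fun i _ =>
          mul_mem (hSR (hD0S (hg i))) (htR i)), h1, add_zero] at ha0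
        exact ha0
      obtain ⟨k, hk, hak⟩ := hM2 a0 (hBΛ ha0') h2
      refine mem_span_range.2 ⟨fun i => ⟨(p * k i + g i) * s⁻¹, mul_mem (add_mem
        (mul_mem (hΛD (hBΛ hpB)) (hΛD (hk i))) (hD0D (hg i))) hsD⟩, ?_⟩
      apply Subtype.ext
      push_cast
      change y = ∑ i, (p * k i + g i) * s⁻¹ * t i
      rw [hys, haa, hak, Finset.mul_sum, ← Finset.sum_add_distrib, Finset.sum_mul]
      refine Finset.sum_congr rfl fun i _ => ?_
      ring
    · rw [Ideal.span_le]
      rintro _ ⟨i, rfl⟩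
      rw [SetLike.mem_coe, RingHom.mem_ker]
      apply Subtype.ext
      rw [hψ]
      exact ht0 i
  -- parameters
  choose X hX hXe using fun i => hψs (x i)
  have hXD : ∀ i, X i ∈ D := fun i => hΛD (hX i)
  -- the product
  have hprod : ∃ u ∈ D, ev res u = 1 ∧ p * u = ∏ i ∈ T, X i := by
    have h1 : p - ∏ i ∈ T, X i ∈ Λ := sub_mem (hBΛ hpB) (prod_mem fun i _ => hX i)
    have h2 : ev res (p - ∏ i ∈ T, X i) = 0 := by
      rw [ev_sub res (hBR hpB) (prod_mem fun i _ => hSR (hΛS (hX i))),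
        ev_prod res _ _ fun i _ => hSR (hΛS (hX i)), hpx, sub_eq_zero]
      exact Finset.prod_congr rfl fun i _ => (hXe i).symm
    obtain ⟨k, hk, hak⟩ := hM2 _ h1 h2
    have hkR : ∀ i ∈ (Finset.univ : Finset (Fin c)), k i * t i ∈ R := fun i _ =>
      mul_mem (hSR (hΛS (hk i))) (htR i)
    refine ⟨1 - ∑ i, k i * t i, sub_mem (one_mem _) (sum_mem fun i _ =>
      mul_mem (hΛD (hk i)) (htD i)), ?_, ?_⟩
    · rw [ev_sub res R.one_mem (sum_mem hkR), ev_one, ev_sum res _ _ hkR, sub_eq_self]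
      refine Finset.sum_eq_zero fun i _ => ?_
      rw [ev_mul res (hSR (hΛS (hk i))) (htR i), ht0, mul_zero]
    · rw [mul_sub, mul_one, ← hak]
      ring
  obtain ⟨u, huD, hu1, hup⟩ := hprod
  have huS : u⁻¹ ∈ S := hR.inv_sp (by rw [hu1]; exact one_ne_zero) (by
    rw [hu1, inv_one]; exact one_mem V)
  have hu0 : u ≠ 0 := ne_of_ev res (by rw [hu1]; exact one_ne_zero)
  have huiD : u⁻¹ ∈ D := inv_mem_lo hD0S huD hu0 huS
  obtain ⟨i0, hi0⟩ := hT
  -- the new parameters
  let Y : Fin n → K := fun i => if i = i0 then X i * u⁻¹ else X i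
  have hYD : ∀ i, Y i ∈ D := fun i => by
    by_cases h : i = i0
    · simp only [Y, h, if_true]; exact mul_mem (hXD _) huiD
    · simp only [Y, h, if_false]; exact hXD _
  have hYe : ∀ i, ev res (Y i) = x i := fun i => by
    by_cases h : i = i0
    · simp only [Y, h, if_true]
      rw [ev_mul res (hDR (hXD _)) (hSR huS), hR.ev_inv (by rw [hu1]; exact one_ne_zero), hu1,
        inv_one, mul_one, hXe]
    · simp only [Y, h, if_false]; exact hXe i
  have hYp : p = ∏ i ∈ T, Y i := by
    have h1 : ∏ i ∈ T, Y i = (∏ i ∈ T, X i) * u⁻¹ := by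
      rw [← Finset.mul_prod_erase T Y hi0, ← Finset.mul_prod_erase T X hi0]
      have h2 : ∏ i ∈ T.erase i0, Y i = ∏ i ∈ T.erase i0, X i := by
        refine Finset.prod_congr rfl fun i hi => ?_
        simp only [Y, (Finset.mem_erase.1 hi).1, if_false]
      rw [h2]
      simp only [Y, if_true]
      ring
    rw [h1, ← hup, mul_assoc, mul_inv_cancel₀ hu0, mul_one]
  let YD : Fin n → D := fun i => ⟨Y i, hYD i⟩
  have hψY : ∀ i, ψ (YD i) = x i := fun i => Subtype.ext (by rw [hψ]; exact hYe i)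
  let Z : Fin (n + c) → D := Fin.append YD tD
  -- the maximal ideal
  have hmax : Ideal.span (Set.range Z) = maximalIdeal D := by
    have hloc : IsLocalHom ψ := by
      constructor
      rintro ⟨y, hy⟩ hu
      obtain ⟨z, hz⟩ := hu.exists_right_inv
      have hz1 : ev res y * (z : F) = 1 := by
        have := congrArg Subtype.val hz
        push_cast at this
        rwa [hψ] at this
      have hy0 : ev res y ≠ 0 := left_ne_zero_of_mul_eq_one hz1
      have hyV : (ev res y)⁻¹ ∈ V := by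
        rw [← eq_inv_of_mul_eq_one_right hz1]
        have him : im res B ≤ V.toSubring := by
          rintro w hw
          obtain ⟨b', hb', rfl⟩ := (mem_im hBR).1 hw
          exact (hB hb').2
        exact lo_le him z.2
      have h3 : y⁻¹ ∈ S := hR.inv_sp hy0 hyV
      exact (isUnit_lo_iff hD0S (⟨y, hy⟩ : D)).2 ⟨ne_of_ev res hy0, h3⟩
    have hcomap : (maximalIdeal L).comap ψ = maximalIdeal D :=
      ((local_hom_TFAE ψ).out 0 4).1 hloc
    rw [← hcomap, ← hx]
    apply le_antisymm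
    · rw [Ideal.span_le]
      rintro _ ⟨i, rfl⟩
      rw [SetLike.mem_coe, Ideal.mem_comap]
      refine Fin.addCases (fun i => ?_) (fun i => ?_) i
      · simp only [Z, Fin.append_left]
        rw [hψY]
        exact Ideal.subset_span ⟨i, rfl⟩
      · simp only [Z, Fin.append_right]
        have : tD i ∈ RingHom.ker ψ := by rw [hker]; exact Ideal.subset_span ⟨i, rfl⟩
        rw [RingHom.mem_ker.1 this]
        exact Ideal.zero_mem _
    · intro y hy
      rw [Ideal.mem_comap] at hy
      obtain ⟨g, hg⟩ := mem_span_range.1 hy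
      choose k hk using fun i => hψsurj (g i)
      have h1 : y - ∑ i, k i * YD i ∈ RingHom.ker ψ := by
        rw [RingHom.mem_ker, map_sub, map_sum, hg, sub_eq_zero]
        refine Finset.sum_congr rfl fun i _ => ?_
        rw [map_mul, hk, hψY]
      rw [hker] at h1
      have h2 : Ideal.span (Set.range tD) ≤ Ideal.span (Set.range Z) := by
        apply Ideal.span_mono
        rintro _ ⟨i, rfl⟩
        exact ⟨Fin.natAdd n i, by simp only [Z, Fin.append_right]⟩
      have h3 : ∑ i, k i * YD i ∈ Ideal.span (Set.range Z) := by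
        refine sum_mem fun i _ => Ideal.mul_mem_left _ _ (Ideal.subset_span ?_)
        exact ⟨Fin.castAdd c i, by simp only [Z, Fin.append_left]⟩
      have h4 := add_mem (h2 h1) h3
      rwa [sub_add_cancel] at h4
  -- the dimension
  have hspan : (maximalIdeal D).spanFinrank ≤ n + c := by
    rw [← hmax]
    refine (Submodule.spanFinrank_span_le_ncard_of_finite (Set.finite_range Z)).trans ?_
    rw [← Set.image_univ]
    refine (Set.ncard_image_le Set.finite_univ).trans ?_
    rw [Set.ncard_univ, Nat.card_eq_fintype_card, Fintype.card_fin]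
  have hlow : ((n + c : ℕ) : WithBot ℕ∞) ≤ ringKrullDim D := by
    -- the prime ideal
    have hprime : (RingHom.ker ψ).IsPrime := RingHom.ker_isPrime ψ
    have h1 := height_add_quot (RingHom.ker ψ)
    have h2 : ringKrullDim (D ⧸ RingHom.ker ψ) = n := by
      rw [ringKrullDim_eq_of_ringEquiv (RingHom.quotientKerEquivOfSurjective hψsurj)]
      exact hxd
    let alg : Algebra D R := (Subring.inclusion hDR).toAlgebra
    have hRl : IsLocalization.AtPrime R (RingHom.ker ψ) := by
      constructor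
      constructor
      · rintro ⟨y, hy⟩
        have hy0 : ev res (y : K) ≠ 0 := by
          intro h
          refine hy ((RingHom.mem_ker (f := ψ)).2 (Subtype.ext ?_))
          rw [hψ]
          exact h
        refine IsUnit.of_mul_eq_one ⟨(y : K)⁻¹, hR.inv hy0⟩ (Subtype.ext ?_)
        exact mul_inv_cancel₀ (ne_of_ev res hy0)
      · rintro ⟨r, hr⟩
        obtain ⟨a, ha, s, hs, hs0, rfl⟩ := hfr r hr
        refine ⟨(⟨a, hΛD (hBΛ ha)⟩, ⟨⟨s, hΛD (hBΛ hs)⟩, ?_⟩), Subtype.ext ?_⟩
        · intro h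
          rw [SetLike.mem_coe, RingHom.mem_ker] at h
          apply hs0
          have := congrArg Subtype.val h
          rwa [hψ] at this
        · exact div_mul_cancel₀ _ (ne_of_ev res hs0)
      · intro y z hyz
        refine ⟨1, ?_⟩
        have hyz' : (Subring.inclusion hDR) y = (Subring.inclusion hDR) z := hyz
        have h3 : (y : K) = z := congrArg (fun r : R => (r : K)) hyz'
        rw [Subtype.ext h3]
    have h3 : ringKrullDim R = (RingHom.ker ψ).height :=
      IsLocalization.AtPrime.ringKrullDim_eq_height (RingHom.ker ψ) R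
    rw [h2, ← h3] at h1
    refine le_trans ?_ h1
    rw [Nat.cast_add, add_comm]
    exact add_le_add_left hdim _
  have hreg : IsRegularLocalRing D := by
    refine IsRegularLocalRing.of_spanFinrank_maximalIdeal_le D (le_trans ?_ hlow)
    exact_mod_cast hspan
  have hdimD : ringKrullDim D = ((n + c : ℕ) : WithBot ℕ∞) := by
    refine le_antisymm ?_ hlow
    refine (ringKrullDim_le_spanFinrank_maximalIdeal D).trans ?_
    exact_mod_cast hspan
  refine ⟨hreg, n + c, Z, T.map (Fin.castAddEmb c), hmax, hdimD, ?_, ?_⟩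
  · exact ⟨Fin.castAddEmb c i0, Finset.mem_map_of_mem _ hi0⟩
  · rw [Finset.prod_map]
    refine hYp.trans (Finset.prod_congr rfl fun i _ => ?_)
    simp only [Z, Fin.castAddEmb_apply, Fin.append_left, YD]

end Pool.Agent.V5helper88.SP
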