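import Mathlib

/-!
Charts of projective models and vertical blowings-up.
-/

set_option autoImplicit false

open Pointwise

universe u

namespace Pool.Agent.V5helper88.SP

variable {K : Type u} [Field K]

/-- The chart `w ≠ 0` of `Proj O[W]`. -/
def ch (O : Subring K) (W : Set K) (w : K) : Subring K :=
  Subring.closure ((O : Set K) ∪ {z | ∃ v ∈ W, z = v / w})

/-- A vertical centre. -/
def Vert (O : Subring K) (p : K) (W Y : Set K) : Prop :=
  Y.Finite ∧ ∃ d n : ℕ, Y ⊆ ((Submodule.span O W) ^ d : Submodule O K) ∧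
    ∀ z ∈ (Submodule.span O W) ^ d, p ^ n * z ∈ Submodule.span O Y

/-- The coordinates of the blowing-up. -/
def bu (W Y : Set K) : Set K := {z | ∃ y ∈ Y, ∃ v ∈ W, z = y * v}

variable {O : Subring K} {W : Set K} {w : K}

lemma bu_eq (W Y : Set K) : bu W Y = Y * W := by
  ext z
  simp only [bu, Set.mem_setOf_eq, Set.mem_mul]
  constructor
  · rintro ⟨y, hy, v, hv, rfl⟩; exact ⟨y, hy, v, hv, rfl⟩
  · rintro ⟨y, hy, v, hv, rfl⟩; exact ⟨y, hy, v, hv, rfl⟩

lemma pow_finite (hW : W.Finite) (e : ℕ) : (W ^ e).Finite := by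
  induction e with
  | zero => rw [pow_zero]; exact Set.finite_one
  | succ e ih => rw [pow_succ]; exact ih.mul hW

lemma bu_finite {W Y : Set K} (hW : W.Finite) (hY : Y.Finite) : (bu W Y).Finite := by
  rw [bu_eq]; exact hY.mul hW

lemma O_le_ch : O ≤ ch O W w := fun a ha => Subring.subset_closure (Or.inl ha)

lemma div_mem_ch {v : K} (hv : v ∈ W) : v / w ∈ ch O W w :=
  Subring.subset_closure (Or.inr ⟨v, hv, rfl⟩)

lemma smul_eq (o : O) (z : K) : o • z = (o : K) * z := rfl

/-- forms divided by powers of `w` -/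
lemma form_div (i : ℕ) : ∀ z ∈ (Submodule.span O W) ^ i, z / w ^ i ∈ ch O W w := by
  have h1 : ∀ z ∈ Submodule.span O W, z / w ∈ ch O W w := by
    intro z hz
    induction hz using Submodule.span_induction with
    | mem z hz => exact div_mem_ch hz
    | zero => rw [zero_div]; exact zero_mem _
    | add x y _ _ hx hy => rw [add_div]; exact add_mem hx hy
    | smul a x _ hx =>
      rw [smul_eq, mul_div_assoc]
      exact mul_mem (O_le_ch a.2) hx
  induction i with
  | zero =>
    intro z hz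
    rw [pow_zero, Submodule.mem_one] at hz
    obtain ⟨o, rfl⟩ := hz
    rw [pow_zero, div_one]
    exact O_le_ch o.2
  | succ i ih =>
    intro z hz
    rw [pow_succ] at hz
    refine Submodule.mul_induction_on hz ?_ ?_
    · intro a ha b hb
      rw [pow_succ, mul_div_mul_comm]
      exact mul_mem (ih a ha) (h1 b hb)
    · intro a b ha hb
      rw [add_div]
      exact add_mem ha hb

lemma form_raise {i : ℕ} {a : K} (hw : w ∈ W) (ha : a ∈ (Submodule.span O W) ^ i) (j : ℕ) :
    a * w ^ j ∈ (Submodule.span O W) ^ (i + j) := by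
  rw [pow_add]
  exact Submodule.mul_mem_mul ha (Submodule.pow_mem_pow _ (Submodule.subset_span hw) j)

/-- elements of the chart are forms divided by powers of `w` -/
lemma ch_form (hw : w ∈ W) (hw0 : w ≠ 0) {b : K} (hb : b ∈ ch O W w) :
    ∃ i, b * w ^ i ∈ (Submodule.span O W) ^ i := by
  unfold ch at hb
  induction hb using Subring.closure_induction with
  | mem x hx =>
    rcases hx with hx | ⟨v, hv, rfl⟩
    · refine ⟨0, ?_⟩
      simp only [pow_zero, mul_one]
      rw [Submodule.mem_one]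
      exact ⟨⟨x, hx⟩, rfl⟩
    · refine ⟨1, ?_⟩
      rw [pow_one, pow_one, div_mul_cancel₀ _ hw0]
      exact Submodule.subset_span hv
  | zero => exact ⟨0, by rw [zero_mul]; exact zero_mem _⟩
  | one =>
    refine ⟨0, ?_⟩
    simp only [pow_zero, mul_one]
    exact Submodule.one_le.mp le_rfl
  | add x y _ _ hx hy =>
    obtain ⟨i, hi⟩ := hx
    obtain ⟨j, hj⟩ := hy
    refine ⟨i + j, ?_⟩
    have h1 := form_raise hw hi j
    have h2 := form_raise hw hj i
    rw [add_comm j i] at h2
    have e : (x + y) * w ^ (i + j) = x * w ^ i * w ^ j + y * w ^ j * w ^ i := by ring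
    rw [e]
    exact add_mem h1 h2
  | neg x _ hx =>
    obtain ⟨i, hi⟩ := hx
    exact ⟨i, by rw [neg_mul]; exact neg_mem hi⟩
  | mul x y _ _ hx hy =>
    obtain ⟨i, hi⟩ := hx
    obtain ⟨j, hj⟩ := hy
    refine ⟨i + j, ?_⟩
    have e : x * y * w ^ (i + j) = x * w ^ i * (y * w ^ j) := by ring
    rw [e, pow_add]
    exact Submodule.mul_mem_mul hi hj

lemma ch_form_le (hw : w ∈ W) {b : K} {i j : ℕ} (hij : i ≤ j)
    (hb : b * w ^ i ∈ (Submodule.span O W) ^ i) : b * w ^ j ∈ (Submodule.span O W) ^ j := by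
  obtain ⟨t, rfl⟩ := Nat.exists_eq_add_of_le hij
  have := form_raise hw hb t
  rwa [mul_assoc, ← pow_add] at this

lemma ch_form_fin (hw : w ∈ W) (hw0 : w ≠ 0) {G : Set K} (hG : G.Finite)
    (h : ∀ g ∈ G, g ∈ ch O W w) : ∃ e, ∀ g ∈ G, g * w ^ e ∈ (Submodule.span O W) ^ e := by
  induction G, hG using Set.Finite.induction_on with
  | empty => exact ⟨0, fun g hg => absurd hg (Set.notMem_empty g)⟩
  | @insert a s _ _ ih =>
    obtain ⟨e, he⟩ := ih fun g hg => h g (Set.mem_insert_of_mem _ hg)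
    obtain ⟨i, hi⟩ := ch_form hw hw0 (h a (Set.mem_insert _ _))
    refine ⟨e + i, fun g hg => ?_⟩
    rcases Set.mem_insert_iff.1 hg with rfl | hg
    · exact ch_form_le hw (Nat.le_add_left _ _) hi
    · exact ch_form_le hw (Nat.le_add_right _ _) (he g hg)

/-- The blowing-up of the ideal generated by `G` and `p ^ n`, in the chart of `a₀ ∈ G`; all data
explicit. -/
theorem bu_ch (hW : W.Finite) (hw : w ∈ W) (hw0 : w ≠ 0) {p : K} (hp : p ∈ O) (n : ℕ)
    {G : Set K} (hG : G.Finite) {a₀ : K} (ha : a₀ ∈ G) (ha0 : a₀ ≠ 0)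
    {e : ℕ} (he : ∀ g ∈ G, g * w ^ e ∈ (Submodule.span O W) ^ e) :
    Vert O p W ((fun m => p ^ n * m) '' (W ^ e) ∪ (fun g => g * w ^ e) '' G) ∧
    ch O (bu W ((fun m => p ^ n * m) '' (W ^ e) ∪ (fun g => g * w ^ e) '' G))
      (a₀ * w ^ e * w) =
      Subring.closure ((ch O W w : Set K) ∪ ({p ^ n / a₀} ∪ (fun g => g / a₀) '' G)) := by
  set Y : Set K := (fun m => p ^ n * m) '' (W ^ e) ∪ (fun g => g * w ^ e) '' G with hY
  have hwe : w ^ e ∈ W ^ e := Set.pow_mem_pow hw
  have hWe : W ^ e ⊆ ((Submodule.span O W) ^ e : Submodule O K) := by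
    rw [Submodule.span_pow]; exact Submodule.subset_span
  constructor
  · refine ⟨((pow_finite hW e).image _).union (hG.image _), e, n, ?_, ?_⟩
    · rintro y (⟨m, hm, rfl⟩ | ⟨g, hg, rfl⟩)
      · exact Submodule.smul_mem _ (⟨p ^ n, pow_mem hp n⟩ : O) (hWe hm)
      · exact he g hg
    · intro z hz
      rw [Submodule.span_pow] at hz
      induction hz using Submodule.span_induction with
      | mem z hz => exact Submodule.subset_span (Or.inl ⟨z, hz, rfl⟩)
      | zero => rw [mul_zero]; exact zero_mem _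
      | add x y _ _ hx hy => rw [mul_add]; exact add_mem hx hy
      | smul a x _ hx =>
        rw [smul_eq, mul_left_comm]
        exact Submodule.smul_mem _ a hx
  · apply le_antisymm
    · unfold ch
      rw [Subring.closure_le]
      rintro z (hz | ⟨_, ⟨y, hy, v, hv, rfl⟩, rfl⟩)
      · exact Subring.subset_closure (Or.inl (Subring.subset_closure (Or.inl hz)))
      · have hvw : v / w ∈ Subring.closure ((Subring.closure ((O : Set K) ∪
            {z | ∃ v ∈ W, z = v / w}) : Set K) ∪ ({p ^ n / a₀} ∪ (fun g => g / a₀) '' G)) :=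
          Subring.subset_closure (Or.inl (Subring.subset_closure (Or.inr ⟨v, hv, rfl⟩)))
        rcases hy with ⟨m, hm, rfl⟩ | ⟨g, hg, rfl⟩
        · have h1 : m / w ^ e ∈ ch O W w := form_div e m (hWe hm)
          have e1 : p ^ n * m * v / (a₀ * w ^ e * w) = p ^ n / a₀ * (m / w ^ e) * (v / w) := by
            field_simp
          simp only [e1]
          refine mul_mem (mul_mem (Subring.subset_closure (Or.inr (Or.inl rfl)))
            (Subring.subset_closure (Or.inl h1))) hvw
        · have e1 : g * w ^ e * v / (a₀ * w ^ e * w) = g / a₀ * (v / w) := by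
            field_simp
          simp only [e1]
          exact mul_mem (Subring.subset_closure (Or.inr (Or.inr ⟨g, hg, rfl⟩))) hvw
    · have hYa : a₀ * w ^ e ∈ Y := Or.inr ⟨a₀, ha, rfl⟩
      have hYp : p ^ n * w ^ e ∈ Y := Or.inl ⟨w ^ e, hwe, rfl⟩
      rw [Subring.closure_le]
      rintro z (hz | hz | ⟨g, hg, rfl⟩)
      · have h2 : ch O W w ≤ ch O (bu W Y) (a₀ * w ^ e * w) := by
          unfold ch
          rw [Subring.closure_le]
          rintro z (hz | ⟨v, hv, rfl⟩)
          · exact Subring.subset_closure (Or.inl hz)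
          · have e1 : v / w = a₀ * w ^ e * v / (a₀ * w ^ e * w) := by field_simp
            rw [e1]
            exact Subring.subset_closure (Or.inr ⟨_, ⟨_, hYa, v, hv, rfl⟩, rfl⟩)
        exact h2 hz
      · rw [Set.mem_singleton_iff.1 hz]
        have e1 : p ^ n / a₀ = p ^ n * w ^ e * w / (a₀ * w ^ e * w) := by field_simp
        rw [e1]
        exact Subring.subset_closure (Or.inr ⟨_, ⟨_, hYp, w, hw, rfl⟩, rfl⟩)
      · have e1 : g / a₀ = g * w ^ e * w / (a₀ * w ^ e * w) := by field_simp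
        simp only [e1]
        exact Subring.subset_closure (Or.inr ⟨_, ⟨_, Or.inr ⟨g, hg, rfl⟩, w, hw, rfl⟩, rfl⟩)

/-- Composition of vertical blowings-up. -/
theorem vert_comp {p : K} (hp : p ∈ O) {Y₁ Y₂ : Set K} (h1 : Vert O p W Y₁)
    (h2 : Vert O p (bu W Y₁) Y₂) :
    Vert O p W (Y₂ * Y₁) ∧ bu (bu W Y₁) Y₂ = bu W (Y₂ * Y₁) := by
  refine ⟨?_, by rw [bu_eq, bu_eq, bu_eq, mul_assoc]⟩
  obtain ⟨f1, d1, n1, hY1, hv1⟩ := h1
  obtain ⟨f2, d2, n2, hY2, hv2⟩ := h2
  set M := Submodule.span O W with hM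
  set N1 := Submodule.span O Y₁ with hN1
  set N2 := Submodule.span O Y₂ with hN2
  have hNM : Submodule.span O (bu W Y₁) = N1 * M := by
    rw [bu_eq, Submodule.span_mul_span]
  rw [hNM] at hY2 hv2
  have hN1M : N1 ≤ M ^ d1 := Submodule.span_le.2 hY1
  have hN2M : N2 ≤ (M ^ (d1 + 1)) ^ d2 := by
    refine Submodule.span_le.2 (hY2.trans ?_)
    have h3 : (N1 * M) ^ d2 ≤ (M ^ (d1 + 1)) ^ d2 := by
      refine pow_le_pow_left' ?_ d2
      rw [pow_succ]
      exact mul_le_mul' hN1M le_rfl
    exact h3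
  have hpn : ∀ n : ℕ, p ^ n ∈ O := fun n => pow_mem hp n
  -- the powers
  have key : ∀ j, ∀ a ∈ (M ^ (d1 + 1)) ^ j, p ^ (n1 * j) * a ∈ (N1 * M) ^ j := by
    have h4 : ∀ a ∈ M ^ (d1 + 1), p ^ n1 * a ∈ N1 * M := by
      intro a ha
      rw [pow_succ] at ha
      refine Submodule.mul_induction_on ha ?_ ?_
      · intro x hx y hy
        rw [← mul_assoc]
        exact Submodule.mul_mem_mul (hv1 x hx) hy
      · intro x y hx hy
        rw [mul_add]
        exact add_mem hx hy
    intro j
    induction j with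
    | zero =>
      intro a ha
      rw [pow_zero] at ha
      simp only [mul_zero, pow_zero, one_mul]
      exact ha
    | succ j ih =>
      intro a ha
      rw [pow_succ] at ha
      rw [pow_succ]
      refine Submodule.mul_induction_on ha ?_ ?_
      · intro x hx y hy
        have e : p ^ (n1 * (j + 1)) * (x * y) = p ^ (n1 * j) * x * (p ^ n1 * y) := by ring
        rw [e]
        exact Submodule.mul_mem_mul (ih x hx) (h4 y hy)
      · intro x y hx hy
        rw [mul_add]
        exact add_mem hx hy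
  refine ⟨f2.mul f1, (d1 + 1) * d2 + d1, n2 + n1 * d2 + n1, ?_, ?_⟩
  · rintro z ⟨a, ha, b, hb, rfl⟩
    rw [pow_add, pow_mul]
    exact Submodule.mul_mem_mul (hN2M (Submodule.subset_span ha)) (hY1 hb)
  · intro z hz
    rw [pow_add, pow_mul] at hz
    rw [← Submodule.span_mul_span]
    refine Submodule.mul_induction_on hz ?_ ?_
    · intro x hx y hy
      have e : p ^ (n2 + n1 * d2 + n1) * (x * y) =
          p ^ n2 * (p ^ (n1 * d2) * x) * (p ^ n1 * y) := by ring
      rw [e]
      exact Submodule.mul_mem_mul (hv2 _ (key d2 x hx)) (hv1 y hy)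
    · intro x y hx hy
      rw [mul_add]
      exact add_mem hx hy

end Pool.Agent.V5helper88.SP
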