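import Pool.Agent.V5helper88.SP.Pl
import Pool.Agent.H918R2.Quad.Reg1

/-!
Base change of the local ring to a finite extension of the ground field.
-/

set_option autoImplicit false

open IsLocalRing Polynomial

universe u

namespace Pool.Agent.V5helper88.SP

/-- An étale extension of a regular local ring with a monic equation which stays irreducible over
the residue field. -/
theorem ext_alg {R F F' : Type u} [CommRing R] [Field F] [Field F'] [Algebra F F']
    [IsNoetherianRing R] (res : R →+* F) (hs : Function.Surjective res)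
    (hunit : ∀ x : R, res x ≠ 0 → IsUnit x) {c : ℕ} (f : Fin c → R)
    (hf : RingHom.ker res = Ideal.span (Set.range f))
    (hdim : (c : WithBot ℕ∞) ≤ ringKrullDim R)
    (t : F') (hgen : ∀ z : F', ∃ q : F[X], z = aeval t q)
    (P : R[X]) (hP : P.Monic) (hPm : P.map res = minpoly F t) :
    ∃ θ : AdjoinRoot P →+* F', Function.Surjective θ ∧
      (∀ q : R[X], θ (AdjoinRoot.mk P q) = aeval t (q.map res)) ∧
      (∀ x, θ x ≠ 0 → IsUnit x) ∧ IsDomain (AdjoinRoot P) ∧
      Function.Injective (AdjoinRoot.of P) ∧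
      (c : WithBot ℕ∞) ≤ ringKrullDim (AdjoinRoot P) := by
  classical
  have hntR : Nontrivial R := RingHom.domain_nontrivial res
  have hroot : P.eval₂ ((algebraMap F F').comp res) t = 0 := by
    have h1 : aeval t (minpoly F t) = 0 := minpoly.aeval F t
    rw [← hPm, aeval_def, eval₂_map] at h1
    exact h1
  let θ : AdjoinRoot P →+* F' := AdjoinRoot.lift ((algebraMap F F').comp res) t hroot
  have hθmk : ∀ q : R[X], θ (AdjoinRoot.mk P q) = aeval t (q.map res) := by
    intro q
    rw [AdjoinRoot.lift_mk, aeval_def, eval₂_map]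
  have hθs : Function.Surjective θ := by
    intro z
    obtain ⟨q, rfl⟩ := hgen z
    obtain ⟨q', rfl⟩ := map_surjective res hs q
    exact ⟨AdjoinRoot.mk P q', hθmk q'⟩
  have hker : RingHom.ker θ = Ideal.map (AdjoinRoot.of P) (RingHom.ker res) := by
    apply le_antisymm
    · intro x hx
      obtain ⟨q, rfl⟩ := AdjoinRoot.mk_surjective x
      have e : AdjoinRoot.mk P q = AdjoinRoot.mk P (q %ₘ P) := by
        rw [AdjoinRoot.mk_eq_mk]
        refine ⟨q /ₘ P, ?_⟩
        rw [sub_eq_iff_eq_add, add_comm]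
        exact (modByMonic_add_div q P).symm
      rw [e] at hx ⊢
      rw [RingHom.mem_ker, hθmk] at hx
      have hdvd : minpoly F t ∣ (q %ₘ P).map res := minpoly.dvd F t hx
      have h0 : (q %ₘ P).map res = 0 := by
        by_contra hne
        have h1 := degree_le_of_dvd hdvd hne
        have h2 : ((q %ₘ P).map res).degree < (minpoly F t).degree :=
          calc ((q %ₘ P).map res).degree ≤ (q %ₘ P).degree := degree_map_le
            _ < P.degree := degree_modByMonic_lt q hP
            _ = (P.map res).degree := (hP.degree_map res).symm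
            _ = _ := by rw [hPm]
        exact absurd h1 (not_le.2 h2)
      rw [(q %ₘ P).as_sum_range_C_mul_X_pow, map_sum]
      refine Ideal.sum_mem _ fun i _ => ?_
      rw [map_mul]
      refine Ideal.mul_mem_right _ _ ?_
      refine Ideal.mem_map_of_mem (AdjoinRoot.of P) ?_
      rw [RingHom.mem_ker, ← coeff_map, h0, coeff_zero]
    · rw [Ideal.map_le_iff_le_comap]
      intro x hx
      rw [Ideal.mem_comap, RingHom.mem_ker, AdjoinRoot.lift_of, RingHom.comp_apply,
        (RingHom.mem_ker).1 hx, map_zero]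
  have hmax : (RingHom.ker θ).IsMaximal := RingHom.ker_isMaximal_of_surjective θ hθs
  have hmaxR : (RingHom.ker res).IsMaximal := RingHom.ker_isMaximal_of_surjective res hs
  have huniq : ∀ 𝔫 : Ideal R, 𝔫.IsMaximal → 𝔫 = RingHom.ker res := by
    intro 𝔫 h𝔫
    refine h𝔫.eq_of_le hmaxR.ne_top ?_
    intro x hx
    by_contra h
    exact h𝔫.ne_top (Ideal.eq_top_of_isUnit_mem _ hx (hunit x h))
  have hfin : Module.Finite R (AdjoinRoot P) := hP.finite_adjoinRoot
  have hfree : Module.Free R (AdjoinRoot P) := hP.free_adjoinRoot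
  have hint : Algebra.IsIntegral R (AdjoinRoot P) := inferInstance
  have hnt : Nontrivial (AdjoinRoot P) := RingHom.domain_nontrivial θ
  have hnoeth : IsNoetherianRing (AdjoinRoot P) :=
    isNoetherianRing_of_surjective R[X] _ (AdjoinRoot.mk P) AdjoinRoot.mk_surjective
  have hinj : Function.Injective (AdjoinRoot.of P) :=
    FaithfulSMul.algebraMap_injective R (AdjoinRoot P)
  have hloc : IsLocalRing (AdjoinRoot P) := by
    refine IsLocalRing.of_unique_max_ideal ⟨RingHom.ker θ, hmax, fun 𝔫 h𝔫 => ?_⟩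
    have h1 := Ideal.isMaximal_comap_of_isIntegral_of_isMaximal (R := R) 𝔫
    have h2 := huniq _ h1
    have h3 : RingHom.ker θ ≤ 𝔫 := by
      rw [hker, Ideal.map_le_iff_le_comap, ← h2]
      exact le_rfl
    exact (hmax.eq_of_le h𝔫.ne_top h3).symm
  have hmθ : maximalIdeal (AdjoinRoot P) = RingHom.ker θ := (eq_maximalIdeal hmax).symm
  have hlow : (c : WithBot ℕ∞) ≤ ringKrullDim (AdjoinRoot P) := by
    have hlo : (RingHom.ker θ).LiesOver (RingHom.ker res) := by
      constructor
      symm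
      refine huniq _ ?_
      exact Ideal.isMaximal_comap_of_isIntegral_of_isMaximal (R := R) _
    have hprR : (RingHom.ker res).IsPrime := hmaxR.isPrime
    have hpr : (RingHom.ker θ).IsPrime := hmax.isPrime
    have hlocR : IsLocalRing R := IsLocalRing.of_unique_max_ideal ⟨_, hmaxR, huniq⟩
    have h1 := Ideal.height_eq_height_add_of_liesOver_of_hasGoingDown
      (RingHom.ker res) (RingHom.ker θ)
    have h2 : ((RingHom.ker res).height : WithBot ℕ∞) = ringKrullDim R := by
      rw [eq_maximalIdeal hmaxR]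
      exact maximalIdeal_height_eq_ringKrullDim
    have h3 : ((RingHom.ker θ).height : WithBot ℕ∞) = ringKrullDim (AdjoinRoot P) := by
      rw [← hmθ]
      exact maximalIdeal_height_eq_ringKrullDim
    rw [← h3]
    refine (hdim.trans h2.symm.le).trans ?_
    rw [h1]
    exact_mod_cast le_self_add
  have hspan : (maximalIdeal (AdjoinRoot P)).spanFinrank ≤ c := by
    rw [hmθ, hker, hf, Ideal.map_span, ← Set.range_comp]
    refine (Submodule.spanFinrank_span_le_ncard_of_finite (Set.finite_range _)).trans ?_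
    rw [← Set.image_univ]
    refine (Set.ncard_image_le Set.finite_univ).trans ?_
    rw [Set.ncard_univ, Nat.card_eq_fintype_card, Fintype.card_fin]
  have hreg : IsRegularLocalRing (AdjoinRoot P) := by
    refine IsRegularLocalRing.of_spanFinrank_maximalIdeal_le _ (le_trans ?_ hlow)
    exact_mod_cast hspan
  refine ⟨θ, hθs, hθmk, ?_, Pool.Agent.H918R2.Quad.regular_isDomain _, hinj, hlow⟩
  intro x hx
  by_contra h
  have h1 : x ∈ maximalIdeal (AdjoinRoot P) := (mem_maximalIdeal x).2 h
  rw [hmθ] at h1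
  exact hx h1

/-- The extension of the local ring at a point of `X` to a point of `X ⊗ l`. -/
theorem exists_ext {K F F' : Type u} [Field K] [Field F] [Field F'] [Algebra F F']
    {R : Subring K} {res : R →+* F} (hR : Rl res) (hs : Function.Surjective res)
    (hRn : IsNoetherianRing R)
    (hK : ∀ z : K, ∃ a ∈ R, ∃ b ∈ R, b ≠ 0 ∧ z = a / b)
    {c : ℕ} (f : Fin c → K) (hfR : ∀ i, f i ∈ R) (hf0 : ∀ i, ev res (f i) = 0)
    (hf : ∀ x ∈ R, ev res x = 0 → ∃ g : Fin c → K, (∀ i, g i ∈ R) ∧ x = ∑ i, g i * f i)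
    (hdim : (c : WithBot ℕ∞) ≤ ringKrullDim R)
    (t : F') (hgen : ∀ z : F', ∃ q : F[X], z = aeval t q)
    (P : R[X]) (hP : P.Monic) (hPm : P.map res = minpoly F t) :
    ∃ (K' : Type u) (_ : Field K') (_ : Algebra K K') (R' : Subring K') (res' : R' →+* F')
      (ϖ : K'), Rl res' ∧ Function.Surjective res' ∧ (c : WithBot ℕ∞) ≤ ringKrullDim R' ∧
        (∀ x ∈ R, algebraMap K K' x ∈ R' ∧
          ev res' (algebraMap K K' x) = algebraMap F F' (ev res x)) ∧
        ϖ ∈ R' ∧ ev res' ϖ = t ∧ P.eval₂ ((algebraMap K K').comp R.subtype) ϖ = 0 ∧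
        (∀ z ∈ R', ∃ q : R[X], z = q.eval₂ ((algebraMap K K').comp R.subtype) ϖ) ∧
        ∀ z : K', ∃ a ∈ R', ∃ b ∈ R', b ≠ 0 ∧ z = a / b := by
  classical
  have hker : RingHom.ker res = Ideal.span (Set.range fun i => (⟨f i, hfR i⟩ : R)) := by
    apply le_antisymm
    · rintro ⟨x, hx⟩ hx0
      rw [RingHom.mem_ker] at hx0
      obtain ⟨g, hg, hgx⟩ := hf x hx (by rw [ev_of res hx]; exact hx0)
      rw [Ideal.span, Submodule.mem_span_range_iff_exists_fun]
      refine ⟨fun i => ⟨g i, hg i⟩, Subtype.ext ?_⟩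
      push_cast [smul_eq_mul]
      exact hgx.symm
    · rw [Ideal.span_le]
      rintro _ ⟨i, rfl⟩
      rw [SetLike.mem_coe, RingHom.mem_ker, ← ev_of res (hfR i)]
      exact hf0 i
  obtain ⟨θ, hθs, hθmk, hθu, hdom, hinj, hlow⟩ := ext_alg res hs (fun x hx =>
    IsUnit.of_mul_eq_one (⟨(x : K)⁻¹, hR x hx⟩ : R) (Subtype.ext (mul_inv_cancel₀ (by
      intro h
      apply hx
      have : x = 0 := Subtype.ext h
      rw [this, map_zero])))) _ hker hdim t hgen P hP hPm
  have hfrac : IsFractionRing R K := by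
    constructor
    constructor
    · rintro ⟨y, hy⟩
      have hy0 : (y : K) ≠ 0 := fun h => nonZeroDivisors.ne_zero hy (Subtype.ext h)
      exact IsUnit.mk0 _ hy0
    · intro z
      obtain ⟨a, ha, b, hb, hb0, rfl⟩ := hK z
      refine ⟨(⟨a, ha⟩, ⟨⟨b, hb⟩, mem_nonZeroDivisors_of_ne_zero fun h =>
        hb0 (congrArg Subtype.val h)⟩), ?_⟩
      exact div_mul_cancel₀ _ hb0
    · intro y z hyz
      exact ⟨1, by rw [Subtype.ext (hyz : (y : K) = z)]⟩
  let K' := FractionRing (AdjoinRoot P)
  have hinj' : Function.Injective (algebraMap (AdjoinRoot P) K') := IsFractionRing.injective _ _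
  let γ : R →+* K' := (algebraMap (AdjoinRoot P) K').comp (AdjoinRoot.of P)
  have hγ : Function.Injective γ := hinj'.comp hinj
  letI algK : Algebra K K' := (IsFractionRing.lift hγ : K →+* K').toAlgebra
  have hmapR : ∀ x : R, algebraMap K K' x = γ x := fun x => IsFractionRing.lift_algebraMap hγ x
  have hcomp : (algebraMap K K').comp R.subtype = γ := RingHom.ext fun x => hmapR x
  let R' : Subring K' := (algebraMap (AdjoinRoot P) K').range
  let ρ : AdjoinRoot P →+* R' := (algebraMap (AdjoinRoot P) K').rangeRestrict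
  have hρ : Function.Bijective ρ := ⟨fun x y h => hinj' (congrArg Subtype.val h),
    (algebraMap (AdjoinRoot P) K').rangeRestrict_surjective⟩
  let e : AdjoinRoot P ≃+* R' := RingEquiv.ofBijective ρ hρ
  let res' : R' →+* F' := θ.comp e.symm.toRingHom
  have hmem : ∀ x, algebraMap (AdjoinRoot P) K' x ∈ R' := fun x => ⟨x, rfl⟩
  have hres' : ∀ x, ev res' (algebraMap (AdjoinRoot P) K' x) = θ x := by
    intro x
    rw [ev_of res' (hmem x)]
    have h1 : (⟨algebraMap (AdjoinRoot P) K' x, hmem x⟩ : R') = e x := Subtype.ext rfl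
    rw [h1]
    change θ (e.symm (e x)) = θ x
    rw [RingEquiv.symm_apply_apply]
  have heval : ∀ q : R[X], algebraMap (AdjoinRoot P) K' (AdjoinRoot.mk P q) =
      q.eval₂ ((algebraMap K K').comp R.subtype)
        (algebraMap (AdjoinRoot P) K' (AdjoinRoot.root P)) := by
    intro q
    rw [hcomp, ← AdjoinRoot.aeval_eq, aeval_def, hom_eval₂]
    rfl
  refine ⟨K', inferInstance, algK, R', res', algebraMap (AdjoinRoot P) K' (AdjoinRoot.root P),
    ?_, ?_, ?_, ?_, hmem _, ?_, ?_, ?_, ?_⟩
  · rintro ⟨_, x, rfl⟩ hx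
    have h1 : θ x ≠ 0 := by
      rw [← hres', ev_of res' (hmem x)]
      exact hx
    obtain ⟨y, hy⟩ := (hθu x h1).exists_right_inv
    have h2 : algebraMap (AdjoinRoot P) K' x * algebraMap (AdjoinRoot P) K' y = 1 := by
      rw [← map_mul, hy, map_one]
    have h3 : (algebraMap (AdjoinRoot P) K' x)⁻¹ = algebraMap (AdjoinRoot P) K' y :=
      (eq_inv_of_mul_eq_one_right h2).symm
    change (algebraMap (AdjoinRoot P) K' x)⁻¹ ∈ R'
    rw [h3]
    exact hmem y
  · intro z
    obtain ⟨x, rfl⟩ := hθs z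
    refine ⟨⟨_, hmem x⟩, ?_⟩
    rw [← ev_of res' (hmem x)]
    exact hres' x
  · rw [← ringKrullDim_eq_of_ringEquiv e]
    exact hlow
  · intro x hx
    have h1 : algebraMap K K' x = algebraMap (AdjoinRoot P) K' (AdjoinRoot.of P ⟨x, hx⟩) :=
      hmapR ⟨x, hx⟩
    refine ⟨by rw [h1]; exact hmem _, ?_⟩
    rw [h1, hres']
    have h2 := hθmk (C ⟨x, hx⟩)
    rw [map_C, aeval_C, ← ev_of res hx] at h2
    exact h2
  · rw [hres']
    have h2 := hθmk X
    rw [map_X, aeval_X] at h2
    exact h2
  · rw [← heval, AdjoinRoot.mk_self, map_zero]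
  · rintro _ ⟨x, rfl⟩
    obtain ⟨q, rfl⟩ := AdjoinRoot.mk_surjective x
    exact ⟨q, heval q⟩
  · intro z
    obtain ⟨a, b, hb, rfl⟩ := IsFractionRing.div_surjective (A := AdjoinRoot P) z
    exact ⟨_, hmem a, _, hmem b, by
      rw [Ne, map_eq_zero_iff _ hinj']
      exact nonZeroDivisors.ne_zero hb, rfl⟩

end Pool.Agent.V5helper88.SP
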