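import Pool.Agent.V5helper88.SP.Pl
import Pool.Agent.H918R2.Quad.Reg1

/-!
Étale base change of the local ring of a point, general case.
-/

set_option autoImplicit false

open IsLocalRing Polynomial

universe u

namespace Pool.Agent.V5helper88.SP

/-- An étale extension of a regular local ring, localized at a point with the residue field
`F' = F(t)`. -/
theorem ext_alg2 {R F F' : Type u} [CommRing R] [IsDomain R] [Field F] [Field F'] [Algebra F F']
    [IsNoetherianRing R] (res : R →+* F) (hs : Function.Surjective res)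
    (hunit : ∀ x : R, res x ≠ 0 → IsUnit x) {c : ℕ} (f : Fin c → R)
    (hf : RingHom.ker res = Ideal.span (Set.range f))
    (hdim : (c : WithBot ℕ∞) ≤ ringKrullDim R)
    (t : F') (ht : IsIntegral F t) (hgen : ∀ z : F', ∃ q : F[X], z = aeval t q)
    (P : R[X]) (hP : P.Monic) (P₂ : F[X]) (hPm : P.map res = minpoly F t * P₂)
    (hP₂ : aeval t P₂ ≠ 0) :
    ∃ θ : AdjoinRoot P →+* F', Function.Surjective θ ∧
      (∀ q : R[X], θ (AdjoinRoot.mk P q) = aeval t (q.map res)) ∧
      ∃ (_ : (RingHom.ker θ).IsPrime),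
      IsDomain (Localization.AtPrime (RingHom.ker θ)) ∧
      Function.Injective ((algebraMap (AdjoinRoot P) (Localization.AtPrime (RingHom.ker θ))).comp
        (AdjoinRoot.of P)) ∧
      (c : WithBot ℕ∞) ≤ ringKrullDim (Localization.AtPrime (RingHom.ker θ)) := by
  classical
  have hntR : Nontrivial R := RingHom.domain_nontrivial res
  have hroot : P.eval₂ ((algebraMap F F').comp res) t = 0 := by
    rw [← eval₂_map, hPm, eval₂_mul]
    have h1 : aeval t (minpoly F t) = 0 := minpoly.aeval F t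
    rw [aeval_def] at h1
    rw [h1, zero_mul]
  let θ : AdjoinRoot P →+* F' := AdjoinRoot.lift ((algebraMap F F').comp res) t hroot
  have hθmk : ∀ q : R[X], θ (AdjoinRoot.mk P q) = aeval t (q.map res) := by
    intro q
    rw [AdjoinRoot.lift_mk, aeval_def, eval₂_map]
  have hθs : Function.Surjective θ := by
    intro z
    obtain ⟨q, rfl⟩ := hgen z
    obtain ⟨q', rfl⟩ := map_surjective res hs q
    exact ⟨AdjoinRoot.mk P q', hθmk q'⟩
  have hlifts : ∀ q : F[X], q ∈ lifts res := fun q => by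
    obtain ⟨q', hq'⟩ := map_surjective res hs q
    exact ⟨q', hq'⟩
  obtain ⟨M, hM, -, hMm⟩ := lifts_and_degree_eq_and_monic (hlifts (minpoly F t))
    (minpoly.monic ht)
  obtain ⟨N, hN⟩ := map_surjective res hs P₂
  have hmax : (RingHom.ker θ).IsMaximal := RingHom.ker_isMaximal_of_surjective θ hθs
  have hprime : (RingHom.ker θ).IsPrime := hmax.isPrime
  have hmaxR : (RingHom.ker res).IsMaximal := RingHom.ker_isMaximal_of_surjective res hs
  -- polynomials with coefficients in the maximal ideal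
  have hco : ∀ q : R[X], q.map res = 0 →
      AdjoinRoot.mk P q ∈ Ideal.map (AdjoinRoot.of P) (RingHom.ker res) := by
    intro q hq
    rw [q.as_sum_range_C_mul_X_pow, map_sum]
    refine Ideal.sum_mem _ fun i _ => ?_
    rw [map_mul]
    refine Ideal.mul_mem_right _ _ ?_
    refine Ideal.mem_map_of_mem (AdjoinRoot.of P) ?_
    rw [RingHom.mem_ker, ← coeff_map, hq, coeff_zero]
  have hker : ∀ x ∈ RingHom.ker θ, ∃ y, ∃ z ∈ Ideal.map (AdjoinRoot.of P) (RingHom.ker res),
      x = AdjoinRoot.mk P M * y + z := by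
    intro x hx
    obtain ⟨q, rfl⟩ := AdjoinRoot.mk_surjective x
    rw [RingHom.mem_ker, hθmk] at hx
    have hdvd : minpoly F t ∣ q.map res := minpoly.dvd F t hx
    have h0 : (q %ₘ M).map res = 0 := by
      rw [map_modByMonic res hMm, hM]
      exact (modByMonic_eq_zero_iff_dvd (minpoly.monic ht)).2 hdvd
    refine ⟨AdjoinRoot.mk P (q /ₘ M), _, hco _ h0, ?_⟩
    rw [← map_mul, ← map_add, add_comm, modByMonic_add_div q M]
  have hMN : AdjoinRoot.mk P M * AdjoinRoot.mk P N ∈
      Ideal.map (AdjoinRoot.of P) (RingHom.ker res) := by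
    have h1 : AdjoinRoot.mk P M * AdjoinRoot.mk P N = AdjoinRoot.mk P (M * N - P) := by
      rw [map_sub, AdjoinRoot.mk_self, sub_zero, map_mul]
    rw [h1]
    refine hco _ ?_
    rw [Polynomial.map_sub, Polynomial.map_mul, hM, hN, hPm, sub_self]
  have hNθ : AdjoinRoot.mk P N ∈ (RingHom.ker θ).primeCompl := by
    intro h
    have h1 := (RingHom.mem_ker (f := θ)).1 h
    rw [hθmk, hN] at h1
    exact hP₂ h1
  have hfree : Module.Free R (AdjoinRoot P) := hP.free_adjoinRoot
  have hfin : Module.Finite R (AdjoinRoot P) := hP.finite_adjoinRoot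
  have hint : Algebra.IsIntegral R (AdjoinRoot P) := inferInstance
  have hnoeth : IsNoetherianRing (AdjoinRoot P) :=
    isNoetherianRing_of_surjective R[X] _ (AdjoinRoot.mk P) AdjoinRoot.mk_surjective
  have hnt : Nontrivial (AdjoinRoot P) := RingHom.domain_nontrivial θ
  have hinj : Function.Injective (AdjoinRoot.of P) :=
    FaithfulSMul.algebraMap_injective R (AdjoinRoot P)
  let D := Localization.AtPrime (RingHom.ker θ)
  have hDn : IsNoetherianRing D := IsLocalization.isNoetherianRing
    (RingHom.ker θ).primeCompl D hnoeth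
  let α : AdjoinRoot P →+* D := algebraMap (AdjoinRoot P) D
  -- the maximal ideal
  have hmD : maximalIdeal D = Ideal.span (Set.range fun i => α (AdjoinRoot.of P (f i))) := by
    have h1 : Ideal.map (α.comp (AdjoinRoot.of P)) (RingHom.ker res) =
        Ideal.span (Set.range fun i => α (AdjoinRoot.of P (f i))) := by
      rw [hf, Ideal.map_span, ← Set.range_comp]
      rfl
    rw [← h1, ← IsLocalization.AtPrime.map_eq_maximalIdeal (RingHom.ker θ) D]
    apply le_antisymm
    · rw [Ideal.map_le_iff_le_comap]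
      intro x hx
      obtain ⟨y, z, hz, rfl⟩ := hker x hx
      rw [Ideal.mem_comap, map_add, map_mul]
      have hz' : α z ∈ Ideal.map (α.comp (AdjoinRoot.of P)) (RingHom.ker res) := by
        rw [← Ideal.map_map]
        exact Ideal.mem_map_of_mem α hz
      refine add_mem (Ideal.mul_mem_right _ _ ?_) hz'
      have h2 : α (AdjoinRoot.mk P M * AdjoinRoot.mk P N) ∈
          Ideal.map (α.comp (AdjoinRoot.of P)) (RingHom.ker res) := by
        rw [← Ideal.map_map]
        exact Ideal.mem_map_of_mem α hMN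
      rw [map_mul] at h2
      have h3 : IsUnit (α (AdjoinRoot.mk P N)) :=
        IsLocalization.map_units D (⟨_, hNθ⟩ : (RingHom.ker θ).primeCompl)
      exact (Ideal.mul_unit_mem_iff_mem _ h3).1 h2
    · rw [← Ideal.map_map]
      refine Ideal.map_mono ?_
      rw [Ideal.map_le_iff_le_comap]
      intro x hx
      rw [Ideal.mem_comap, RingHom.mem_ker, AdjoinRoot.lift_of, RingHom.comp_apply,
        (RingHom.mem_ker).1 hx, map_zero]
  -- the dimension
  have huniq : ∀ 𝔫 : Ideal R, 𝔫.IsMaximal → 𝔫 = RingHom.ker res := by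
    intro 𝔫 h𝔫
    refine h𝔫.eq_of_le hmaxR.ne_top ?_
    intro x hx
    by_contra h
    exact h𝔫.ne_top (Ideal.eq_top_of_isUnit_mem _ hx (hunit x h))
  have hlow : (c : WithBot ℕ∞) ≤ ringKrullDim D := by
    have hlo : (RingHom.ker θ).LiesOver (RingHom.ker res) := by
      constructor
      symm
      refine huniq _ ?_
      exact Ideal.isMaximal_comap_of_isIntegral_of_isMaximal (R := R) _
    have hprR : (RingHom.ker res).IsPrime := hmaxR.isPrime
    have hlocR : IsLocalRing R := IsLocalRing.of_unique_max_ideal ⟨_, hmaxR, huniq⟩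
    have h1 := Ideal.height_eq_height_add_of_liesOver_of_hasGoingDown
      (RingHom.ker res) (RingHom.ker θ)
    have h2 : ((RingHom.ker res).height : WithBot ℕ∞) = ringKrullDim R := by
      rw [eq_maximalIdeal hmaxR]
      exact maximalIdeal_height_eq_ringKrullDim
    have h3 : ringKrullDim D = (RingHom.ker θ).height :=
      IsLocalization.AtPrime.ringKrullDim_eq_height (RingHom.ker θ) D
    rw [h3]
    refine (hdim.trans h2.symm.le).trans ?_
    rw [h1]
    exact_mod_cast le_self_add
  have hspan : (maximalIdeal D).spanFinrank ≤ c := by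
    rw [hmD]
    refine (Submodule.spanFinrank_span_le_ncard_of_finite (Set.finite_range _)).trans ?_
    rw [← Set.image_univ]
    refine (Set.ncard_image_le Set.finite_univ).trans ?_
    rw [Set.ncard_univ, Nat.card_eq_fintype_card, Fintype.card_fin]
  have hreg : IsRegularLocalRing D := by
    refine IsRegularLocalRing.of_spanFinrank_maximalIdeal_le _ (le_trans ?_ hlow)
    exact_mod_cast hspan
  refine ⟨θ, hθs, hθmk, hprime, Pool.Agent.H918R2.Quad.regular_isDomain _, ?_, hlow⟩
  rw [injective_iff_map_eq_zero]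
  intro a ha
  rw [RingHom.comp_apply, ← map_zero (algebraMap (AdjoinRoot P) _),
    IsLocalization.eq_iff_exists (RingHom.ker θ).primeCompl] at ha
  obtain ⟨⟨s, hs'⟩, hsa⟩ := ha
  rw [mul_zero] at hsa
  change s * AdjoinRoot.of P a = 0 at hsa
  have h1 : a • s = 0 := by
    rw [Algebra.smul_def, mul_comm]
    exact hsa
  rcases smul_eq_zero.1 h1 with h | h
  · exact h
  · exact absurd (by rw [h]; exact zero_mem _) hs'

/-- The extension of the local ring at a point of `X` to a point of `X ⊗ l`. -/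
theorem exists_ext2 {K F F' : Type u} [Field K] [Field F] [Field F'] [Algebra F F']
    {R : Subring K} {res : R →+* F} (hR : Rl res) (hs : Function.Surjective res)
    (hRn : IsNoetherianRing R)
    (hK : ∀ z : K, ∃ a ∈ R, ∃ b ∈ R, b ≠ 0 ∧ z = a / b)
    {c : ℕ} (f : Fin c → K) (hfR : ∀ i, f i ∈ R) (hf0 : ∀ i, ev res (f i) = 0)
    (hf : ∀ x ∈ R, ev res x = 0 → ∃ g : Fin c → K, (∀ i, g i ∈ R) ∧ x = ∑ i, g i * f i)
    (hdim : (c : WithBot ℕ∞) ≤ ringKrullDim R)
    (t : F') (ht : IsIntegral F t) (hgen : ∀ z : F', ∃ q : F[X], z = aeval t q)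
    (P : R[X]) (hP : P.Monic) (P₂ : F[X]) (hPm : P.map res = minpoly F t * P₂)
    (hP₂ : aeval t P₂ ≠ 0) :
    ∃ (K' : Type u) (_ : Field K') (_ : Algebra K K') (R' : Subring K') (res' : R' →+* F')
      (ϖ : K'), Rl res' ∧ Function.Surjective res' ∧ (c : WithBot ℕ∞) ≤ ringKrullDim R' ∧
        (∀ x ∈ R, algebraMap K K' x ∈ R' ∧
          ev res' (algebraMap K K' x) = algebraMap F F' (ev res x)) ∧
        ϖ ∈ R' ∧ ev res' ϖ = t ∧ P.eval₂ ((algebraMap K K').comp R.subtype) ϖ = 0 ∧
        (∀ z ∈ R', ∃ q s : R[X], ev res' (s.eval₂ ((algebraMap K K').comp R.subtype) ϖ) ≠ 0 ∧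
          z = q.eval₂ ((algebraMap K K').comp R.subtype) ϖ /
            s.eval₂ ((algebraMap K K').comp R.subtype) ϖ) ∧
        ∀ z : K', ∃ a ∈ R', ∃ b ∈ R', b ≠ 0 ∧ z = a / b := by
  classical
  have hker : RingHom.ker res = Ideal.span (Set.range fun i => (⟨f i, hfR i⟩ : R)) := by
    apply le_antisymm
    · rintro ⟨x, hx⟩ hx0
      rw [RingHom.mem_ker] at hx0
      obtain ⟨g, hg, hgx⟩ := hf x hx (by rw [ev_of res hx]; exact hx0)
      rw [Ideal.span, Submodule.mem_span_range_iff_exists_fun]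
      refine ⟨fun i => ⟨g i, hg i⟩, Subtype.ext ?_⟩
      push_cast [smul_eq_mul]
      exact hgx.symm
    · rw [Ideal.span_le]
      rintro _ ⟨i, rfl⟩
      rw [SetLike.mem_coe, RingHom.mem_ker, ← ev_of res (hfR i)]
      exact hf0 i
  obtain ⟨θ, hθs, hθmk, hprime, hdom, hinj, hlow⟩ := ext_alg2 res hs (fun x hx =>
    IsUnit.of_mul_eq_one (⟨(x : K)⁻¹, hR x hx⟩ : R) (Subtype.ext (mul_inv_cancel₀ (by
      intro h
      apply hx
      have : x = 0 := Subtype.ext h
      rw [this, map_zero])))) _ hker hdim t ht hgen P hP P₂ hPm hP₂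
  have hfrac : IsFractionRing R K := by
    constructor
    constructor
    · rintro ⟨y, hy⟩
      have hy0 : (y : K) ≠ 0 := fun h => nonZeroDivisors.ne_zero hy (Subtype.ext h)
      exact IsUnit.mk0 _ hy0
    · intro z
      obtain ⟨a, ha, b, hb, hb0, rfl⟩ := hK z
      refine ⟨(⟨a, ha⟩, ⟨⟨b, hb⟩, mem_nonZeroDivisors_of_ne_zero fun h =>
        hb0 (congrArg Subtype.val h)⟩), ?_⟩
      exact div_mul_cancel₀ _ hb0
    · intro y z hyz
      exact ⟨1, by rw [Subtype.ext (hyz : (y : K) = z)]⟩
  let D := Localization.AtPrime (RingHom.ker θ)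
  let K' := FractionRing D
  let β : AdjoinRoot P →+* K' := (algebraMap D K').comp (algebraMap (AdjoinRoot P) D)
  have hinjD : Function.Injective (algebraMap D K') := IsFractionRing.injective _ _
  let γ : R →+* K' := β.comp (AdjoinRoot.of P)
  have hγ : Function.Injective γ := hinjD.comp hinj
  letI algK : Algebra K K' := (IsFractionRing.lift hγ : K →+* K').toAlgebra
  have hmapR : ∀ x : R, algebraMap K K' x = γ x := fun x => IsFractionRing.lift_algebraMap hγ x
  have hcomp : (algebraMap K K').comp R.subtype = γ := RingHom.ext fun x => hmapR x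
  -- the residue map
  let θD : D →+* F' := IsLocalization.lift (M := (RingHom.ker θ).primeCompl) (g := θ)
    fun y => (IsUnit.mk0 _ fun h => y.2 ((RingHom.mem_ker (f := θ)).2 h))
  have hθD : ∀ x, θD (algebraMap (AdjoinRoot P) D x) = θ x := fun x =>
    IsLocalization.lift_eq _ x
  let R' : Subring K' := (algebraMap D K').range
  let ρ : D →+* R' := (algebraMap D K').rangeRestrict
  have hρ : Function.Bijective ρ := ⟨fun x y h => hinjD (congrArg Subtype.val h),
    (algebraMap D K').rangeRestrict_surjective⟩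
  let e : D ≃+* R' := RingEquiv.ofBijective ρ hρ
  let res' : R' →+* F' := θD.comp e.symm.toRingHom
  have hmem : ∀ x, algebraMap D K' x ∈ R' := fun x => ⟨x, rfl⟩
  have hres' : ∀ x, ev res' (algebraMap D K' x) = θD x := by
    intro x
    rw [ev_of res' (hmem x)]
    have h1 : (⟨algebraMap D K' x, hmem x⟩ : R') = e x := Subtype.ext rfl
    rw [h1]
    change θD (e.symm (e x)) = θD x
    rw [RingEquiv.symm_apply_apply]
  have hβ : ∀ x, β x ∈ R' ∧ ev res' (β x) = θ x := fun x => ⟨hmem _, (hres' _).trans (hθD x)⟩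
  have heval : ∀ q : R[X], β (AdjoinRoot.mk P q) =
      q.eval₂ ((algebraMap K K').comp R.subtype) (β (AdjoinRoot.root P)) := by
    intro q
    rw [hcomp, ← AdjoinRoot.aeval_eq, aeval_def, hom_eval₂]
    rfl
  refine ⟨K', inferInstance, algK, R', res', β (AdjoinRoot.root P),
    ?_, ?_, ?_, ?_, (hβ _).1, ?_, ?_, ?_, ?_⟩
  · rintro ⟨_, x, rfl⟩ hx
    have h1 : θD x ≠ 0 := by
      rw [← hres', ev_of res' (hmem x)]
      exact hx
    have hu : IsUnit x := by
      by_contra hn
      obtain ⟨a, s, rfl⟩ := IsLocalization.exists_mk'_eq (RingHom.ker θ).primeCompl x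
      apply h1
      have h2 : a ∈ RingHom.ker θ := by
        by_contra ha
        exact hn ((IsLocalization.AtPrime.isUnit_mk'_iff D (RingHom.ker θ) a s).2 ha)
      rw [IsLocalization.lift_mk', (RingHom.mem_ker (f := θ)).1 h2, zero_mul]
    obtain ⟨y, hy⟩ := hu.exists_right_inv
    have h2 : algebraMap D K' x * algebraMap D K' y = 1 := by
      rw [← map_mul, hy, map_one]
    have h3 : (algebraMap D K' x)⁻¹ = algebraMap D K' y :=
      (eq_inv_of_mul_eq_one_right h2).symm
    change (algebraMap D K' x)⁻¹ ∈ R'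
    rw [h3]
    exact hmem y
  · intro z
    obtain ⟨x, rfl⟩ := hθs z
    refine ⟨⟨_, (hβ x).1⟩, ?_⟩
    rw [← ev_of res' (hβ x).1]
    exact (hβ x).2
  · rw [← ringKrullDim_eq_of_ringEquiv e]
    exact hlow
  · intro x hx
    have h1 : algebraMap K K' x = β (AdjoinRoot.of P ⟨x, hx⟩) := hmapR ⟨x, hx⟩
    refine ⟨by rw [h1]; exact (hβ _).1, ?_⟩
    rw [h1, (hβ _).2]
    have h2 := hθmk (C ⟨x, hx⟩)
    rw [map_C, aeval_C, ← ev_of res hx] at h2
    exact h2
  · rw [(hβ _).2]
    have h2 := hθmk X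
    rw [map_X, aeval_X] at h2
    exact h2
  · rw [← heval, AdjoinRoot.mk_self, map_zero]
  · rintro _ ⟨x, rfl⟩
    obtain ⟨a, s, rfl⟩ := IsLocalization.exists_mk'_eq (RingHom.ker θ).primeCompl x
    obtain ⟨q, rfl⟩ := AdjoinRoot.mk_surjective a
    obtain ⟨s, hs'⟩ := s
    obtain ⟨q', rfl⟩ := AdjoinRoot.mk_surjective s
    have hq' : ev res' (β (AdjoinRoot.mk P q')) ≠ 0 := by
      rw [(hβ _).2]
      exact fun h => hs' ((RingHom.mem_ker (f := θ)).2 h)
    refine ⟨q, q', ?_, ?_⟩
    · rw [← heval]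
      exact hq'
    · rw [← heval, ← heval, eq_div_iff (ne_of_ev res' hq')]
      change algebraMap D K' _ * algebraMap D K' _ = algebraMap D K' _
      rw [← map_mul]
      congr 1
      exact IsLocalization.mk'_spec D (AdjoinRoot.mk P q) ⟨_, hs'⟩
  · intro z
    obtain ⟨a, b, hb, rfl⟩ := IsFractionRing.div_surjective (A := D) z
    exact ⟨_, hmem a, _, hmem b, by
      rw [Ne, map_eq_zero_iff _ hinjD]
      exact nonZeroDivisors.ne_zero hb, rfl⟩

end Pool.Agent.V5helper88.SP
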