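import Pool.Agent.V5helper88.SP.Pl

/-!
The base change to `O[ϖ]`: the ideal of the support.
-/

set_option autoImplicit false

open Pool.Agent.W418.LU2 Polynomial

universe u

namespace Pool.Agent.V5helper88.SP

/-- The subring generated by `ϖ` and the image of `O`. -/
def ram {L K' : Type u} [Field L] [Field K'] (φ : L →+* K') (O : Subring L) (ϖ : K') :
    Subring K' :=
  Subring.closure ((O.map φ : Set K') ∪ {ϖ})

section

variable {K F K' F' : Type u} [Field K] [Field F] [Field K'] [Field F'] [Algebra K K']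
  [Algebra F F'] {R : Subring K} {res : R →+* F} {R' : Subring K'} {res' : R' →+* F'}
  {ϖ : K'}

/-- Compatibility of the residue maps. -/
def Compat (res : R →+* F) (res' : R' →+* F') : Prop :=
  ∀ x ∈ R, algebraMap K K' x ∈ R' ∧ ev res' (algebraMap K K' x) = algebraMap F F' (ev res x)

variable (hc : Compat res res') (hϖ : ϖ ∈ R')

include hc hϖ

lemma ev_eval {D : Subring K} (hD : D ≤ R) (q : D[X]) :
    q.eval₂ ((algebraMap K K').comp D.subtype) ϖ ∈ R' ∧
      ev res' (q.eval₂ ((algebraMap K K').comp D.subtype) ϖ) =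
        aeval (ev res' ϖ) (q.map (res.comp (Subring.inclusion hD))) := by
  induction q using Polynomial.induction_on with
  | C a =>
    rw [eval₂_C, map_C, aeval_C]
    obtain ⟨h1, h2⟩ := hc a (hD a.2)
    refine ⟨h1, h2.trans ?_⟩
    rw [ev_of res (hD a.2)]
    rfl
  | add p q hp hq =>
    rw [eval₂_add, Polynomial.map_add, map_add]
    refine ⟨add_mem hp.1 hq.1, ?_⟩
    rw [ev_add res' hp.1 hq.1, hp.2, hq.2]
  | monomial n a h =>
    have e : (C a * X ^ (n + 1) : D[X]) = C a * X ^ n * X := by rw [pow_succ, mul_assoc]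
    rw [e, eval₂_mul, eval₂_X, Polynomial.map_mul, map_mul, map_X, aeval_X]
    refine ⟨mul_mem h.1 hϖ, ?_⟩
    rw [ev_mul res' h.1 hϖ, h.2]

lemma ram_R {O : Subring K} (hO : O ≤ R) : ram (algebraMap K K') O ϖ ≤ R' := by
  unfold ram
  rw [Subring.closure_le]
  rintro z (⟨a, ha, rfl⟩ | hz)
  · exact (hc a (hO ha)).1
  · rw [Set.mem_singleton_iff.1 hz]; exact hϖ

lemma im_ram {O : Subring K} (hO : O ≤ R) :
    im res' (ram (algebraMap K K') O ϖ) = ram (algebraMap F F') (im res O) (ev res' ϖ) := by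
  have hR := ram_R hc hϖ hO
  apply le_antisymm
  · intro z hz
    obtain ⟨b, hb, rfl⟩ := (mem_im hR).1 hz
    clear hz
    unfold ram at hb
    induction hb using Subring.closure_induction with
    | mem x hx =>
      rcases hx with ⟨a, ha, rfl⟩ | hx
      · rw [(hc a (hO ha)).2]
        exact Subring.subset_closure (Or.inl ⟨_, ev_mem_im hO ha, rfl⟩)
      · rw [Set.mem_singleton_iff.1 hx]
        exact Subring.subset_closure (Or.inr rfl)
    | zero => rw [ev_zero]; exact zero_mem _
    | one => rw [ev_one]; exact one_mem _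
    | add x y hx' hy' hx hy => rw [ev_add res' (hR hx') (hR hy')]; exact add_mem hx hy
    | neg x hx' hx => rw [ev_neg res' (hR hx')]; exact neg_mem hx
    | mul x y hx' hy' hx hy => rw [ev_mul res' (hR hx') (hR hy')]; exact mul_mem hx hy
  · conv_lhs => unfold ram
    rw [Subring.closure_le]
    rintro z (⟨a, ha, rfl⟩ | hz)
    · obtain ⟨b, hb, rfl⟩ := (mem_im hO).1 ha
      rw [← (hc b (hO hb)).2]
      exact ev_mem_im hR (Subring.subset_closure (Or.inl ⟨b, hb, rfl⟩))
    · rw [Set.mem_singleton_iff.1 hz]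
      exact ev_mem_im hR (Subring.subset_closure (Or.inr rfl))

omit hc hϖ in
lemma closure_poly (D : Subring K) {x : K'}
    (hx : x ∈ Subring.closure ((D.map (algebraMap K K') : Set K') ∪ {ϖ})) :
    ∃ q : D[X], x = q.eval₂ ((algebraMap K K').comp D.subtype) ϖ := by
  have h1 : Subring.closure ((D.map (algebraMap K K') : Set K') ∪ {ϖ}) ≤
      (eval₂RingHom ((algebraMap K K').comp D.subtype) ϖ).range := by
    rw [Subring.closure_le]
    rintro z (⟨a, ha, rfl⟩ | hz)
    · exact ⟨C ⟨a, ha⟩, by rw [coe_eval₂RingHom, eval₂_C]; rfl⟩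
    · rw [Set.mem_singleton_iff.1 hz]
      exact ⟨X, by rw [coe_eval₂RingHom, eval₂_X]⟩
  obtain ⟨q, hq⟩ := h1 hx
  exact ⟨q, hq.symm⟩

variable {k : Subfield K} (hk : k.toSubring ≤ R) (P : k.toSubring[X]) (hP : P.Monic)
  (hP0 : P.eval₂ ((algebraMap K K').comp k.toSubring.subtype) ϖ = 0)
  (hPm : P.map (res.comp (Subring.inclusion hk)) = minpoly F (ev res' ϖ))

include hP0 hPm hP

/-- Elements of `R'` which are polynomials in `ϖ` over a subring between `k` and `R`. -/
lemma reduce {L : Subring K} (hkL : k.toSubring ≤ L) (hL : L ≤ R) (q : L[X])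
    (h0 : ev res' (q.eval₂ ((algebraMap K K').comp L.subtype) ϖ) = 0) :
    ∃ r : L[X], (∀ i, ev res (r.coeff i) = 0) ∧
      q.eval₂ ((algebraMap K K').comp L.subtype) ϖ =
        r.eval₂ ((algebraMap K K').comp L.subtype) ϖ := by
  set PL : L[X] := P.map (Subring.inclusion hkL) with hPL
  have hPLm : PL.Monic := hP.map _
  have hPL0 : PL.eval₂ ((algebraMap K K').comp L.subtype) ϖ = 0 := by
    rw [hPL, eval₂_map]
    exact hP0
  have hPLF : PL.map (res.comp (Subring.inclusion hL)) = minpoly F (ev res' ϖ) := by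
    rw [hPL, Polynomial.map_map, ← hPm]
    rfl
  have he : q.eval₂ ((algebraMap K K').comp L.subtype) ϖ =
      (q %ₘ PL).eval₂ ((algebraMap K K').comp L.subtype) ϖ := by
    conv_lhs => rw [← modByMonic_add_div q PL]
    rw [eval₂_add, eval₂_mul, hPL0, zero_mul, add_zero]
  refine ⟨q %ₘ PL, fun i => ?_, he⟩
  rw [he, (ev_eval hc hϖ hL _).2] at h0
  set qF := (q %ₘ PL).map (res.comp (Subring.inclusion hL)) with hqF
  have hdvd : minpoly F (ev res' ϖ) ∣ qF := minpoly.dvd F _ h0
  have h1 : qF = 0 := by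
    by_contra hne
    have h1 := degree_le_of_dvd hdvd hne
    have h2 : qF.degree < (minpoly F (ev res' ϖ)).degree :=
      calc qF.degree ≤ (q %ₘ PL).degree := degree_map_le
        _ < PL.degree := by
          haveI : Nontrivial L := inferInstance
          exact degree_modByMonic_lt q hPLm
        _ = (PL.map (res.comp (Subring.inclusion hL))).degree := (hPLm.degree_map _).symm
        _ = _ := by rw [hPLF]
    exact absurd h1 (not_le.2 h2)
  have h2 : qF.coeff i = 0 := by rw [h1, coeff_zero]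
  rw [hqF, coeff_map] at h2
  rw [ev_of res (hL ((q %ₘ PL).coeff i).2)]
  exact h2

/-- `res'` is injective on `k[ϖ]`. -/
lemma inj_k {O : Subring K} (hOk : O ≤ k.toSubring) {x : K'}
    (hx : x ∈ ram (algebraMap K K') O ϖ) (h0 : ev res' x = 0) : x = 0 := by
  have h1 : x ∈ Subring.closure ((k.toSubring.map (algebraMap K K') : Set K') ∪ {ϖ}) := by
    refine Subring.closure_mono (Set.union_subset_union_left _ ?_) hx
    rintro _ ⟨a, ha, rfl⟩
    exact ⟨a, hOk ha, rfl⟩
  obtain ⟨q, rfl⟩ := closure_poly k.toSubring h1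
  obtain ⟨r, hr, he⟩ := reduce hc hϖ hk P hP hP0 hPm le_rfl hk q h0
  have h2 : r = 0 := by
    ext i
    rw [coeff_zero]
    by_contra hne
    have h3 : ((r.coeff i : K))⁻¹ ∈ k := k.inv_mem (r.coeff i).2
    exact ev_ne_of_inv (res := res) (hk (r.coeff i).2) (hk h3) hne (hr i)
  rw [he, h2, eval₂_zero]

end

end Pool.Agent.V5helper88.SP
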