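import Pool.Agent.V5helper88.SP.Gen

/-!
The base change to `O[ϖ]`: the ideal of the support, second part.
-/

set_option autoImplicit false

open Pool.Agent.W418.LU2 Polynomial

universe u

namespace Pool.Agent.V5helper88.SP

variable {K F K' F' : Type u} [Field K] [Field F] [Field K'] [Field F'] [Algebra K K']
  [Algebra F F'] {R : Subring K} {res : R →+* F} {R' : Subring K'} {res' : R' →+* F'}
  {ϖ : K'}

/-- The subring of quotients `a / d`, `a ∈ A`, `d ∈ O`. -/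
def quo (O A : Subring K) (hOA : O ≤ A) : Subring K where
  carrier := {x | ∃ d ∈ O, d ≠ 0 ∧ d * x ∈ A}
  mul_mem' := by
    rintro a b ⟨d, hd, hd0, ha⟩ ⟨e, he, he0, hb⟩
    refine ⟨d * e, mul_mem hd he, mul_ne_zero hd0 he0, ?_⟩
    have : d * e * (a * b) = d * a * (e * b) := by ring
    rw [this]
    exact mul_mem ha hb
  one_mem' := ⟨1, one_mem _, one_ne_zero, by rw [mul_one]; exact one_mem _⟩
  add_mem' := by
    rintro a b ⟨d, hd, hd0, ha⟩ ⟨e, he, he0, hb⟩
    refine ⟨d * e, mul_mem hd he, mul_ne_zero hd0 he0, ?_⟩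
    have : d * e * (a + b) = e * (d * a) + d * (e * b) := by ring
    rw [this]
    exact add_mem (mul_mem (hOA he) ha) (mul_mem (hOA hd) hb)
  zero_mem' := ⟨1, one_mem _, one_ne_zero, by rw [mul_zero]; exact zero_mem _⟩
  neg_mem' := by
    rintro a ⟨d, hd, hd0, ha⟩
    exact ⟨d, hd, hd0, by rw [mul_neg]; exact neg_mem ha⟩

/-- Generators of the ideal of the support over `O[ϖ]`. -/
theorem gen_ext (hR : Rl res) (hc : Compat res res') (hϖ : ϖ ∈ R') {k : Subfield K}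
    (hk : k.toSubring ≤ R) (P : k.toSubring[X]) (hP : P.Monic)
    (hP0 : P.eval₂ ((algebraMap K K').comp k.toSubring.subtype) ϖ = 0)
    (hPm : P.map (res.comp (Subring.inclusion hk)) = minpoly F (ev res' ϖ))
    {O A : Subring K} (hOk : O ≤ k.toSubring)
    (hkO : ∀ x ∈ k, ∃ a ∈ O, ∃ b ∈ O, b ≠ 0 ∧ x = a / b) (hOA : O ≤ A) (hAR : A ≤ R)
    {c : ℕ} (f : Fin c → K)
    (hf : ∀ a ∈ A, ev res a = 0 → ∃ d ∈ O, d ≠ 0 ∧ ∃ g : Fin c → K, (∀ j, g j ∈ A) ∧
      d * a = ∑ j, g j * f j) :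
    ∀ a ∈ Subring.closure ((A.map (algebraMap K K') : Set K') ∪ {ϖ}), ev res' a = 0 →
      ∃ d ∈ O, d ≠ 0 ∧ ∃ g : Fin c → K',
        (∀ j, g j ∈ Subring.closure ((A.map (algebraMap K K') : Set K') ∪ {ϖ})) ∧
        algebraMap K K' d * a = ∑ j, g j * algebraMap K K' (f j) := by
  classical
  set A' := Subring.closure ((A.map (algebraMap K K') : Set K') ∪ {ϖ}) with hA'
  have hAA' : ∀ a ∈ A, algebraMap K K' a ∈ A' := fun a ha =>
    Subring.subset_closure (Or.inl ⟨a, ha, rfl⟩)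
  have hϖA' : ϖ ∈ A' := Subring.subset_closure (Or.inr rfl)
  intro a ha ha0
  obtain ⟨q, hq⟩ := closure_poly A ha
  have hO0 : ∀ d ∈ O, d ≠ 0 → d⁻¹ ∈ R := fun d hd hd0 => hk (k.inv_mem (hOk hd))
  have hAL : A ≤ quo O A hOA := fun x hx => ⟨1, one_mem _, one_ne_zero, by rwa [one_mul]⟩
  have hLR : quo O A hOA ≤ R := by
    rintro x ⟨d, hd, hd0, hx⟩
    have e : x = d⁻¹ * (d * x) := by field_simp
    rw [e]
    exact mul_mem (hO0 d hd hd0) (hAR hx)
  have hkL : k.toSubring ≤ quo O A hOA := by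
    intro x hx
    obtain ⟨a, ha, b, hb, hb0, rfl⟩ := hkO x hx
    refine ⟨b, hb, hb0, ?_⟩
    rw [mul_div_cancel₀ _ hb0]
    exact hOA ha
  have hq' : a = (q.map (Subring.inclusion hAL)).eval₂
      ((algebraMap K K').comp (quo O A hOA).subtype) ϖ := by
    rw [eval₂_map, hq]
    rfl
  rw [hq'] at ha0
  obtain ⟨r, hr, he⟩ := reduce hc hϖ hk P hP hP0 hPm hkL hLR _ ha0
  rw [hq', he, eval₂_eq_sum_range]
  -- sums
  have hsum : ∀ s : Finset ℕ, ∃ d ∈ O, d ≠ 0 ∧ ∃ g : Fin c → K', (∀ j, g j ∈ A') ∧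
      algebraMap K K' d * ∑ i ∈ s, ((algebraMap K K').comp (quo O A hOA).subtype)
        (r.coeff i) * ϖ ^ i = ∑ j, g j * algebraMap K K' (f j) := by
    intro s
    induction s using Finset.induction_on with
    | empty =>
      refine ⟨1, one_mem _, one_ne_zero, fun _ => 0, fun _ => zero_mem _, ?_⟩
      rw [Finset.sum_empty, mul_zero]
      simp
    | insert i s his ih =>
      obtain ⟨d, hd, hd0, g, hg, hgs⟩ := ih
      obtain ⟨d₁, hd₁, hd₁0, hx⟩ := (r.coeff i).2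
      have hx0 : ev res (d₁ * (r.coeff i : K)) = 0 := by
        rw [ev_mul res (hk (hOk hd₁)) (hLR (r.coeff i).2), hr i, mul_zero]
      obtain ⟨d₂, hd₂, hd₂0, g', hg', hgs'⟩ := hf _ hx hx0
      refine ⟨d * (d₂ * d₁), mul_mem hd (mul_mem hd₂ hd₁),
        mul_ne_zero hd0 (mul_ne_zero hd₂0 hd₁0), fun j => algebraMap K K' d *
          algebraMap K K' (g' j) * ϖ ^ i + algebraMap K K' (d₂ * d₁) * g j, fun j => ?_, ?_⟩
      · exact add_mem (mul_mem (mul_mem (hAA' _ (hOA hd)) (hAA' _ (hg' j))) (pow_mem hϖA' i))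
          (mul_mem (hAA' _ (hOA (mul_mem hd₂ hd₁))) (hg j))
      · rw [Finset.sum_insert his]
        have e1 : algebraMap K K' (d * (d₂ * d₁)) *
            (((algebraMap K K').comp (quo O A hOA).subtype) (r.coeff i) * ϖ ^ i +
              ∑ i ∈ s, ((algebraMap K K').comp (quo O A hOA).subtype) (r.coeff i) * ϖ ^ i) =
            algebraMap K K' d * (algebraMap K K' (d₂ * (d₁ * (r.coeff i : K)))) * ϖ ^ i +
              algebraMap K K' (d₂ * d₁) * (algebraMap K K' d *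
                ∑ i ∈ s, ((algebraMap K K').comp (quo O A hOA).subtype) (r.coeff i) * ϖ ^ i) := by
          simp only [map_mul, RingHom.comp_apply, Subring.coe_subtype]
          ring
        rw [e1, hgs, hgs', map_sum, Finset.mul_sum, Finset.sum_mul, Finset.mul_sum,
          ← Finset.sum_add_distrib]
        refine Finset.sum_congr rfl fun j _ => ?_
        simp only [map_mul]
        ring
  exact hsum _

/-- Elements of `O` divide powers of the uniformizer. -/
theorem dvd_unif (hR' : Rl res') (hc : Compat res res') (hϖ : ϖ ∈ R') {k : Subfield K}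
    (hk : k.toSubring ≤ R) (P : k.toSubring[X]) (hP : P.Monic)
    (hP0 : P.eval₂ ((algebraMap K K').comp k.toSubring.subtype) ϖ = 0)
    (hPm : P.map (res.comp (Subring.inclusion hk)) = minpoly F (ev res' ϖ))
    {O : Subring K} (hOk : O ≤ k.toSubring) (V' : ValuationSubring F')
    (hQ : ∃ (_ : IsDiscreteValuationRing
        (lo V'.toSubring (im res' (ram (algebraMap K K') O ϖ))))
      (h : ev res' ϖ ∈ lo V'.toSubring (im res' (ram (algebraMap K K') O ϖ))),
      IsLocalRing.maximalIdeal (lo V'.toSubring (im res' (ram (algebraMap K K') O ϖ))) =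
        Ideal.span {⟨ev res' ϖ, h⟩}) {d : K} (hd : d ∈ O) (hd0 : d ≠ 0) :
    ∃ n : ℕ, ∃ y ∈ lo (sp res' V') (ram (algebraMap K K') O ϖ),
      ϖ ^ n = algebraMap K K' d * y := by
  have hOR : O ≤ R := hOk.trans hk
  have hRR := ram_R hc hϖ hOR
  set O' := ram (algebraMap K K') O ϖ with hO'
  set Q := lo V'.toSubring (im res' O') with hQdef
  obtain ⟨hdvr, hϖQ, hmax⟩ := hQ
  have hdO' : algebraMap K K' d ∈ O' := Subring.subset_closure (Or.inl ⟨d, hd, rfl⟩)
  have hϖO' : ϖ ∈ O' := Subring.subset_closure (Or.inr rfl)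
  have hde : ev res d ≠ 0 := by
    have h1 : d⁻¹ ∈ R := hk (k.inv_mem (hOk hd))
    exact ev_ne_of_inv (hOR hd) h1 hd0
  have hde' : ev res' (algebraMap K K' d) ≠ 0 := by
    rw [(hc d (hOR hd)).2]
    exact (_root_.map_ne_zero _).2 hde
  let x : Q := ⟨ev res' (algebraMap K K' d), le_lo _ _ (ev_mem_im hRR hdO')⟩
  have hx0 : x ≠ 0 := fun h => hde' (congrArg Subtype.val h)
  have hirr : Irreducible (⟨ev res' ϖ, hϖQ⟩ : Q) :=
    (IsDiscreteValuationRing.irreducible_iff_uniformizer _).2 hmax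
  obtain ⟨n, u, hu⟩ := IsDiscreteValuationRing.associated_pow_irreducible hx0 hirr
  have hu' : ev res' (algebraMap K K' d) * ((u : Q) : F') = ev res' ϖ ^ n :=
    congrArg Subtype.val hu
  obtain ⟨a, ha, b, hb, hb0, hbV, hab⟩ := (u : Q).2
  obtain ⟨a, ha', rfl⟩ := (mem_im hRR).1 ha
  obtain ⟨b, hb', rfl⟩ := (mem_im hRR).1 hb
  have hbS : b⁻¹ ∈ sp res' V' := hR'.inv_sp hb0 hbV
  have hb00 : b ≠ 0 := ne_of_ev res' hb0
  have h1 : ev res' (ϖ ^ n * b - algebraMap K K' d * a) = 0 := by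
    rw [ev_sub res' (mul_mem (pow_mem hϖ n) (hRR hb')) (mul_mem (hRR hdO') (hRR ha')),
      ev_mul res' (pow_mem hϖ n) (hRR hb'), ev_mul res' (hRR hdO') (hRR ha'),
      ev_pow res' hϖ, ← hu', hab]
    field_simp
    ring
  have h2 := inj_k hc hϖ hk P hP hP0 hPm hOk (sub_mem (mul_mem (pow_mem hϖO' n) hb')
    (mul_mem hdO' ha')) h1
  refine ⟨n, a * b⁻¹, ⟨a, ha', b, hb', hb00, hbS, rfl⟩, ?_⟩
  rw [sub_eq_zero] at h2
  field_simp
  exact h2

end Pool.Agent.V5helper88.SP
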