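import Mathlib

/-!
Coefficients of minimal polynomials of separable elements.
-/

set_option autoImplicit false

open Polynomial

universe u

namespace Pool.Agent.V5helper88.SP

/-- The coefficients of the minimal polynomial over `F` of an element which is separable over `k`
are separable over `k`. -/
lemma coeff_sep {k F F' : Type u} [Field k] [Field F] [Field F'] [Algebra k F] [Algebra F F']
    [Algebra k F'] [IsScalarTower k F F'] (t : F') (P : k[X]) (hP : P.Separable)
    (hPt : aeval t P = 0) (i : ℕ) : IsSeparable k ((minpoly F t).coeff i) := by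
  classical
  let Ω := AlgebraicClosure F'
  have hint : IsIntegral F t := by
    refine isAlgebraic_iff_isIntegral.1 ⟨P.map (algebraMap k F), ?_, ?_⟩
    · rw [Polynomial.map_ne_zero_iff (algebraMap k F).injective]
      exact hP.ne_zero
    · rw [aeval_map_algebraMap]
      exact hPt
  haveI h1 : IsScalarTower k F Ω := inferInstance
  have hmon : (minpoly F t).Monic := minpoly.monic hint
  have hdvd : minpoly F t ∣ P.map (algebraMap k F) := by
    apply minpoly.dvd
    rw [aeval_map_algebraMap]
    exact hPt
  set Q := (minpoly F t).map (algebraMap F Ω) with hQ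
  have hQm : Q.Monic := hmon.map _
  have hQs : Q.Splits := IsAlgClosed.splits Q
  have hroots : ∀ r ∈ Q.roots, r ∈ separableClosure k Ω := by
    intro r hr
    rw [mem_separableClosure_iff]
    have h1 : Q.eval r = 0 := (mem_roots'.1 hr).2
    have h2 : aeval r P = 0 := by
      have h3 : Q ∣ P.map (algebraMap k Ω) := by
        rw [hQ, IsScalarTower.algebraMap_eq k F Ω, ← Polynomial.map_map]
        exact Polynomial.map_dvd _ hdvd
      obtain ⟨G, hG⟩ := h3
      rw [aeval_def, ← eval_map, hG, eval_mul, h1, zero_mul]
    exact Separable.of_dvd hP (minpoly.dvd k r h2)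
  have hl : Q ∈ lifts (separableClosure k Ω).toSubfield.subtype := by
    rw [hQs.eq_prod_roots_of_monic hQm]
    refine multiset_prod_mem _ fun q hq => ?_
    obtain ⟨r, hr, rfl⟩ := Multiset.mem_map.1 hq
    refine ⟨X - C ⟨r, hroots r hr⟩, ?_⟩
    rw [coe_mapRingHom, Polynomial.map_sub, map_X, map_C]
    rfl
  have h4 : Q.coeff i ∈ separableClosure k Ω := by
    rw [lifts_iff_coeff_lifts] at hl
    obtain ⟨y, hy⟩ := hl i
    rw [← hy]
    exact y.2
  rw [hQ, coeff_map, mem_separableClosure_iff] at h4
  exact (isSeparable_map_iff (IsScalarTower.toAlgHom k F Ω)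
    (IsScalarTower.toAlgHom k F Ω).injective).1 h4

end Pool.Agent.V5helper88.SP
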