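import Pool.Agent.V5helper88.SP.Gen2
import Pool.Agent.V5helper88.SP.Sep

/-!
The ideal of the support over `O[ϖ]`, general case.
-/

set_option autoImplicit false

open Pool.Agent.W418.LU2 Polynomial

universe u

namespace Pool.Agent.V5helper88.SP

variable {K F K' F' : Type u} [Field K] [Field F] [Field K'] [Field F'] [Algebra K K']
  [Algebra F F'] {R : Subring K} {res : R →+* F} {R' : Subring K'} {res' : R' →+* F'}
  {ϖ : K'}

/-- `res'` is injective on `O[ϖ]`. -/
lemma inj_k2 (hc : Compat res res') (hϖ : ϖ ∈ R') {k : Subfield K} (hk : k.toSubring ≤ R)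
    (P : k.toSubring[X]) (hP0 : P.eval₂ ((algebraMap K K').comp k.toSubring.subtype) ϖ = 0)
    (hPk : ∀ q : k.toSubring[X],
      aeval (ev res' ϖ) (q.map (res.comp (Subring.inclusion hk))) = 0 → P ∣ q)
    {O : Subring K} (hOk : O ≤ k.toSubring) {x : K'}
    (hx : x ∈ ram (algebraMap K K') O ϖ) (h0 : ev res' x = 0) : x = 0 := by
  have h1 : x ∈ Subring.closure ((k.toSubring.map (algebraMap K K') : Set K') ∪ {ϖ}) := by
    refine Subring.closure_mono (Set.union_subset_union_left _ ?_) hx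
    rintro _ ⟨a, ha, rfl⟩
    exact ⟨a, hOk ha, rfl⟩
  obtain ⟨q, rfl⟩ := closure_poly k.toSubring h1
  rw [(ev_eval hc hϖ hk q).2] at h0
  obtain ⟨r, rfl⟩ := hPk q h0
  rw [eval₂_mul, hP0, zero_mul]

/-- `x` is, up to constants, a combination of the `f j`. -/
def JJ (O : Subring K) (A' : Subring K') {c : ℕ} (f : Fin c → K) (x : K') : Prop :=
  ∃ d ∈ O, d ≠ 0 ∧ ∃ g : Fin c → K', (∀ j, g j ∈ A') ∧
    algebraMap K K' d * x = ∑ j, g j * algebraMap K K' (f j)

/-- `x` is contained in `A'`, up to constants. -/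
def LL (O : Subring K) (A' : Subring K') (x : K') : Prop :=
  ∃ d ∈ O, d ≠ 0 ∧ algebraMap K K' d * x ∈ A'

section

variable {O : Subring K} {A' : Subring K'} (hOA' : ∀ a ∈ O, algebraMap K K' a ∈ A') {c : ℕ}
  {f : Fin c → K}

include hOA'

lemma JJ.add {x y : K'} (hx : JJ O A' f x) (hy : JJ O A' f y) : JJ O A' f (x + y) := by
  obtain ⟨d, hd, hd0, g, hg, hgs⟩ := hx
  obtain ⟨d', hd', hd0', g', hg', hgs'⟩ := hy
  refine ⟨d * d', mul_mem hd hd', mul_ne_zero hd0 hd0', fun j => algebraMap K K' d' * g j +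
    algebraMap K K' d * g' j, fun j => add_mem (mul_mem (hOA' _ hd') (hg j))
      (mul_mem (hOA' _ hd) (hg' j)), ?_⟩
  have e : algebraMap K K' (d * d') * (x + y) = algebraMap K K' d' * (algebraMap K K' d * x) +
      algebraMap K K' d * (algebraMap K K' d' * y) := by
    rw [map_mul]; ring
  rw [e, hgs, hgs', Finset.mul_sum, Finset.mul_sum, ← Finset.sum_add_distrib]
  exact Finset.sum_congr rfl fun j _ => by ring

omit hOA' in
lemma JJ.mul {x y : K'} (hx : JJ O A' f x) (hy : LL O A' y) : JJ O A' f (y * x) := by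
  obtain ⟨d, hd, hd0, g, hg, hgs⟩ := hx
  obtain ⟨d', hd', hd0', hy'⟩ := hy
  refine ⟨d' * d, mul_mem hd' hd, mul_ne_zero hd0' hd0, fun j => algebraMap K K' d' * y * g j,
    fun j => mul_mem hy' (hg j), ?_⟩
  have e : algebraMap K K' (d' * d) * (y * x) = algebraMap K K' d' * y *
      (algebraMap K K' d * x) := by
    rw [map_mul]; ring
  rw [e, hgs, Finset.mul_sum]
  exact Finset.sum_congr rfl fun j _ => by ring

lemma LL.add {x y : K'} (hx : LL O A' x) (hy : LL O A' y) : LL O A' (x + y) := by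
  obtain ⟨d, hd, hd0, hx⟩ := hx
  obtain ⟨d', hd', hd0', hy⟩ := hy
  refine ⟨d * d', mul_mem hd hd', mul_ne_zero hd0 hd0', ?_⟩
  have e : algebraMap K K' (d * d') * (x + y) = algebraMap K K' d' * (algebraMap K K' d * x) +
      algebraMap K K' d * (algebraMap K K' d' * y) := by
    rw [map_mul]; ring
  rw [e]
  exact add_mem (mul_mem (hOA' _ hd') hx) (mul_mem (hOA' _ hd) hy)

omit hOA' in
lemma LL.mul {x y : K'} (hx : LL O A' x) (hy : LL O A' y) : LL O A' (x * y) := by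
  obtain ⟨d, hd, hd0, hx⟩ := hx
  obtain ⟨d', hd', hd0', hy⟩ := hy
  refine ⟨d * d', mul_mem hd hd', mul_ne_zero hd0 hd0', ?_⟩
  have e : algebraMap K K' (d * d') * (x * y) = (algebraMap K K' d * x) *
      (algebraMap K K' d' * y) := by
    rw [map_mul]; ring
  rw [e]
  exact mul_mem hx hy

omit hOA' in
lemma LL.of_mem {x : K'} (hx : x ∈ A') : LL O A' x :=
  ⟨1, one_mem _, one_ne_zero, by rw [map_one, one_mul]; exact hx⟩

end

/-- The main lemma: up to a function with constant value on the support, the ideal of the support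
is generated by the parameters. -/
theorem gen_ext3 (hc : Compat res res') (hϖ : ϖ ∈ R') {k : Subfield K}
    (hk : k.toSubring ≤ R) (P : k.toSubring[X])
    (hP0 : P.eval₂ ((algebraMap K K').comp k.toSubring.subtype) ϖ = 0)
    {k₁ : Subfield F} (P₁ : k₁[X]) (hP₁ : P₁.Separable)
    (hPP : P.map (res.comp (Subring.inclusion hk)) = P₁.map (algebraMap k₁ F))
    (hint : IsIntegral F (ev res' ϖ))
    {O A : Subring K} (hOA : O ≤ A) (hAR : A ≤ R) (hOk : O ≤ k.toSubring)
    (hkO : ∀ x ∈ k, ∃ a ∈ O, ∃ b ∈ O, b ≠ 0 ∧ x = a / b)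
    (hL2 : ∀ y : F, IsSeparable k₁ y → ∃ z ∈ quo O A hOA, ev res z = y)
    {c : ℕ} (f : Fin c → K)
    (hf : ∀ a ∈ A, ev res a = 0 → ∃ d ∈ O, d ≠ 0 ∧ ∃ g : Fin c → K, (∀ j, g j ∈ A) ∧
      d * a = ∑ j, g j * f j) :
    ∃ s ∈ Subring.closure ((A.map (algebraMap K K') : Set K') ∪ {ϖ}), ∃ D ∈ O, D ≠ 0 ∧
      ev res' s = algebraMap F F' (ev res D) ∧
      ∀ a ∈ Subring.closure ((A.map (algebraMap K K') : Set K') ∪ {ϖ}), ev res' a = 0 →
        JJ O (Subring.closure ((A.map (algebraMap K K') : Set K') ∪ {ϖ})) f (s * a) := by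
  classical
  set A' := Subring.closure ((A.map (algebraMap K K') : Set K') ∪ {ϖ}) with hA'
  have hAA' : ∀ a ∈ A, algebraMap K K' a ∈ A' := fun a ha =>
    Subring.subset_closure (Or.inl ⟨a, ha, rfl⟩)
  have hOA' : ∀ a ∈ O, algebraMap K K' a ∈ A' := fun a ha => hAA' a (hOA ha)
  have hϖA' : ϖ ∈ A' := Subring.subset_closure (Or.inr rfl)
  have hO0 : ∀ d ∈ O, d ≠ 0 → d⁻¹ ∈ R := fun d hd hd0 => hk (k.inv_mem (hOk hd))
  have hAL : A ≤ quo O A hOA := fun x hx => ⟨1, one_mem _, one_ne_zero, by rwa [one_mul]⟩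
  have hLR : quo O A hOA ≤ R := by
    rintro x ⟨d, hd, hd0, hx⟩
    have e : x = d⁻¹ * (d * x) := by field_simp
    rw [e]
    exact mul_mem (hO0 d hd hd0) (hAR hx)
  have hkL : k.toSubring ≤ quo O A hOA := by
    intro x hx
    obtain ⟨a, ha, b, hb, hb0, rfl⟩ := hkO x hx
    refine ⟨b, hb, hb0, ?_⟩
    rw [mul_div_cancel₀ _ hb0]
    exact hOA ha
  set L := quo O A hOA with hL
  set φ : L →+* K' := (algebraMap K K').comp L.subtype with hφ
  set ρ : L →+* F := res.comp (Subring.inclusion hLR) with hρ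
  set t := ev res' ϖ with ht
  -- polynomials over `L`
  have hLL : ∀ q : L[X], LL O A' (q.eval₂ φ ϖ) := by
    intro q
    induction q using Polynomial.induction_on with
    | C a =>
      rw [eval₂_C]
      obtain ⟨d, hd, hd0, hda⟩ := a.2
      refine ⟨d, hd, hd0, ?_⟩
      have := hAA' _ hda
      rwa [map_mul] at this
    | add p q hp hq => rw [eval₂_add]; exact hp.add hOA' hq
    | monomial n a h =>
      have e : (C a * X ^ (n + 1) : L[X]) = C a * X ^ n * X := by rw [pow_succ, mul_assoc]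
      rw [e, eval₂_mul, eval₂_X]
      exact h.mul (LL.of_mem hϖA')
  have hJc : ∀ y ∈ L, ev res y = 0 → JJ O A' f (algebraMap K K' y) := by
    rintro y ⟨d₁, hd₁, hd₁0, hx⟩ hy0
    have hyR : y ∈ R := by
      have e : y = d₁⁻¹ * (d₁ * y) := by field_simp
      rw [e]
      exact mul_mem (hO0 d₁ hd₁ hd₁0) (hAR hx)
    have hx0 : ev res (d₁ * y) = 0 := by
      rw [ev_mul res (hk (hOk hd₁)) hyR, hy0, mul_zero]
    obtain ⟨d₂, hd₂, hd₂0, g', hg', hgs'⟩ := hf _ hx hx0
    refine ⟨d₂ * d₁, mul_mem hd₂ hd₁, mul_ne_zero hd₂0 hd₁0, fun j => algebraMap K K' (g' j),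
      fun j => hAA' _ (hg' j), ?_⟩
    have h1 := congrArg (algebraMap K K') hgs'
    rw [map_sum] at h1
    simp only [map_mul] at h1 ⊢
    rw [← h1]
    ring
  have hJ0 : JJ O A' f 0 :=
    ⟨1, one_mem _, one_ne_zero, fun _ => 0, fun _ => zero_mem _, by simp⟩
  have hJp : ∀ q : L[X], q.map ρ = 0 → JJ O A' f (q.eval₂ φ ϖ) := by
    intro q hq
    rw [eval₂_eq_sum_range]
    have hs : ∀ s : Finset ℕ, JJ O A' f (∑ i ∈ s, φ (q.coeff i) * ϖ ^ i) := by
      intro s
      induction s using Finset.induction_on with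
      | empty => rw [Finset.sum_empty]; exact hJ0
      | insert i s his ih =>
        rw [Finset.sum_insert his]
        refine JJ.add hOA' ?_ ih
        rw [mul_comm]
        refine JJ.mul (hJc _ (q.coeff i).2 ?_) (LL.of_mem (pow_mem hϖA' i))
        have h2 : (q.map ρ).coeff i = 0 := by rw [hq, coeff_zero]
        rw [coeff_map] at h2
        change ev res ((q.coeff i : L) : K) = 0
        rw [ev_of res (hLR (q.coeff i).2)]
        exact h2
    exact hs _
  have hev : ∀ q : L[X], q.eval₂ φ ϖ ∈ R' ∧ ev res' (q.eval₂ φ ϖ) = aeval t (q.map ρ) :=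
    fun q => ev_eval hc hϖ hLR q
  -- factorization over the constants
  let k₂ := separableClosure k₁ F
  have hP₁t : aeval t P₁ = 0 := by
    have h1 := (ev_eval hc hϖ hk P).2
    rw [hP0, ev_zero, hPP, aeval_map_algebraMap] at h1
    exact h1.symm
  have hMon : (minpoly F t).Monic := minpoly.monic hint
  have hMl : minpoly F t ∈ lifts (algebraMap k₂ F) := by
    rw [lifts_iff_coeff_lifts]
    intro i
    exact ⟨⟨_, mem_separableClosure_iff.2 (coeff_sep t P₁ hP₁ hP₁t i)⟩, rfl⟩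
  obtain ⟨Mk, hMk, -, hMkm⟩ := lifts_and_degree_eq_and_monic hMl hMon
  let Pk : k₂[X] := P₁.map (algebraMap k₁ k₂)
  have hPkF : Pk.map (algebraMap k₂ F) = P₁.map (algebraMap k₁ F) := by
    rw [Polynomial.map_map, ← IsScalarTower.algebraMap_eq]
  have hdvd : Mk ∣ Pk := by
    rw [← Polynomial.map_dvd_map' (algebraMap k₂ F), hMk, hPkF]
    apply minpoly.dvd
    rw [aeval_map_algebraMap]
    exact hP₁t
  obtain ⟨Nk, hNk⟩ := hdvd
  have hcop : IsCoprime Mk Nk := by
    apply Polynomial.Separable.isCoprime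
    rw [← hNk]
    exact hP₁.map
  obtain ⟨a, b, hab⟩ := hcop
  have hlift : ∀ q : k₂[X], ∃ q' : L[X], q'.map ρ = q.map (algebraMap k₂ F) := by
    intro q
    have h1 : q.map (algebraMap k₂ F) ∈ lifts ρ := by
      rw [lifts_iff_coeff_lifts]
      intro i
      rw [coeff_map]
      obtain ⟨z, hz, hze⟩ := hL2 _ (mem_separableClosure_iff.1 (q.coeff i).2)
      refine ⟨⟨z, hz⟩, ?_⟩
      rw [ev_of res (hLR hz)] at hze
      exact hze
    exact h1
  have hMl' : minpoly F t ∈ lifts ρ := by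
    obtain ⟨q', hq'⟩ := hlift Mk
    rw [hMk] at hq'
    exact ⟨q', hq'⟩
  obtain ⟨M, hM, -, hMm⟩ := lifts_and_degree_eq_and_monic hMl' hMon
  obtain ⟨N, hN⟩ := hlift Nk
  obtain ⟨a', ha'⟩ := hlift a
  obtain ⟨b', hb'⟩ := hlift b
  let PL : L[X] := P.map (Subring.inclusion hkL)
  have hPL0 : PL.eval₂ φ ϖ = 0 := by
    rw [eval₂_map]
    exact hP0
  have hPLF : PL.map ρ = P₁.map (algebraMap k₁ F) := by
    rw [Polynomial.map_map, ← hPP]
    rfl
  set m := M.eval₂ φ ϖ with hm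
  have hm0 : ev res' m = 0 := by
    rw [(hev M).2, hM]
    exact minpoly.aeval F t
  have hmR : m ∈ R' := (hev M).1
  -- `M N` is contained in `J`
  have h1 : JJ O A' f (m * N.eval₂ φ ϖ) := by
    have h2 := hJp (M * N - PL) (by
      rw [Polynomial.map_sub, Polynomial.map_mul, hM, hN, hPLF, ← hPkF, hNk,
        Polynomial.map_mul, hMk, sub_self])
    rw [eval₂_sub, eval₂_mul, hPL0, sub_zero] at h2
    exact h2
  have h2 : JJ O A' f (a'.eval₂ φ ϖ * m + b'.eval₂ φ ϖ * N.eval₂ φ ϖ - 1) := by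
    have h3 := hJp (a' * M + b' * N - 1) (by
      rw [Polynomial.map_sub, Polynomial.map_add, Polynomial.map_mul, Polynomial.map_mul, hM, hN,
        ha', hb', Polynomial.map_one, ← hMk, ← Polynomial.map_mul, ← Polynomial.map_mul,
        ← Polynomial.map_add, hab, Polynomial.map_one, sub_self])
    rw [eval₂_sub, eval₂_add, eval₂_mul, eval₂_mul, eval₂_one] at h3
    exact h3
  set s₀ := (1 - a' * M).eval₂ φ ϖ with hs₀
  have hs₀e : s₀ = 1 - a'.eval₂ φ ϖ * m := by
    rw [hs₀, eval₂_sub, eval₂_mul, eval₂_one]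
  have h3 : JJ O A' f (s₀ * m) := by
    have e : s₀ * m = b'.eval₂ φ ϖ * (m * N.eval₂ φ ϖ) +
        -m * (a'.eval₂ φ ϖ * m + b'.eval₂ φ ϖ * N.eval₂ φ ϖ - 1) := by
      rw [hs₀e]; ring
    rw [e]
    refine JJ.add hOA' (h1.mul (hLL b')) (h2.mul ?_)
    have e2 : -m = (-M).eval₂ φ ϖ := by rw [eval₂_neg]
    rw [e2]
    exact hLL _
  have h4 : ev res' s₀ = 1 := by
    rw [hs₀, (hev _).2, Polynomial.map_sub, Polynomial.map_one, Polynomial.map_mul, hM, map_sub,
      map_one, map_mul, minpoly.aeval, mul_zero, sub_zero]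
  obtain ⟨D, hD, hD0, hDs⟩ := hLL (1 - a' * M)
  rw [← hs₀] at hDs
  refine ⟨algebraMap K K' D * s₀, hDs, D, hD, hD0, ?_, ?_⟩
  · have h5 := hc D (hk (hOk hD))
    rw [ev_mul res' h5.1 (hev _).1, h4, mul_one, h5.2]
  · intro y hy hy0
    obtain ⟨q₀, hq₀⟩ := closure_poly A hy
    set q : L[X] := q₀.map (Subring.inclusion hAL) with hqdef
    have hq : y = q.eval₂ φ ϖ := by
      rw [hqdef, eval₂_map, hq₀]
      rfl
    have h5 : aeval t (q.map ρ) = 0 := by
      rw [← (hev q).2, ← hq]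
      exact hy0
    have h6 : (q %ₘ M).map ρ = 0 := by
      rw [map_modByMonic ρ hMm, hM]
      exact (modByMonic_eq_zero_iff_dvd hMon).2 (minpoly.dvd F t h5)
    have h7 : y = m * (q /ₘ M).eval₂ φ ϖ + (q %ₘ M).eval₂ φ ϖ := by
      rw [hq, hm, ← eval₂_mul, ← eval₂_add, add_comm, modByMonic_add_div q M]
    have h8 : algebraMap K K' D * s₀ * y = (q /ₘ M).eval₂ φ ϖ * algebraMap K K' D * (s₀ * m) +
        algebraMap K K' D * s₀ * (q %ₘ M).eval₂ φ ϖ := by
      rw [h7]; ring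
    rw [h8]
    exact JJ.add hOA' (h3.mul ((hLL _).mul (LL.of_mem (hOA' _ hD))))
      ((hJp _ h6).mul (LL.of_mem hDs))

end Pool.Agent.V5helper88.SP
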