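import Pool.Agent.V5helper88.SP.Pl

/-!
The first blowing-up.
-/

set_option autoImplicit false

open Pool.Agent.W418.LU2 Pointwise

universe u

namespace Pool.Agent.V5helper88.SP

variable {K F : Type u} [Field K] [Field F] {R : Subring K} {res : R →+* F} {O : Subring K}
  {W : Set K}

/-- The blowing-up of the ideal `(h, π ^ N)`. -/
theorem pre_blowup (hW : W.Finite) (h1 : (1 : K) ∈ W) {π : K} (hπ : π ∈ O) (N : ℕ) {h : K}
    (hh : h ∈ ch O W 1) (hh0 : h ≠ 0) :
    ∃ e : ℕ, Vert O π W ((fun m => π ^ N * m) '' (W ^ e) ∪ {h}) ∧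
      h ∈ bu W ((fun m => π ^ N * m) '' (W ^ e) ∪ {h}) ∧
      ch O (bu W ((fun m => π ^ N * m) '' (W ^ e) ∪ {h})) h =
        Subring.closure ((ch O W 1 : Set K) ∪ {π ^ N / h}) := by
  obtain ⟨e, he⟩ := ch_form_fin (O := O) h1 one_ne_zero (Set.finite_singleton h) (by
    intro g hg
    rw [Set.mem_singleton_iff.1 hg]
    exact hh)
  obtain ⟨h2, h3⟩ := bu_ch hW h1 one_ne_zero hπ N (Set.finite_singleton h)
    (Set.mem_singleton h) hh0 he
  have e1 : (fun g : K => g * 1 ^ e) '' {h} = {h} := by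
    rw [Set.image_singleton, one_pow, mul_one]
  have e2 : h * 1 ^ e * 1 = h := by rw [one_pow, mul_one, mul_one]
  have e3 : (fun g : K => g / h) '' {h} = {1} := by
    rw [Set.image_singleton, div_self hh0]
  rw [e1] at h2 h3
  rw [e2, e3] at h3
  refine ⟨e, h2, ⟨h, Or.inr rfl, 1, h1, (mul_one h).symm⟩, ?_⟩
  rw [h3]
  apply le_antisymm
  · rw [Subring.closure_le]
    rintro x (hx | hx | hx)
    · exact Subring.subset_closure (Or.inl hx)
    · exact Subring.subset_closure (Or.inr hx)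
    · rw [Set.mem_singleton_iff.1 hx]
      exact one_mem _
  · refine Subring.closure_mono (Set.union_subset_union_right _ ?_)
    exact fun x hx => Or.inl hx

/-- After the first blowing-up, the ideal of the support is generated by the parameters, up to
constants. -/
theorem pre_gen {A : Subring K} (hOA : O ≤ A) (hAR : A ≤ R) {π : K} (hπ : π ∈ O) (hπ0 : π ≠ 0)
    (N : ℕ) {h : K} (hh : h ∈ A) (hh0 : h ≠ 0) (hqR : π ^ N / h ∈ R) {c : ℕ} (f : Fin c → K)
    (hf : ∀ a ∈ A, ev res a = 0 → ∃ (n : ℕ) (d : K), d ∈ O ∧ d ≠ 0 ∧ ∃ g : Fin c → K,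
      (∀ j, g j ∈ A) ∧ d * h ^ n * a = ∑ j, g j * f j) :
    ∀ a ∈ Subring.closure ((A : Set K) ∪ {π ^ N / h}), ev res a = 0 →
      ∃ d ∈ O, d ≠ 0 ∧ ∃ g : Fin c → K,
        (∀ j, g j ∈ Subring.closure ((A : Set K) ∪ {π ^ N / h})) ∧
        d * a = ∑ j, g j * f j := by
  set A1 := Subring.closure ((A : Set K) ∪ {π ^ N / h}) with hA1
  have hAA1 : A ≤ A1 := fun x hx => Subring.subset_closure (Or.inl hx)
  have hq : π ^ N / h ∈ A1 := Subring.subset_closure (Or.inr rfl)
  have hA1R : A1 ≤ R := by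
    rw [hA1, Subring.closure_le]
    rintro x (hx | hx)
    · exact hAR hx
    · rw [Set.mem_singleton_iff.1 hx]; exact hqR
  have key : ∀ a ∈ A1, ∃ j : ℕ, h ^ j * a ∈ A := by
    intro a ha
    induction ha using Subring.closure_induction with
    | mem x hx =>
      rcases hx with hx | hx
      · exact ⟨0, by rw [pow_zero, one_mul]; exact hx⟩
      · refine ⟨1, ?_⟩
        rw [Set.mem_singleton_iff.1 hx, pow_one, mul_div_cancel₀ _ hh0]
        exact pow_mem (hOA hπ) N
    | zero => exact ⟨0, by rw [mul_zero]; exact zero_mem _⟩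
    | one => exact ⟨0, by rw [pow_zero, one_mul]; exact one_mem _⟩
    | add x y _ _ hx hy =>
      obtain ⟨i, hi⟩ := hx
      obtain ⟨j, hj⟩ := hy
      refine ⟨i + j, ?_⟩
      have e : h ^ (i + j) * (x + y) = h ^ j * (h ^ i * x) + h ^ i * (h ^ j * y) := by ring
      rw [e]
      exact add_mem (mul_mem (pow_mem hh j) hi) (mul_mem (pow_mem hh i) hj)
    | neg x _ hx =>
      obtain ⟨i, hi⟩ := hx
      exact ⟨i, by rw [mul_neg]; exact neg_mem hi⟩
    | mul x y _ _ hx hy =>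
      obtain ⟨i, hi⟩ := hx
      obtain ⟨j, hj⟩ := hy
      refine ⟨i + j, ?_⟩
      have e : h ^ (i + j) * (x * y) = h ^ i * x * (h ^ j * y) := by ring
      rw [e]
      exact mul_mem hi hj
  intro a ha ha0
  obtain ⟨j, hj⟩ := key a ha
  have h0 : ev res (h ^ j * a) = 0 := by
    rw [ev_mul res (hAR (pow_mem hh j)) (hA1R ha), ha0, mul_zero]
  obtain ⟨n, d, hd, hd0, g, hg, hgs⟩ := hf _ hj h0
  refine ⟨d * (π ^ N) ^ (n + j), mul_mem hd (pow_mem (pow_mem hπ N) _),
    mul_ne_zero hd0 (pow_ne_zero _ (pow_ne_zero _ hπ0)),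
    fun i => (π ^ N / h) ^ (n + j) * g i, fun i => mul_mem (pow_mem hq _) (hAA1 (hg i)), ?_⟩
  have e : d * (π ^ N) ^ (n + j) * a = (π ^ N / h) ^ (n + j) * (d * h ^ n * (h ^ j * a)) := by
    rw [div_pow]
    field_simp
    ring
  rw [e, hgs, Finset.mul_sum]
  exact Finset.sum_congr rfl fun i _ => by ring

end Pool.Agent.V5helper88.SP
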