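import Pool.Agent.V5helper88.SP.Up
import Pool.Agent.V5helper88.SP.Ext
import Pool.Agent.V5helper88.SP.Sep
import Pool.Agent.V5helper88.SP.Gen2
import Pool.Agent.V5helper88.SP.Pre

/-!
Transfer of uniformization from the support to the ambient scheme.
-/

set_option autoImplicit false

open Pointwise Pool.Agent.W418.LU2 Polynomial

universe u

namespace Pool.Agent.V5helper88.SP

/-- The chart of the base change. -/
lemma ch_ram {K K' : Type u} [Field K] [Field K'] [Algebra K K'] {O : Subring K} {T : Set K}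
    {u : K} (ϖ : K') :
    ch (ram (algebraMap K K') O ϖ) (algebraMap K K' '' T) (algebraMap K K' u) =
      Subring.closure (((ch O T u).map (algebraMap K K') : Set K') ∪ {ϖ}) := by
  apply le_antisymm
  · have h1 : ram (algebraMap K K') O ϖ ≤
        Subring.closure (((ch O T u).map (algebraMap K K') : Set K') ∪ {ϖ}) := by
      refine Subring.closure_mono (Set.union_subset_union_left _ ?_)
      rintro _ ⟨a, ha, rfl⟩
      exact ⟨a, O_le_ch ha, rfl⟩
    conv_lhs => unfold ch
    rw [Subring.closure_le]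
    rintro z (hz | ⟨_, ⟨v, hv, rfl⟩, rfl⟩)
    · exact h1 hz
    · refine Subring.subset_closure (Or.inl ⟨v / u, div_mem_ch hv, ?_⟩)
      exact map_div₀ _ _ _
  · have h1 : (ch O T u).map (algebraMap K K') ≤
        ch (ram (algebraMap K K') O ϖ) (algebraMap K K' '' T) (algebraMap K K' u) := by
      rw [Subring.map_le_iff_le_comap]
      conv_lhs => unfold ch
      rw [Subring.closure_le]
      rintro z (hz | ⟨v, hv, rfl⟩)
      · exact O_le_ch (Subring.subset_closure (Or.inl ⟨z, hz, rfl⟩))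
      · change algebraMap K K' (v / u) ∈
          ch (ram (algebraMap K K') O ϖ) (algebraMap K K' '' T) (algebraMap K K' u)
        rw [map_div₀]
        exact div_mem_ch ⟨v, hv, rfl⟩
    rw [Subring.closure_le]
    rintro z (hz | hz)
    · exact h1 hz
    · rw [Set.mem_singleton_iff.1 hz]
      exact O_le_ch (Subring.subset_closure (Or.inr rfl))

/-- A uniformizer at the centre of `V` has positive valuation. -/
lemma unif_lt {F : Type u} [Field F] (V : ValuationSubring F) {B : Subring F} {t : F}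
    (htB : t ∈ B) (hQ : ∃ (_ : IsDiscreteValuationRing (lo V.toSubring B))
      (h : t ∈ lo V.toSubring B),
      IsLocalRing.maximalIdeal (lo V.toSubring B) = Ideal.span {⟨t, h⟩}) :
    V.valuation t < 1 ∧ t ≠ 0 := by
  obtain ⟨hdvr, h, hmax⟩ := hQ
  have ht0 : t ≠ 0 := by
    rintro rfl
    apply IsDiscreteValuationRing.not_a_field (lo V.toSubring B)
    rw [hmax, Ideal.span_singleton_eq_bot]
    rfl
  refine ⟨?_, ht0⟩
  by_contra hcon
  push Not at hcon
  have h1 : t⁻¹ ∈ V := by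
    rw [← V.valuation_le_one_iff, map_inv₀]
    exact inv_le_one_of_one_le₀ hcon
  have h2 : t⁻¹ ∈ lo V.toSubring B :=
    ⟨1, one_mem _, t, htB, ht0, h1, (one_mul _).symm⟩
  have h3 : IsUnit (⟨t, h⟩ : lo V.toSubring B) :=
    IsUnit.of_mul_eq_one ⟨t⁻¹, h2⟩ (Subtype.ext (mul_inv_cancel₀ ht0))
  have h4 : (⟨t, h⟩ : lo V.toSubring B) ∈ IsLocalRing.maximalIdeal (lo V.toSubring B) := by
    rw [hmax]
    exact Ideal.mem_span_singleton_self _
  exact (IsLocalRing.mem_maximalIdeal _).1 h4 h3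

/-- Generators of a simple extension. -/
lemma gen_simple {F F' : Type u} [Field F] [Field F'] [Algebra F F'] (t : F')
    (ht : IsIntegral F t)
    (h : ∀ z : F', z ∈ Subfield.closure (Set.range (algebraMap F F') ∪ {t})) :
    ∀ z : F', ∃ q : F[X], z = aeval t q := by
  intro z
  have h1 : Subfield.closure (Set.range (algebraMap F F') ∪ {t}) ≤
      (IntermediateField.adjoin F {t}).toSubfield := by
    rw [Subfield.closure_le]
    rintro y (⟨a, rfl⟩ | hy)
    · exact (IntermediateField.adjoin F {t}).algebraMap_mem a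
    · rw [Set.mem_singleton_iff.1 hy]
      exact IntermediateField.mem_adjoin_simple_self F t
  have h2 : z ∈ IntermediateField.adjoin F {t} := h1 (h z)
  have h3 : z ∈ Algebra.adjoin F {t} := by
    rw [← IntermediateField.adjoin_simple_toSubalgebra_of_isAlgebraic ht.isAlgebraic]
    exact h2
  rw [Algebra.adjoin_singleton_eq_range_aeval] at h3
  obtain ⟨q, hq⟩ := h3
  exact ⟨q, hq.symm⟩

/-- The minimal polynomial of the uniformizer comes from `k`. -/
lemma exists_poly {K F F' : Type u} [Field K] [Field F] [Field F'] [Algebra F F']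
    {R : Subring K} {res : R →+* F} {k : Subfield K} (hk : k.toSubring ≤ R)
    {k₁ : Subfield F} (hkk : ∀ y ∈ k₁, ∃ x ∈ k, ev res x = y)
    (hgeom : ∀ z : F, IsSeparable k₁ z → z ∈ k₁) (t : F')
    (hsep : ∃ P : Polynomial k₁, P.Separable ∧
      P.eval₂ ((algebraMap F F').comp k₁.subtype) t = 0) :
    IsIntegral F t ∧ ∃ P : k.toSubring[X], P.Monic ∧
      P.map (res.comp (Subring.inclusion hk)) = minpoly F t := by
  obtain ⟨P, hPs, hP0⟩ := hsep
  have hint : IsIntegral F t := by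
    refine isAlgebraic_iff_isIntegral.1 ⟨P.map k₁.subtype, ?_, ?_⟩
    · rw [Polynomial.map_ne_zero_iff k₁.subtype.injective]
      exact hPs.ne_zero
    · rw [Polynomial.aeval_def, Polynomial.eval₂_map]
      exact hP0
  refine ⟨hint, ?_⟩
  have hco : ∀ i, (minpoly F t).coeff i ∈ k₁ := fun i =>
    hgeom _ (coeff_sep t P hPs hP0 i)
  have hl : minpoly F t ∈ lifts (res.comp (Subring.inclusion hk)) := by
    rw [lifts_iff_coeff_lifts]
    intro i
    obtain ⟨x, hx, hxe⟩ := hkk _ (hco i)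
    refine ⟨⟨x, hx⟩, ?_⟩
    rw [← hxe, ev_of res (hk hx)]
    rfl
  obtain ⟨Q, hQ, -, hQm⟩ := lifts_and_degree_eq_and_monic hl (minpoly.monic hint)
  exact ⟨Q, hQm, hQ⟩

/-- Elements of `R'` are fractions. -/
lemma frac_ext {K F K' F' : Type u} [Field K] [Field F] [Field K'] [Field F'] [Algebra K K']
    [Algebra F F'] {R : Subring K} {res : R →+* F} {R' : Subring K'} {res' : R' →+* F'}
    {ϖ : K'} (hc : Compat res res') (hϖ : ϖ ∈ R')
    (hpoly : ∀ z ∈ R', ∃ q : R[X], z = q.eval₂ ((algebraMap K K').comp R.subtype) ϖ)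
    {B : Subring K} (hBR : B ≤ R)
    (hfr : ∀ x ∈ R, ∃ a ∈ B, ∃ b ∈ B, ev res b ≠ 0 ∧ x = a / b) :
    ∀ x ∈ R', ∃ a ∈ Subring.closure ((B.map (algebraMap K K') : Set K') ∪ {ϖ}),
      ∃ b ∈ Subring.closure ((B.map (algebraMap K K') : Set K') ∪ {ϖ}),
        ev res' b ≠ 0 ∧ x = a / b := by
  set B' := Subring.closure ((B.map (algebraMap K K') : Set K') ∪ {ϖ}) with hB'
  have hBB' : ∀ a ∈ B, algebraMap K K' a ∈ B' := fun a ha =>
    Subring.subset_closure (Or.inl ⟨a, ha, rfl⟩)
  have hϖB : ϖ ∈ B' := Subring.subset_closure (Or.inr rfl)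
  have hBR' : B' ≤ R' := by
    rw [hB', Subring.closure_le]
    rintro z (⟨a, ha, rfl⟩ | hz)
    · exact (hc a (hBR ha)).1
    · rw [Set.mem_singleton_iff.1 hz]; exact hϖ
  intro z hz
  obtain ⟨q, rfl⟩ := hpoly z hz
  clear hz
  induction q using Polynomial.induction_on with
  | C a =>
    obtain ⟨x, hx, y, hy, hy0, hxy⟩ := hfr a a.2
    refine ⟨_, hBB' x hx, _, hBB' y hy, ?_, ?_⟩
    · rw [(hc y (hBR hy)).2]
      exact (_root_.map_ne_zero _).2 hy0
    · rw [eval₂_C, RingHom.comp_apply, Subring.coe_subtype, hxy, map_div₀]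
  | add p q hp hq =>
    obtain ⟨a, ha, b, hb, hb0, hab⟩ := hp
    obtain ⟨a', ha', b', hb', hb0', hab'⟩ := hq
    refine ⟨a * b' + a' * b, add_mem (mul_mem ha hb') (mul_mem ha' hb), b * b',
      mul_mem hb hb', ?_, ?_⟩
    · rw [ev_mul res' (hBR' hb) (hBR' hb')]
      exact mul_ne_zero hb0 hb0'
    · have h1 := ne_of_ev res' hb0
      have h2 := ne_of_ev res' hb0'
      rw [eval₂_add, hab, hab']
      field_simp
  | monomial n a h =>
    obtain ⟨x, hx, y, hy, hy0, hxy⟩ := h
    have e : (C a * X ^ (n + 1) : R[X]) = C a * X ^ n * X := by rw [pow_succ, mul_assoc]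
    refine ⟨x * ϖ, mul_mem hx hϖB, y, hy, hy0, ?_⟩
    rw [e, eval₂_mul, eval₂_X, hxy]
    ring

/-- Uniformization of the support gives uniformization of the ambient scheme, over a finite
extension of the ground field. -/
theorem transfer {K F F' : Type u} [Field K] [Field F] [Field F'] [Algebra F F']
    {R : Subring K} {res : R →+* F} (hR : Rl res) (hs : Function.Surjective res)
    {O : Subring K} (hOn : IsNoetherianRing O) {k : Subfield K} (hOk : O ≤ k.toSubring)
    (hkO : ∀ x ∈ k, ∃ a ∈ O, ∃ b ∈ O, b ≠ 0 ∧ x = a / b)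
    (hO0 : ∀ a ∈ O, a ≠ 0 → ev res a ≠ 0) (hOR : O ≤ R)
    {k₁ : Subfield F} (hk₁ : k₁ = Subfield.closure (im res O : Set F))
    (hgeom : ∀ z : F, IsSeparable k₁ z → z ∈ k₁)
    (V : ValuationSubring F) (hOV : im res O ≤ V.toSubring)
    {T : Set K} (hT : T.Finite) (hTR : T ⊆ R) {u : K} (hu : u ∈ T) (hu0 : ev res u ≠ 0)
    (huV : ∀ v ∈ T, v / u ∈ sp res V)
    (hfr : ∀ x ∈ R, ∃ a ∈ ch O T u, ∃ b ∈ ch O T u, ev res b ≠ 0 ∧ x = a / b)
    (hK : ∀ z : K, ∃ a ∈ R, ∃ b ∈ R, b ≠ 0 ∧ z = a / b)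
    {c : ℕ} (f : Fin c → K) (hfA : ∀ i, f i ∈ ch O T u) (hf0 : ∀ i, ev res (f i) = 0)
    (hdim : (c : WithBot ℕ∞) ≤ ringKrullDim R)
    (hf : ∀ a ∈ ch O T u, ev res a = 0 → ∃ d ∈ O, d ≠ 0 ∧ ∃ g : Fin c → K,
      (∀ j, g j ∈ ch O T u) ∧ d * a = ∑ j, g j * f j)
    (V' : ValuationSubring F') (hVV : V'.comap (algebraMap F F') = V) (t : F')
    (hgenF : ∀ z : F', z ∈ Subfield.closure (Set.range (algebraMap F F') ∪ {t}))
    (hsep : ∃ P : Polynomial k₁, P.Separable ∧
      P.eval₂ ((algebraMap F F').comp k₁.subtype) t = 0)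
    (hQ : ∃ (_ : IsDiscreteValuationRing
        (lo V'.toSubring (ram (algebraMap F F') (im res O) t)))
      (h : t ∈ lo V'.toSubring (ram (algebraMap F F') (im res O) t)),
      IsLocalRing.maximalIdeal (lo V'.toSubring (ram (algebraMap F F') (im res O) t)) =
        Ideal.span {⟨t, h⟩})
    {Z : Set F'} (hZ : Vert (ram (algebraMap F F') (im res O) t) t
      (algebraMap F F' '' (ev res '' T)) Z)
    (hss : ∀ V₁ : ValuationSubring F', V' ≤ V₁ → V₁.valuation t < 1 →
      ∃ w ∈ bu (algebraMap F F' '' (ev res '' T)) Z, w ≠ 0 ∧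
        (∀ v ∈ bu (algebraMap F F' '' (ev res '' T)) Z, v / w ∈ V₁) ∧
        Semi (lo V₁.toSubring (ch (ram (algebraMap F F') (im res O) t)
          (bu (algebraMap F F' '' (ev res '' T)) Z) w)) t) :
    ∃ (K' : Type u) (_ : Field K') (_ : Algebra K K') (R' : Subring K') (res' : R' →+* F')
      (ϖ : K'), Rl res' ∧ Function.Surjective res' ∧ Compat res res' ∧ ϖ ∈ R' ∧
      ev res' ϖ = t ∧ (∀ z : K', z ∈ Subfield.closure (Set.range (algebraMap K K') ∪ {ϖ})) ∧
      (∃ P : Polynomial k, P.Separable ∧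
        P.eval₂ ((algebraMap K K').comp k.subtype) ϖ = 0) ∧
      (∀ z ∈ R', ∃ q : R[X], z = q.eval₂ ((algebraMap K K').comp R.subtype) ϖ) ∧
      ∃ Y : Set K', Vert (ram (algebraMap K K') O ϖ) ϖ (algebraMap K K' '' T) Y ∧
        ∃ w ∈ bu (algebraMap K K' '' T) Y, w ≠ 0 ∧
          ∀ V₁ : ValuationSubring F', V' ≤ V₁ → V₁.valuation t < 1 →
            (∀ v ∈ bu (algebraMap K K' '' T) Y, v / w ∈ sp res' V₁) ∧
            Semi (lo (sp res' V₁)
              (ch (ram (algebraMap K K') O ϖ) (bu (algebraMap K K' '' T) Y) w)) ϖ := by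
  classical
  -- `k` is contained in `R`
  have hk : k.toSubring ≤ R := by
    intro x hx
    obtain ⟨a, ha, b, hb, hb0, rfl⟩ := hkO x hx
    exact hR.div_mem (hOR ha) (hO0 b hb hb0)
  have hkk : ∀ y ∈ k₁, ∃ x ∈ k, ev res x = y := by
    intro y hy
    rw [hk₁, Subfield.mem_closure_iff] at hy
    obtain ⟨a, ha, b, hb, rfl⟩ := hy
    rw [Subring.closure_eq] at ha hb
    obtain ⟨a, ha', rfl⟩ := (mem_im hOR).1 ha
    obtain ⟨b, hb', rfl⟩ := (mem_im hOR).1 hb
    by_cases hb0 : b = 0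
    · exact ⟨0, zero_mem _, by rw [hb0, ev_zero, div_zero]⟩
    · exact ⟨a / b, div_mem (hOk ha') (hOk hb'), hR.ev_div (hOR ha') (hO0 b hb' hb0)⟩
  obtain ⟨hint, P, hPm, hPF⟩ := exists_poly hk hkk hgeom t hsep
  have hA1R : ch O T u ≤ R := ch_R hR hOR hTR hu0
  have hOA : O ≤ ch O T u := O_le_ch
  have hSR : sp res V ≤ R := sp_le
  have hOS : O ≤ sp res V := fun x hx => ⟨hOR hx, hOV (ev_mem_im hOR hx)⟩
  -- noetherian rings
  have hAn : IsNoetherianRing (ch O T u) := by
    have e : ch O T u = Subring.closure ((O : Set K) ∪ {z | ∃ v ∈ T, z = v / u}) := rfl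
    rw [e]
    refine noeth_adjoin_set hOn ?_
    have e2 : {z | ∃ v ∈ T, z = v / u} = (fun v => v / u) '' T := by
      ext z
      constructor
      · rintro ⟨v, hv, rfl⟩; exact ⟨v, hv, rfl⟩
      · rintro ⟨v, hv, rfl⟩; exact ⟨v, hv, rfl⟩
    rw [e2]
    exact hT.image _
  have hRlo : R = lo R (ch O T u) := by
    apply le_antisymm
    · intro x hx
      obtain ⟨a, ha, b, hb, hb0, rfl⟩ := hfr x hx
      exact ⟨a, ha, b, hb, ne_of_ev res hb0, hR.inv hb0, div_eq_mul_inv _ _⟩
    · exact lo_le hA1R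
  have hRl : Loc R := by
    intro a ha
    by_cases h1 : ev res a ≠ 0
    · exact Or.inl ⟨ne_of_ev res h1, hR.inv h1⟩
    · right
      push Not at h1
      have h2 : ev res (1 - a) ≠ 0 := by
        rw [ev_sub res R.one_mem ha, ev_one, h1, sub_zero]
        exact one_ne_zero
      exact ⟨ne_of_ev res h2, hR.inv h2⟩
  have hRn : IsNoetherianRing R := by
    have h1 := Pool.Agent.N98.T2.noeth_lo hAn hRl hA1R
    rwa [← hRlo] at h1
  have hfR : ∀ x ∈ R, ev res x = 0 → ∃ g : Fin c → K, (∀ i, g i ∈ R) ∧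
      x = ∑ i, g i * f i := by
    intro x hx hx0
    obtain ⟨a, ha, b, hb, hb0, rfl⟩ := hfr x hx
    have ha0 : ev res a = 0 := by
      rw [hR.ev_div (hA1R ha) hb0] at hx0
      rcases div_eq_zero_iff.1 hx0 with h | h
      · exact h
      · exact absurd h hb0
    obtain ⟨d, hd, hd0, g, hg, hgs⟩ := hf a ha ha0
    have hde := hO0 d hd hd0
    have hbK := ne_of_ev res hb0
    refine ⟨fun i => g i / d / b, fun i => hR.div_mem (hR.div_mem (hA1R (hg i)) hde) hb0, ?_⟩
    have e : a / b = d * a / d / b := by field_simp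
    rw [e, hgs, Finset.sum_div, Finset.sum_div]
    refine Finset.sum_congr rfl fun i _ => ?_
    ring
  -- the extension
  set PR : R[X] := P.map (Subring.inclusion hk) with hPR
  have hPRF : PR.map res = minpoly F t := by
    rw [hPR, Polynomial.map_map]
    exact hPF
  obtain ⟨K', _, algK, R', res', ϖ, hR', hs', hdim', hc0, hϖ, hev, hPϖ, hpoly, hK'⟩ :=
    exists_ext hR hs hRn hK f (fun i => hA1R (hfA i)) hf0 hfR hdim t
      (gen_simple t hint hgenF) PR (hPm.map _) hPRF
  have hc : Compat res res' := hc0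
  have hP0 : P.eval₂ ((algebraMap K K').comp k.toSubring.subtype) ϖ = 0 := by
    rw [hPR, eval₂_map] at hPϖ
    exact hPϖ
  have hPm' : P.map (res.comp (Subring.inclusion hk)) = minpoly F (ev res' ϖ) := by
    rw [hev]; exact hPF
  have him : im res' (ram (algebraMap K K') O ϖ) = ram (algebraMap F F') (im res O) t := by
    rw [im_ram hc hϖ hOR, hev]
  -- the valuation of the uniformizer
  have htram : t ∈ ram (algebraMap F F') (im res O) t := Subring.subset_closure (Or.inr rfl)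
  obtain ⟨ht1, ht0⟩ := unif_lt V' htram hQ
  have htV : t ∈ V' := (V'.valuation_le_one_iff _).1 ht1.le
  have hVmem : ∀ x : F, x ∈ V → algebraMap F F' x ∈ V' := by
    intro x hx
    rw [← hVV] at hx
    exact hx
  have hOR' : ram (algebraMap K K') O ϖ ≤ R' := ram_R hc hϖ hOR
  have hramV : ram (algebraMap F F') (im res O) t ≤ V'.toSubring := by
    unfold ram
    rw [Subring.closure_le]
    rintro x (⟨a, ha, rfl⟩ | hx)
    · exact hVmem a (hOV ha)
    · rw [Set.mem_singleton_iff.1 hx]; exact htV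
  have hOS' : ram (algebraMap K K') O ϖ ≤ sp res' V' := by
    intro x hx
    refine ⟨hOR' hx, ?_⟩
    have h1 := ev_mem_im (res := res') hOR' hx
    rw [him] at h1
    exact hramV h1
  have hOn' : IsNoetherianRing (ram (algebraMap K K') O ϖ) := by
    have h1 : IsNoetherianRing (O.map (algebraMap K K')) :=
      isNoetherianRing_of_surjective O _
        ((algebraMap K K').restrict O (O.map _) fun x hx => ⟨x, hx, rfl⟩) (by
          rintro ⟨_, x, hx, rfl⟩
          exact ⟨⟨x, hx⟩, rfl⟩)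
    exact noeth_adjoin_set h1 (Set.finite_singleton ϖ)
  have hTR' : algebraMap K K' '' T ⊆ R' := by
    rintro _ ⟨v, hv, rfl⟩
    exact (hc v (hTR hv)).1
  have hu0' : ev res' (algebraMap K K' u) ≠ 0 := by
    rw [(hc u (hTR hu)).2]
    exact (_root_.map_ne_zero _).2 hu0
  have huV' : ∀ v ∈ algebraMap K K' '' T, v / algebraMap K K' u ∈ sp res' V' := by
    rintro _ ⟨v, hv, rfl⟩
    rw [← map_div₀]
    have h1 := huV v hv
    refine ⟨(hc _ h1.1).1, ?_⟩
    rw [(hc _ h1.1).2]
    exact hVmem _ h1.2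
  have hchr := ch_ram (O := O) (T := T) (u := u) ϖ
  have hfA' : ∀ i, algebraMap K K' (f i) ∈
      ch (ram (algebraMap K K') O ϖ) (algebraMap K K' '' T) (algebraMap K K' u) := by
    intro i
    rw [hchr]
    exact Subring.subset_closure (Or.inl ⟨_, hfA i, rfl⟩)
  have hf0' : ∀ i, ev res' (algebraMap K K' (f i)) = 0 := by
    intro i
    rw [(hc _ (hA1R (hfA i))).2, hf0, map_zero]
  have hfr' := frac_ext hc hϖ hpoly hA1R hfr
  rw [← hchr] at hfr'
  have hgen' := gen_ext hR hc hϖ hk P hPm hP0 hPm' hOk hkO hOA hA1R f hf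
  rw [← hchr] at hgen'
  have hQ' : ∃ (_ : IsDiscreteValuationRing
        (lo V'.toSubring (im res' (ram (algebraMap K K') O ϖ))))
      (h : ev res' ϖ ∈ lo V'.toSubring (im res' (ram (algebraMap K K') O ϖ))),
      IsLocalRing.maximalIdeal (lo V'.toSubring (im res' (ram (algebraMap K K') O ϖ))) =
        Ideal.span {⟨ev res' ϖ, h⟩} := by
    rw [him, hev]
    exact hQ
  have hP' : ∀ a ∈ ch (ram (algebraMap K K') O ϖ) (algebraMap K K' '' T) (algebraMap K K' u),
      ev res' a = 0 → ∃ (n : ℕ) (g : Fin c → K'), (∀ i, g i ∈ lo (sp res' V')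
        (ch (ram (algebraMap K K') O ϖ) (algebraMap K K' '' T) (algebraMap K K' u))) ∧
        ϖ ^ n * a = ∑ i, g i * algebraMap K K' (f i) := by
    intro a ha ha0
    obtain ⟨d, hd, hd0, g, hg, hgs⟩ := hgen' a ha ha0
    obtain ⟨n, y, hy, hyn⟩ := dvd_unif hR' hc hϖ hk P hPm hP0 hPm' hOk V' hQ' hd hd0
    refine ⟨n, fun i => y * g i, fun i => mul_mem (lo_mono O_le_ch hy) (le_lo _ _ (hg i)), ?_⟩
    have e : ϖ ^ n * a = y * (algebraMap K K' d * a) := by
      rw [hyn]; ring
    rw [e, hgs, Finset.mul_sum]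
    exact Finset.sum_congr rfl fun i _ => by ring
  have himT : ev res' '' (algebraMap K K' '' T) = algebraMap F F' '' (ev res '' T) := by
    rw [Set.image_image, Set.image_image]
    exact Set.image_congr fun v hv => (hc v (hTR hv)).2
  obtain ⟨z, hz, hz0, hzV, -⟩ := hss V' le_rfl ht1
  obtain ⟨Y, hY, w, hw, hw0, hwS, hsemi⟩ := lift_up hR' V' hOn' hOS' (hT.image _) hTR'
    ⟨u, hu, rfl⟩ hu0' huV' (Subring.subset_closure (Or.inr rfl)) (by rw [hev]; exact ht0)
    (fun i => algebraMap K K' (f i)) hfA' hf0' hdim' hfr' hP'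
    (Z := Z) (by rw [him, hev, himT]; exact hZ) (z := z) (by rw [himT]; exact hz) hz0
    (by rw [himT]; exact hzV)
  refine ⟨K', inferInstance, algK, R', res', ϖ, hR', hs', hc, hϖ, hev, ?_, ?_, hpoly, Y, hY, w,
    hw, hw0, ?_⟩
  · -- generators of the field
    have key : ∀ x ∈ R', x ∈ Subfield.closure (Set.range (algebraMap K K') ∪ {ϖ}) := by
      intro x hx
      obtain ⟨q, rfl⟩ := hpoly x hx
      have h1 : ∀ y : K, algebraMap K K' y ∈
          Subfield.closure (Set.range (algebraMap K K') ∪ {ϖ}) := fun y =>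
        Subfield.subset_closure (Or.inl ⟨y, rfl⟩)
      have h2 : ϖ ∈ Subfield.closure (Set.range (algebraMap K K') ∪ {ϖ}) :=
        Subfield.subset_closure (Or.inr rfl)
      rw [eval₂_eq_sum_range]
      exact sum_mem fun i _ => mul_mem (h1 _) (pow_mem h2 i)
    intro x
    obtain ⟨a, ha, b, hb, -, rfl⟩ := hK' x
    exact div_mem (key a ha) (key b hb)
  · -- separability
    let e : k.toSubring →+* k := k.toSubring.subtype.codRestrict k fun x => x.2
    let κ : k →+* F := res.comp (k.subtype.codRestrict R fun x => hk x.2)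
    have h1 : (P.map e).map κ = minpoly F t := by
      rw [Polynomial.map_map, ← hPF]
      rfl
    refine ⟨P.map e, ?_, ?_⟩
    · rw [← Polynomial.separable_map κ, h1]
      obtain ⟨P₁, hP₁, hP₁0⟩ := hsep
      have h2 : (P₁.map k₁.subtype).Separable := (Polynomial.separable_map _).2 hP₁
      refine h2.of_dvd (minpoly.dvd F t ?_)
      rw [aeval_def, eval₂_map]
      exact hP₁0
    · rw [eval₂_map]
      exact hP0
  · intro V₁ hV₁ hV₁t
    refine ⟨fun v hv => sp_mono hV₁ (hwS v hv), hsemi V₁ hV₁ ?_⟩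
    obtain ⟨w₁, hw₁, hw₁0, hw₁V, hw₁s⟩ := hss V₁ hV₁ hV₁t
    rw [him, himT, hev]
    have h2 : lo V₁.toSubring (ch (ram (algebraMap F F') (im res O) t)
        (bu (algebraMap F F' '' (ev res '' T)) Z) z) =
        lo V₁.toSubring (ch (ram (algebraMap F F') (im res O) t)
        (bu (algebraMap F F' '' (ev res '' T)) Z) w₁) :=
      lo_ch_eq (S := V₁.toSubring) (hramV.trans hV₁) hz hw₁ hz0 hw₁0
        (fun v hv => hV₁ (hzV v hv)) hw₁V
    rw [h2]
    exact hw₁s

end Pool.Agent.V5helper88.SP
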