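import Pool.Agent.V5helper88.SP.Up

/-!
Lifting of a blowing-up of the support to the ambient model, general case.
-/

set_option autoImplicit false

open Pointwise Pool.Agent.W418.LU2 IsLocalRing

universe u

namespace Pool.Agent.V5helper88.SP

variable {K F : Type u} [Field K] [Field F] {R : Subring K} {res : R →+* F}
  {O : Subring K} {T : Set K} {u w : K}

lemma ch_noeth (hOn : IsNoetherianRing O) (hT : T.Finite) : IsNoetherianRing (ch O T w) := by
  have e : ch O T w = Subring.closure ((O : Set K) ∪ {z | ∃ v ∈ T, z = v / w}) := rfl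
  rw [e]
  refine noeth_adjoin_set hOn ?_
  have e2 : {z | ∃ v ∈ T, z = v / w} = (fun v => v / w) '' T := by
    ext z
    constructor
    · rintro ⟨v, hv, rfl⟩; exact ⟨v, hv, rfl⟩
    · rintro ⟨v, hv, rfl⟩; exact ⟨v, hv, rfl⟩
  rw [e2]
  exact hT.image _

/-- The last blowing-up. -/
theorem finish (hR : Rl res) (V : ValuationSubring F) (hOn : IsNoetherianRing O)
    (hT : T.Finite) (hw : w ∈ T) (hw0 : w ≠ 0) (hBS : ch O T w ≤ sp res V)
    {p : K} (hp : p ∈ O) (hp0 : ev res p ≠ 0)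
    {c : ℕ} (f : Fin c → K) (hfB : ∀ i, f i ∈ lo (sp res V) (ch O T w))
    (hf0 : ∀ i, ev res (f i) = 0)
    (hdim : (c : WithBot ℕ∞) ≤ ringKrullDim R)
    (hfrB : ∀ x ∈ R, ∃ a ∈ ch O T w, ∃ b ∈ ch O T w, ev res b ≠ 0 ∧ x = a / b)
    (hgen0 : ∀ a ∈ ch O T w, ev res a = 0 → ∃ (n : ℕ) (g : Fin c → K),
      (∀ i, g i ∈ lo (sp res V) (ch O T w)) ∧ p ^ n * a = ∑ i, g i * f i) :
    ∃ Y : Set K, Vert O p T Y ∧ ∃ w' ∈ bu T Y, w' ≠ 0 ∧
      (∀ v ∈ bu T Y, v / w' ∈ sp res V) ∧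
      ∀ V₁ : ValuationSubring F, V ≤ V₁ →
        Semi (lo V₁.toSubring (im res (ch O T w))) (ev res p) →
        Semi (lo (sp res V₁) (ch O (bu T Y) w')) p := by
  set B := ch O T w with hB
  have hSR : sp res V ≤ R := sp_le
  have hBR : B ≤ R := hBS.trans hSR
  have hOR : O ≤ R := O_le_ch.trans hBR
  have hpK : p ≠ 0 := ne_of_ev res hp0
  have hfd : ∀ i, ∃ a ∈ B, ∃ s ∈ B, s ≠ 0 ∧ s⁻¹ ∈ sp res V ∧ f i = a * s⁻¹ := fun i => hfB i
  choose b hbB s hsB hs0 hsS hfs using hfd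
  have hse : ∀ i, ev res (s i) ≠ 0 := fun i => ev_ne_of_inv (hBR (hsB i)) (hSR (hsS i)) (hs0 i)
  have hbe : ∀ i, ev res (b i) = 0 := fun i => by
    have h1 := hf0 i
    rw [hfs, ev_mul res (hBR (hbB i)) (hSR (hsS i)), hR.ev_inv (hse i)] at h1
    rcases mul_eq_zero.1 h1 with h | h
    · exact h
    · exact absurd (inv_eq_zero.1 h) (hse i)
  have hgen1 : ∀ x ∈ B, ev res x = 0 → ∃ (M : ℕ) (g : Fin c → K),
      (∀ i, g i ∈ lo (sp res V) B) ∧ p ^ M * x = ∑ i, g i * b i := by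
    intro x hx hx0
    obtain ⟨n, g, hg, hgx⟩ := hgen0 x hx hx0
    refine ⟨n, fun i => g i * (s i)⁻¹, fun i => mul_mem (hg i)
      (inv_mem_lo hBS (le_lo _ _ (hsB i)) (hs0 i) (hsS i)), ?_⟩
    rw [hgx]
    refine Finset.sum_congr rfl fun i _ => ?_
    rw [hfs i]
    ring
  have hBn : IsNoetherianRing B := ch_noeth hOn hT
  have hpB : p ∈ B := O_le_ch hp
  obtain ⟨M, hM⟩ := unif_gen hR V B hBn hBS b hbB p hpB hgen1
  set G : Set K := {p ^ (M + 1)} ∪ Set.range b with hG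
  have hGf : G.Finite := (Set.finite_singleton _).union (Set.finite_range b)
  have hGB : ∀ g ∈ G, g ∈ B := by
    rintro g (hg | ⟨i, rfl⟩)
    · rw [Set.mem_singleton_iff.1 hg]
      exact pow_mem hpB _
    · exact hbB i
  obtain ⟨e, he⟩ := ch_form_fin (O := O) hw hw0 hGf hGB
  have ha0 : p ^ (M + 1) ≠ 0 := pow_ne_zero _ hpK
  have haG : p ^ (M + 1) ∈ G := Or.inl rfl
  obtain ⟨hV2, hch2⟩ := bu_ch hT hw hw0 hp (M + 1) hGf haG ha0 he
  set Y₂ : Set K := (fun m => p ^ (M + 1) * m) '' (T ^ e) ∪ (fun g => g * w ^ e) '' G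
    with hY₂
  have hch3 : ch O (bu T Y₂) (p ^ (M + 1) * w ^ e * w) =
      Subring.closure ((B : Set K) ∪ Set.range fun i => b i / p ^ (M + 1)) := by
    rw [hch2]
    apply le_antisymm
    · rw [Subring.closure_le]
      rintro x (hx | hx | ⟨g, (hg | ⟨i, rfl⟩), rfl⟩)
      · exact Subring.subset_closure (Or.inl hx)
      · rw [Set.mem_singleton_iff.1 hx, div_self ha0]
        exact one_mem _
      · rw [Set.mem_singleton_iff.1 hg]
        simp only []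
        rw [div_self ha0]
        exact one_mem _
      · exact Subring.subset_closure (Or.inr ⟨i, rfl⟩)
    · rw [Subring.closure_le]
      rintro x (hx | ⟨i, rfl⟩)
      · exact Subring.subset_closure (Or.inl hx)
      · exact Subring.subset_closure (Or.inr (Or.inr ⟨b i, Or.inr ⟨i, rfl⟩, rfl⟩))
  have hpe : ev res (p ^ (M + 1)) ≠ 0 := by
    rw [ev_pow res (hOR hp)]
    exact pow_ne_zero _ hp0
  have hle : Subring.closure ((B : Set K) ∪ Set.range fun i => b i / p ^ (M + 1)) ≤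
      sp res V := by
    rw [Subring.closure_le]
    rintro x (hx | ⟨i, rfl⟩)
    · exact hBS hx
    · refine ⟨hR.div_mem (hBR (hbB i)) hpe, ?_⟩
      simp only []
      rw [hR.ev_div (hBR (hbB i)) hpe, hbe, zero_div]
      exact zero_mem _
  refine ⟨Y₂, hV2, p ^ (M + 1) * w ^ e * w, ?_, ?_, ?_, ?_⟩
  · exact ⟨p ^ (M + 1) * w ^ e, Or.inr ⟨_, haG, rfl⟩, w, hw, rfl⟩
  · exact mul_ne_zero (mul_ne_zero ha0 (pow_ne_zero _ hw0)) hw0
  · intro v hv
    apply hle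
    rw [← hch3]
    exact div_mem_ch hv
  · intro V₁ hV₁ hsemi
    rw [hch3]
    refine semi_up hR V₁ B hBn (hBS.trans (sp_mono hV₁)) hfrB b hbB hbe hdim p hpB hp0 M ?_
      hsemi
    intro x hx hx0
    obtain ⟨g, hg, hgx⟩ := hM x hx hx0
    exact ⟨g, fun i => lo_mono_left (sp_mono hV₁) (hg i), hgx⟩

lemma lo_lo_le {S B C : Subring K} (hB : B ≤ S) (h : C ≤ lo S B) :
    lo S C ≤ lo S B := by
  rintro x ⟨a, ha, b, hb, hb0, hbS, rfl⟩
  exact mul_mem (h ha) (inv_mem_lo hB (h hb) hb0 hbS)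

/-- Uniformization of the support gives uniformization of the ambient scheme, general case. -/
theorem lift_up2 (hR : Rl res) (V : ValuationSubring F) (hOn : IsNoetherianRing O)
    (hOS : O ≤ sp res V) (hT : T.Finite) (hTR : T ⊆ R) (hu : u ∈ T) (hu0 : ev res u ≠ 0)
    (huV : ∀ v ∈ T, v / u ∈ sp res V) {p : K} (hp : p ∈ O) (hp0 : ev res p ≠ 0)
    {c : ℕ} (f : Fin c → K) (hfA : ∀ i, f i ∈ ch O T u) (hf0 : ∀ i, ev res (f i) = 0)
    (hdim : (c : WithBot ℕ∞) ≤ ringKrullDim R)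
    (hfr : ∀ x ∈ R, ∃ a ∈ ch O T u, ∃ b ∈ ch O T u, ev res b ≠ 0 ∧ x = a / b)
    {s : K} (hsA : s ∈ ch O T u) (hse : ev res s ≠ 0) {j : ℕ}
    (hqS : p ^ j / s ∈ sp res V) (hqV : ev res (p ^ j / s) ∈ lo V.toSubring (im res O))
    (hP : ∀ a ∈ ch O T u, ev res a = 0 → ∃ (n : ℕ) (g : Fin c → K),
      (∀ i, g i ∈ lo (sp res V) (ch O T u)) ∧ p ^ n * (s * a) = ∑ i, g i * f i)
    {Z : Set F} (hZ : Vert (im res O) (ev res p) (ev res '' T) Z) {z : F}
    (hz : z ∈ bu (ev res '' T) Z) (hz0 : z ≠ 0)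
    (hzV : ∀ a ∈ bu (ev res '' T) Z, a / z ∈ V) :
    ∃ Y : Set K, Vert O p T Y ∧ ∃ w ∈ bu T Y, w ≠ 0 ∧ (∀ v ∈ bu T Y, v / w ∈ sp res V) ∧
      ∀ V₁ : ValuationSubring F, V ≤ V₁ →
        Semi (lo V₁.toSubring (ch (im res O) (bu (ev res '' T) Z) z)) (ev res p) →
        Semi (lo (sp res V₁) (ch O (bu T Y) w)) p := by
  have hSR : sp res V ≤ R := sp_le
  have hOR : O ≤ R := hOS.trans hSR
  have hu00 : u ≠ 0 := ne_of_ev res hu0
  have hs00 : s ≠ 0 := ne_of_ev res hse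
  have hpK : p ≠ 0 := ne_of_ev res hp0
  have hOV : im res O ≤ V.toSubring := by
    intro x hx
    obtain ⟨o, ho, rfl⟩ := (mem_im hOR).1 hx
    exact (hOS ho).2
  obtain ⟨Y₁, hY₁, y₀, hy₀, v₀, hv₀, hev, hbR, him⟩ := lift_vert hR hOR hT hTR hp hZ hz hz0
  set w2 := y₀ * v₀ with hw2
  have hw2e : ev res w2 ≠ 0 := by rw [hev]; exact hz0
  have hw20 : w2 ≠ 0 := ne_of_ev res hw2e
  have hw2m : w2 ∈ bu T Y₁ := ⟨y₀, hy₀, v₀, hv₀, rfl⟩
  have hzch : ch (im res O) (bu (ev res '' T) Z) z ≤ V.toSubring := by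
    unfold ch
    rw [Subring.closure_le]
    rintro x (hx | ⟨a, ha, rfl⟩)
    · exact hOV hx
    · exact hzV a ha
  set B := ch O (bu T Y₁) w2 with hB
  have hBR : B ≤ R := ch_R hR hOR hbR hw2e
  have hBS : B ≤ sp res V := fun x hx => ⟨hBR hx, by
    have h1 := ev_mem_im (res := res) hBR hx
    rw [him] at h1
    exact hzch h1⟩
  have hS : ∀ a ∈ bu T Y₁, a / w2 ∈ sp res V := fun a ha => hBS (div_mem_ch ha)
  have hAlo : ch O T u ≤ lo (sp res V) B := ch_le_lo hu hu00 huV hOS hy₀ hv₀ hw20 hS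
  -- the ideal of the support, up to `s`
  have hP' : ∀ a ∈ ch O T u, ev res a = 0 → ∃ (n : ℕ) (g : Fin c → K),
      (∀ i, g i ∈ lo (sp res V) (ch O T u)) ∧ p ^ n * a = ∑ i, g i * (f i / s) := by
    intro a ha ha0
    obtain ⟨n, g, hg, hgs⟩ := hP a ha ha0
    refine ⟨n, g, hg, ?_⟩
    have e : p ^ n * a = p ^ n * (s * a) / s := by field_simp
    rw [e, hgs, Finset.sum_div]
    exact Finset.sum_congr rfl fun i _ => by ring
  have hgen0 := gen_B hR hSR hOS hTR hu hu0 huV hp (fun i => f i / s) hP' hY₁ hy₀ hv₀ hw20 hS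
  -- the blowing-up of `(s, p ^ j)`
  obtain ⟨s₁, hs₁, s₂, hs₂, hs₂0, hs₂S, hss⟩ := hAlo hsA
  have hs₂e : ev res s₂ ≠ 0 := ev_ne_of_inv (hBR hs₂) (hSR hs₂S) hs₂0
  have hs₁0 : s₁ ≠ 0 := by
    rintro rfl
    rw [zero_mul] at hss
    exact hs00 hss
  have hs₁e : ev res s₁ ≠ 0 := by
    have e : s₁ = s * s₂ := by rw [hss]; field_simp
    have hsR : s ∈ R := mem_of_ev res hse
    rw [e, ev_mul res hsR (hBR hs₂)]
    exact mul_ne_zero hse hs₂e
  have hq₁ : p ^ j / s₁ = p ^ j / s * s₂⁻¹ := by rw [hss]; field_simp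
  have hq₁S : p ^ j / s₁ ∈ sp res V := by rw [hq₁]; exact mul_mem hqS hs₂S
  have hq₁V : ev res (p ^ j / s₁) ∈ lo V.toSubring (im res B) := by
    rw [hq₁, ev_mul res (hSR hqS) (hSR hs₂S), hR.ev_inv hs₂e]
    have hBV : im res B ≤ V.toSubring := by rw [him]; exact hzch
    have h1 : im res O ≤ im res B := by
      intro x hx
      obtain ⟨o, ho, rfl⟩ := (mem_im hOR).1 hx
      exact ev_mem_im hBR (O_le_ch ho)
    refine mul_mem (lo_mono h1 hqV) (inv_mem_lo hBV (le_lo _ _ (ev_mem_im hBR hs₂)) hs₂e ?_)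
    rw [← hR.ev_inv hs₂e]
    exact hs₂S.2
  have hGf : ({s₁} : Set K).Finite := Set.finite_singleton _
  obtain ⟨e, he⟩ := ch_form_fin (O := O) hw2m hw20 hGf (by
    intro g hg
    rw [Set.mem_singleton_iff.1 hg]
    exact hs₁)
  obtain ⟨hV2, hch2⟩ := bu_ch (bu_finite hT hY₁.1) hw2m hw20 hp j hGf
    (Set.mem_singleton s₁) hs₁0 he
  set Y₂ : Set K := (fun m => p ^ j * m) '' ((bu T Y₁) ^ e) ∪ (fun g => g * w2 ^ e) '' {s₁}
    with hY₂
  set w3 := s₁ * w2 ^ e * w2 with hw3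
  have hw30 : w3 ≠ 0 := mul_ne_zero (mul_ne_zero hs₁0 (pow_ne_zero _ hw20)) hw20
  have hw3m : w3 ∈ bu (bu T Y₁) Y₂ :=
    ⟨s₁ * w2 ^ e, Or.inr ⟨s₁, rfl, rfl⟩, w2, hw2m, rfl⟩
  have hT2f : (bu (bu T Y₁) Y₂).Finite := bu_finite (bu_finite hT hY₁.1) hV2.1
  set C := ch O (bu (bu T Y₁) Y₂) w3 with hC
  have hCe : C = Subring.closure ((B : Set K) ∪ {p ^ j / s₁}) := by
    rw [hch2]
    apply le_antisymm
    · rw [Subring.closure_le]
      rintro x (hx | hx | ⟨g, hg, rfl⟩)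
      · exact Subring.subset_closure (Or.inl hx)
      · exact Subring.subset_closure (Or.inr hx)
      · rw [Set.mem_singleton_iff.1 hg]
        simp only []
        rw [div_self hs₁0]
        exact one_mem _
    · refine Subring.closure_mono (Set.union_subset_union_right _ ?_)
      exact fun x hx => Or.inl hx
  have hBC : B ≤ C := by
    rw [hCe]
    exact fun x hx => Subring.subset_closure (Or.inl hx)
  have hqC : p ^ j / s₁ ∈ C := by
    rw [hCe]
    exact Subring.subset_closure (Or.inr rfl)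
  have hCS : C ≤ sp res V := by
    rw [hCe, Subring.closure_le]
    rintro x (hx | hx)
    · exact hBS hx
    · rw [Set.mem_singleton_iff.1 hx]; exact hq₁S
  have hCR : C ≤ R := hCS.trans hSR
  have hBCi : im res B ≤ im res C := by
    intro x hx
    obtain ⟨b, hb, rfl⟩ := (mem_im hBR).1 hx
    exact ev_mem_im hCR (hBC hb)
  have hCBi : im res C ≤ lo V.toSubring (im res B) := by
    intro x hx
    obtain ⟨b, hb, rfl⟩ := (mem_im hCR).1 hx
    clear hx
    rw [hCe] at hb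
    induction hb using Subring.closure_induction with
    | mem x hx =>
      rcases hx with hx | hx
      · exact le_lo _ _ (ev_mem_im hBR hx)
      · rw [Set.mem_singleton_iff.1 hx]; exact hq₁V
    | zero => rw [ev_zero]; exact zero_mem _
    | one => rw [ev_one]; exact one_mem _
    | add x y hx' hy' hx hy =>
      rw [← hCe] at hx' hy'
      rw [ev_add res (hCR hx') (hCR hy')]; exact add_mem hx hy
    | neg x hx' hx =>
      rw [← hCe] at hx'
      rw [ev_neg res (hCR hx')]; exact neg_mem hx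
    | mul x y hx' hy' hx hy =>
      rw [← hCe] at hx' hy'
      rw [ev_mul res (hCR hx') (hCR hy')]; exact mul_mem hx hy
  -- powers of `s₁`
  have hkey : ∀ a ∈ C, ∃ i : ℕ, s₁ ^ i * a ∈ B := by
    intro a ha
    rw [hCe] at ha
    induction ha using Subring.closure_induction with
    | mem x hx =>
      rcases hx with hx | hx
      · exact ⟨0, by rw [pow_zero, one_mul]; exact hx⟩
      · refine ⟨1, ?_⟩
        rw [Set.mem_singleton_iff.1 hx, pow_one, mul_div_cancel₀ _ hs₁0]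
        exact pow_mem (O_le_ch hp) j
    | zero => exact ⟨0, by rw [mul_zero]; exact zero_mem _⟩
    | one => exact ⟨0, by rw [pow_zero, one_mul]; exact one_mem _⟩
    | add x y _ _ hx hy =>
      obtain ⟨i, hi⟩ := hx
      obtain ⟨k, hk⟩ := hy
      refine ⟨i + k, ?_⟩
      have e : s₁ ^ (i + k) * (x + y) = s₁ ^ k * (s₁ ^ i * x) + s₁ ^ i * (s₁ ^ k * y) := by ring
      rw [e]
      exact add_mem (mul_mem (pow_mem hs₁ k) hi) (mul_mem (pow_mem hs₁ i) hk)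
    | neg x _ hx =>
      obtain ⟨i, hi⟩ := hx
      exact ⟨i, by rw [mul_neg]; exact neg_mem hi⟩
    | mul x y _ _ hx hy =>
      obtain ⟨i, hi⟩ := hx
      obtain ⟨k, hk⟩ := hy
      refine ⟨i + k, ?_⟩
      have e : s₁ ^ (i + k) * (x * y) = s₁ ^ i * x * (s₁ ^ k * y) := by ring
      rw [e]
      exact mul_mem hi hk
  have hloBC : lo (sp res V) B ≤ lo (sp res V) C := lo_mono hBC
  have hqC' : p ^ j / s ∈ lo (sp res V) C := by
    have e : p ^ j / s = p ^ j / s₁ * s₂ := by rw [hq₁]; field_simp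
    rw [e]
    exact mul_mem (le_lo _ _ hqC) (le_lo _ _ (hBC hs₂))
  have hgenC : ∀ a ∈ C, ev res a = 0 → ∃ (n : ℕ) (g : Fin c → K),
      (∀ i, g i ∈ lo (sp res V) C) ∧ p ^ n * a = ∑ i, g i * f i := by
    intro a ha ha0
    obtain ⟨i, hi⟩ := hkey a ha
    have h0 : ev res (s₁ ^ i * a) = 0 := by
      rw [ev_mul res (hBR (pow_mem hs₁ i)) (hCR ha), ha0, mul_zero]
    obtain ⟨n, g, hg, hgs⟩ := hgen0 _ hi h0
    refine ⟨n + j * i + j, fun l => (p ^ j / s₁) ^ i * (p ^ j / s) * g l, fun l =>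
      mul_mem (mul_mem (pow_mem (le_lo _ _ hqC) i) hqC') (hloBC (hg l)), ?_⟩
    have e : p ^ (n + j * i + j) * a = (p ^ j / s₁) ^ i * p ^ j * (p ^ n * (s₁ ^ i * a)) := by
      rw [div_pow, pow_add, pow_add, pow_mul]
      field_simp
    rw [e, hgs, Finset.mul_sum]
    exact Finset.sum_congr rfl fun l _ => by ring
  have hfrC : ∀ x ∈ R, ∃ a ∈ C, ∃ b ∈ C, ev res b ≠ 0 ∧ x = a / b := by
    intro x hx
    obtain ⟨a, ha, d, hd, hd0, rfl⟩ := hfr x hx
    obtain ⟨a1, ha1, s1, hs1, hs10, hs1S, rfl⟩ := hAlo ha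
    obtain ⟨a2, ha2, s2, hs2, hs20, hs2S, rfl⟩ := hAlo hd
    have h1 : ev res s1 ≠ 0 := ev_ne_of_inv (hBR hs1) (hSR hs1S) hs10
    have h2 : ev res a2 ≠ 0 := by
      intro h
      apply hd0
      rw [ev_mul res (hBR ha2) (hSR hs2S), h, zero_mul]
    have h3 := ne_of_ev res h2
    refine ⟨a1 * s2, hBC (mul_mem ha1 hs2), s1 * a2, hBC (mul_mem hs1 ha2), ?_, ?_⟩
    · rw [ev_mul res (hBR hs1) (hBR ha2)]
      exact mul_ne_zero h1 h2
    · field_simp
  obtain ⟨Y₃, hY₃, w4, hw4, hw40, hw4S, hsemi⟩ := finish hR V hOn hT2f hw3m hw30 hCS hp hp0 f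
    (fun i => hloBC (hAlo (hfA i))) hf0 hdim hfrC hgenC
  obtain ⟨hV4, hbu1⟩ := vert_comp hp hY₁ hV2
  rw [hbu1] at hY₃ hw4 hw4S hsemi
  obtain ⟨hV5, hbu2⟩ := vert_comp hp hV4 hY₃
  rw [hbu2] at hw4 hw4S hsemi
  refine ⟨Y₃ * (Y₂ * Y₁), hV5, w4, hw4, hw40, hw4S, ?_⟩
  intro V₁ hV₁ hs
  refine hsemi V₁ hV₁ ?_
  have h1 : lo V₁.toSubring (im res C) = lo V₁.toSubring (im res B) := by
    have hBV₁ : im res B ≤ V₁.toSubring := by
      rw [him]
      exact hzch.trans hV₁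
    apply le_antisymm
    · exact lo_lo_le hBV₁ (hCBi.trans (lo_mono_left hV₁))
    · exact lo_mono hBCi
  have h2 : ch O (bu T (Y₂ * Y₁)) w3 = C := by rw [hC, hbu1]
  rw [h2, h1, him]
  exact hs

end Pool.Agent.V5helper88.SP
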