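import Pool.Agent.V5helper88.SP.Main
import Pool.Agent.V5helper88.SP.Up2
import Pool.Agent.V5helper88.SP.Ext2
import Pool.Agent.V5helper88.SP.Gen3

/-!
Transfer of uniformization from the support to the ambient scheme, general case.
-/

set_option autoImplicit false

open Pointwise Pool.Agent.W418.LU2 Polynomial

universe u

namespace Pool.Agent.V5helper88.SP

section

variable {K F K' F' : Type u} [Field K] [Field F] [Field K'] [Field F'] [Algebra K K']
  [Algebra F F'] {R : Subring K} {res : R →+* F} {R' : Subring K'} {res' : R' →+* F'}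
  {ϖ : K'}

/-- Elements of `O` divide powers of the uniformizer. -/
theorem dvd_unif2 (hR' : Rl res') (hc : Compat res res') (hϖ : ϖ ∈ R') {k : Subfield K}
    (hk : k.toSubring ≤ R)
    {O : Subring K} (hOk : O ≤ k.toSubring)
    (hinj : ∀ x ∈ ram (algebraMap K K') O ϖ, ev res' x = 0 → x = 0) (V' : ValuationSubring F')
    (hQ : ∃ (_ : IsDiscreteValuationRing
        (lo V'.toSubring (im res' (ram (algebraMap K K') O ϖ))))
      (h : ev res' ϖ ∈ lo V'.toSubring (im res' (ram (algebraMap K K') O ϖ))),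
      IsLocalRing.maximalIdeal (lo V'.toSubring (im res' (ram (algebraMap K K') O ϖ))) =
        Ideal.span {⟨ev res' ϖ, h⟩}) {d : K} (hd : d ∈ O) (hd0 : d ≠ 0) :
    ∃ n : ℕ, ∃ y ∈ lo (sp res' V') (ram (algebraMap K K') O ϖ),
      ϖ ^ n = algebraMap K K' d * y := by
  have hOR : O ≤ R := hOk.trans hk
  have hRR := ram_R hc hϖ hOR
  set O' := ram (algebraMap K K') O ϖ with hO'
  set Q := lo V'.toSubring (im res' O') with hQdef
  obtain ⟨hdvr, hϖQ, hmax⟩ := hQ
  have hdO' : algebraMap K K' d ∈ O' := Subring.subset_closure (Or.inl ⟨d, hd, rfl⟩)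
  have hϖO' : ϖ ∈ O' := Subring.subset_closure (Or.inr rfl)
  have hde : ev res d ≠ 0 := by
    have h1 : d⁻¹ ∈ R := hk (k.inv_mem (hOk hd))
    exact ev_ne_of_inv (hOR hd) h1 hd0
  have hde' : ev res' (algebraMap K K' d) ≠ 0 := by
    rw [(hc d (hOR hd)).2]
    exact (_root_.map_ne_zero _).2 hde
  let x : Q := ⟨ev res' (algebraMap K K' d), le_lo _ _ (ev_mem_im hRR hdO')⟩
  have hx0 : x ≠ 0 := fun h => hde' (congrArg Subtype.val h)
  have hirr : Irreducible (⟨ev res' ϖ, hϖQ⟩ : Q) :=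
    (IsDiscreteValuationRing.irreducible_iff_uniformizer _).2 hmax
  obtain ⟨n, u, hu⟩ := IsDiscreteValuationRing.associated_pow_irreducible hx0 hirr
  have hu' : ev res' (algebraMap K K' d) * ((u : Q) : F') = ev res' ϖ ^ n :=
    congrArg Subtype.val hu
  obtain ⟨a, ha, b, hb, hb0, hbV, hab⟩ := (u : Q).2
  obtain ⟨a, ha', rfl⟩ := (mem_im hRR).1 ha
  obtain ⟨b, hb', rfl⟩ := (mem_im hRR).1 hb
  have hbS : b⁻¹ ∈ sp res' V' := hR'.inv_sp hb0 hbV
  have hb00 : b ≠ 0 := ne_of_ev res' hb0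
  have h1 : ev res' (ϖ ^ n * b - algebraMap K K' d * a) = 0 := by
    rw [ev_sub res' (mul_mem (pow_mem hϖ n) (hRR hb')) (mul_mem (hRR hdO') (hRR ha')),
      ev_mul res' (pow_mem hϖ n) (hRR hb'), ev_mul res' (hRR hdO') (hRR ha'),
      ev_pow res' hϖ, ← hu', hab]
    field_simp
    ring
  have h2 := hinj _ (sub_mem (mul_mem (pow_mem hϖO' n) hb')
    (mul_mem hdO' ha')) h1
  refine ⟨n, a * b⁻¹, ⟨a, ha', b, hb', hb00, hbS, rfl⟩, ?_⟩
  rw [sub_eq_zero] at h2
  field_simp
  exact h2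

/-- Polynomials in `ϖ` over `R` are fractions. -/
lemma frac_poly (hc : Compat res res') (hϖ : ϖ ∈ R') {B : Subring K} (hBR : B ≤ R)
    (hfr : ∀ x ∈ R, ∃ a ∈ B, ∃ b ∈ B, ev res b ≠ 0 ∧ x = a / b) (q : R[X]) :
    ∃ a ∈ Subring.closure ((B.map (algebraMap K K') : Set K') ∪ {ϖ}),
      ∃ b ∈ Subring.closure ((B.map (algebraMap K K') : Set K') ∪ {ϖ}),
        ev res' b ≠ 0 ∧ q.eval₂ ((algebraMap K K').comp R.subtype) ϖ = a / b := by
  set B' := Subring.closure ((B.map (algebraMap K K') : Set K') ∪ {ϖ}) with hB'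
  have hBB' : ∀ a ∈ B, algebraMap K K' a ∈ B' := fun a ha =>
    Subring.subset_closure (Or.inl ⟨a, ha, rfl⟩)
  have hϖB : ϖ ∈ B' := Subring.subset_closure (Or.inr rfl)
  have hBR' : B' ≤ R' := by
    rw [hB', Subring.closure_le]
    rintro z (⟨a, ha, rfl⟩ | hz)
    · exact (hc a (hBR ha)).1
    · rw [Set.mem_singleton_iff.1 hz]; exact hϖ
  induction q using Polynomial.induction_on with
  | C a =>
    obtain ⟨x, hx, y, hy, hy0, hxy⟩ := hfr a a.2
    refine ⟨_, hBB' x hx, _, hBB' y hy, ?_, ?_⟩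
    · rw [(hc y (hBR hy)).2]
      exact (_root_.map_ne_zero _).2 hy0
    · rw [eval₂_C, RingHom.comp_apply, Subring.coe_subtype, hxy, map_div₀]
  | add p q hp hq =>
    obtain ⟨a, ha, b, hb, hb0, hab⟩ := hp
    obtain ⟨a', ha', b', hb', hb0', hab'⟩ := hq
    refine ⟨a * b' + a' * b, add_mem (mul_mem ha hb') (mul_mem ha' hb), b * b',
      mul_mem hb hb', ?_, ?_⟩
    · rw [ev_mul res' (hBR' hb) (hBR' hb')]
      exact mul_ne_zero hb0 hb0'
    · have h1 := ne_of_ev res' hb0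
      have h2 := ne_of_ev res' hb0'
      rw [eval₂_add, hab, hab']
      field_simp
  | monomial n a h =>
    obtain ⟨x, hx, y, hy, hy0, hxy⟩ := h
    have e : (C a * X ^ (n + 1) : R[X]) = C a * X ^ n * X := by rw [pow_succ, mul_assoc]
    refine ⟨x * ϖ, mul_mem hx hϖB, y, hy, hy0, ?_⟩
    rw [e, eval₂_mul, eval₂_X, hxy]
    ring

/-- Elements of `R'` are fractions. -/
lemma frac_ext2 (hc : Compat res res') (hϖ : ϖ ∈ R')
    (hpoly : ∀ z ∈ R', ∃ q s : R[X],
      ev res' (s.eval₂ ((algebraMap K K').comp R.subtype) ϖ) ≠ 0 ∧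
      z = q.eval₂ ((algebraMap K K').comp R.subtype) ϖ /
        s.eval₂ ((algebraMap K K').comp R.subtype) ϖ)
    {B : Subring K} (hBR : B ≤ R)
    (hfr : ∀ x ∈ R, ∃ a ∈ B, ∃ b ∈ B, ev res b ≠ 0 ∧ x = a / b) :
    ∀ x ∈ R', ∃ a ∈ Subring.closure ((B.map (algebraMap K K') : Set K') ∪ {ϖ}),
      ∃ b ∈ Subring.closure ((B.map (algebraMap K K') : Set K') ∪ {ϖ}),
        ev res' b ≠ 0 ∧ x = a / b := by
  intro z hz
  obtain ⟨q, s, hs, rfl⟩ := hpoly z hz
  obtain ⟨a, ha, b, hb, hb0, hab⟩ := frac_poly hc hϖ hBR hfr q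
  obtain ⟨a', ha', b', hb', hb0', hab'⟩ := frac_poly hc hϖ hBR hfr s
  have hBR' : Subring.closure ((B.map (algebraMap K K') : Set K') ∪ {ϖ}) ≤ R' := by
    rw [Subring.closure_le]
    rintro z (⟨a, ha, rfl⟩ | hz)
    · exact (hc a (hBR ha)).1
    · rw [Set.mem_singleton_iff.1 hz]; exact hϖ
  have h1 := ne_of_ev res' hb0
  have h2 := ne_of_ev res' hb0'
  have ha0' : ev res' a' ≠ 0 := by
    intro h
    apply hs
    have e : a' = s.eval₂ ((algebraMap K K').comp R.subtype) ϖ * b' := by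
      rw [hab']; field_simp
    rw [e, ev_mul res' (mem_of_ev res' hs) (hBR' hb')] at h
    rcases mul_eq_zero.1 h with h | h
    · exact h
    · exact absurd h hb0'
  have h3 := ne_of_ev res' ha0'
  refine ⟨a * b', mul_mem ha hb', b * a', mul_mem hb ha', ?_, ?_⟩
  · rw [ev_mul res' (hBR' hb) (hBR' ha')]
    exact mul_ne_zero hb0 ha0'
  · rw [hab, hab']
    field_simp

end

/-- The minimal polynomial of the uniformizer over `k`. -/
lemma exists_poly2 {K F F' : Type u} [Field K] [Field F] [Field F'] [Algebra F F']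
    {R : Subring K} {res : R →+* F} {k : Subfield K} (hk : k.toSubring ≤ R)
    {k₁ : Subfield F} (hkk : ∀ y ∈ k₁, ∃ x ∈ k, ev res x = y)
    (hkk' : ∀ x ∈ k, ev res x ∈ k₁) (t : F')
    (hsep : ∃ P : Polynomial k₁, P.Separable ∧
      P.eval₂ ((algebraMap F F').comp k₁.subtype) t = 0) :
    IsIntegral F t ∧ ∃ (P : k.toSubring[X]) (P₁ : k₁[X]) (P₂ : F[X]), P.Monic ∧
      P₁.Separable ∧
      P.map (res.comp (Subring.inclusion hk)) = P₁.map (algebraMap k₁ F) ∧
      P.map (res.comp (Subring.inclusion hk)) = minpoly F t * P₂ ∧ aeval t P₂ ≠ 0 ∧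
      ∀ q : k.toSubring[X],
        aeval t (q.map (res.comp (Subring.inclusion hk))) = 0 → P ∣ q := by
  obtain ⟨P₀, hP₀, hP₀0⟩ := hsep
  have hint : IsIntegral F t := by
    refine isAlgebraic_iff_isIntegral.1 ⟨P₀.map k₁.subtype, ?_, ?_⟩
    · rw [Polynomial.map_ne_zero_iff k₁.subtype.injective]
      exact hP₀.ne_zero
    · rw [Polynomial.aeval_def, Polynomial.eval₂_map]
      exact hP₀0
  have hP₀t : aeval t P₀ = 0 := hP₀0
  have hint₁ : IsIntegral k₁ t := isAlgebraic_iff_isIntegral.1 ⟨P₀, hP₀.ne_zero, hP₀t⟩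
  have hsep₁ : (minpoly k₁ t).Separable := hP₀.of_dvd (minpoly.dvd k₁ t hP₀t)
  let κ : k.toSubring →+* k₁ := (res.comp (Subring.inclusion hk)).codRestrict k₁ fun x => by
    have h1 := hkk' x x.2
    rw [ev_of res (hk x.2)] at h1
    exact h1
  have hκs : Function.Surjective κ := by
    rintro ⟨y, hy⟩
    obtain ⟨x, hx, hxy⟩ := hkk y hy
    refine ⟨⟨x, hx⟩, Subtype.ext ?_⟩
    rw [ev_of res (hk hx)] at hxy
    exact hxy
  have hκi : Function.Injective κ := by
    rw [injective_iff_map_eq_zero]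
    rintro ⟨x, hx⟩ h0
    by_contra hne
    have hx0 : x ≠ 0 := fun h => hne (Subtype.ext h)
    have h1 : ev res x ≠ 0 := ev_ne_of_inv (hk hx) (hk (k.inv_mem hx)) hx0
    rw [ev_of res (hk hx)] at h1
    exact h1 (congrArg Subtype.val h0)
  let e : k.toSubring ≃+* k₁ := RingEquiv.ofBijective κ ⟨hκi, hκs⟩
  have hke : res.comp (Subring.inclusion hk) = (algebraMap k₁ F).comp e.toRingHom := rfl
  set P : k.toSubring[X] := (minpoly k₁ t).map e.symm.toRingHom with hP
  have hPe : P.map e.toRingHom = minpoly k₁ t := by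
    rw [hP, Polynomial.map_map]
    have : e.toRingHom.comp e.symm.toRingHom = RingHom.id k₁ := by
      ext x
      simp
    rw [this, Polynomial.map_id]
  have hPF : P.map (res.comp (Subring.inclusion hk)) =
      (minpoly k₁ t).map (algebraMap k₁ F) := by
    rw [hke, ← Polynomial.map_map, hPe]
  have hdvd : minpoly F t ∣ (minpoly k₁ t).map (algebraMap k₁ F) := by
    apply minpoly.dvd
    rw [aeval_map_algebraMap]
    exact minpoly.aeval k₁ t
  obtain ⟨P₂, hP₂⟩ := hdvd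
  refine ⟨hint, P, minpoly k₁ t, P₂, (minpoly.monic hint₁).map _, hsep₁, hPF,
    hPF.trans hP₂, ?_, ?_⟩
  · intro h0
    have h1 : (minpoly F t * P₂).Separable := by
      rw [← hP₂]
      exact hsep₁.map
    obtain ⟨a, b, hab⟩ := h1.isCoprime
    have h2 := congrArg (aeval t) hab
    rw [map_add, map_mul, map_mul, minpoly.aeval, h0, mul_zero, mul_zero, add_zero,
      map_one] at h2
    exact zero_ne_one h2
  · intro q hq
    rw [hke, ← Polynomial.map_map, aeval_map_algebraMap] at hq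
    have h1 := minpoly.dvd k₁ t hq
    have h2 := Polynomial.map_dvd e.symm.toRingHom h1
    rw [Polynomial.map_map] at h2
    have h3 : e.symm.toRingHom.comp e.toRingHom = RingHom.id _ := by
      ext x
      simp
    rw [h3, Polynomial.map_id] at h2
    exact h2

/-- Uniformization of the support gives uniformization of the ambient scheme, over a finite
extension of the ground field. -/
theorem transfer2 {K F F' : Type u} [Field K] [Field F] [Field F'] [Algebra F F']
    {R : Subring K} {res : R →+* F} (hR : Rl res) (hs : Function.Surjective res)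
    {O : Subring K} (hOn : IsNoetherianRing O) {k : Subfield K} (hOk : O ≤ k.toSubring)
    (hkO : ∀ x ∈ k, ∃ a ∈ O, ∃ b ∈ O, b ≠ 0 ∧ x = a / b)
    (hO0 : ∀ a ∈ O, a ≠ 0 → ev res a ≠ 0) (hOR : O ≤ R)
    {k₁ : Subfield F} (hk₁ : k₁ = Subfield.closure (im res O : Set F))
    (V : ValuationSubring F) (hOV : im res O ≤ V.toSubring)
    {T : Set K} (hT : T.Finite) (hTR : T ⊆ R) {u : K} (hu : u ∈ T) (hu0 : ev res u ≠ 0)
    (huV : ∀ v ∈ T, v / u ∈ sp res V)
    (hfr : ∀ x ∈ R, ∃ a ∈ ch O T u, ∃ b ∈ ch O T u, ev res b ≠ 0 ∧ x = a / b)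
    (hK : ∀ z : K, ∃ a ∈ R, ∃ b ∈ R, b ≠ 0 ∧ z = a / b)
    {c : ℕ} (f : Fin c → K) (hfA : ∀ i, f i ∈ ch O T u) (hf0 : ∀ i, ev res (f i) = 0)
    (hdim : (c : WithBot ℕ∞) ≤ ringKrullDim R)
    (hf : ∀ a ∈ ch O T u, ev res a = 0 → ∃ d ∈ O, d ≠ 0 ∧ ∃ g : Fin c → K,
      (∀ j, g j ∈ ch O T u) ∧ d * a = ∑ j, g j * f j)
    (hL2 : ∀ y : F, IsSeparable k₁ y → ∃ z ∈ quo O (ch O T u) O_le_ch, ev res z = y)
    (V' : ValuationSubring F') (hVV : V'.comap (algebraMap F F') = V) (t : F')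
    (hgenF : ∀ z : F', z ∈ Subfield.closure (Set.range (algebraMap F F') ∪ {t}))
    (hsep : ∃ P : Polynomial k₁, P.Separable ∧
      P.eval₂ ((algebraMap F F').comp k₁.subtype) t = 0)
    (hQ : ∃ (_ : IsDiscreteValuationRing
        (lo V'.toSubring (ram (algebraMap F F') (im res O) t)))
      (h : t ∈ lo V'.toSubring (ram (algebraMap F F') (im res O) t)),
      IsLocalRing.maximalIdeal (lo V'.toSubring (ram (algebraMap F F') (im res O) t)) =
        Ideal.span {⟨t, h⟩})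
    {Z : Set F'} (hZ : Vert (ram (algebraMap F F') (im res O) t) t
      (algebraMap F F' '' (ev res '' T)) Z)
    (hss : ∀ V₁ : ValuationSubring F', V' ≤ V₁ → V₁.valuation t < 1 →
      ∃ w ∈ bu (algebraMap F F' '' (ev res '' T)) Z, w ≠ 0 ∧
        (∀ v ∈ bu (algebraMap F F' '' (ev res '' T)) Z, v / w ∈ V₁) ∧
        Semi (lo V₁.toSubring (ch (ram (algebraMap F F') (im res O) t)
          (bu (algebraMap F F' '' (ev res '' T)) Z) w)) t) :
    ∃ (K' : Type u) (_ : Field K') (_ : Algebra K K') (R' : Subring K') (res' : R' →+* F')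
      (ϖ : K'), Rl res' ∧ Function.Surjective res' ∧ Compat res res' ∧ ϖ ∈ R' ∧
      ev res' ϖ = t ∧ (∀ z : K', z ∈ Subfield.closure (Set.range (algebraMap K K') ∪ {ϖ})) ∧
      (∃ P : Polynomial k, P.Separable ∧
        P.eval₂ ((algebraMap K K').comp k.subtype) ϖ = 0) ∧
      (∀ z ∈ R', ∃ q s : R[X],
        ev res' (s.eval₂ ((algebraMap K K').comp R.subtype) ϖ) ≠ 0 ∧
        z = q.eval₂ ((algebraMap K K').comp R.subtype) ϖ /
          s.eval₂ ((algebraMap K K').comp R.subtype) ϖ) ∧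
      ∃ Y : Set K', Vert (ram (algebraMap K K') O ϖ) ϖ (algebraMap K K' '' T) Y ∧
        ∃ w ∈ bu (algebraMap K K' '' T) Y, w ≠ 0 ∧
          ∀ V₁ : ValuationSubring F', V' ≤ V₁ → V₁.valuation t < 1 →
            (∀ v ∈ bu (algebraMap K K' '' T) Y, v / w ∈ sp res' V₁) ∧
            Semi (lo (sp res' V₁)
              (ch (ram (algebraMap K K') O ϖ) (bu (algebraMap K K' '' T) Y) w)) ϖ := by
  classical
  -- `k` is contained in `R`
  have hk : k.toSubring ≤ R := by
    intro x hx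
    obtain ⟨a, ha, b, hb, hb0, rfl⟩ := hkO x hx
    exact hR.div_mem (hOR ha) (hO0 b hb hb0)
  have hkk : ∀ y ∈ k₁, ∃ x ∈ k, ev res x = y := by
    intro y hy
    rw [hk₁, Subfield.mem_closure_iff] at hy
    obtain ⟨a, ha, b, hb, rfl⟩ := hy
    rw [Subring.closure_eq] at ha hb
    obtain ⟨a, ha', rfl⟩ := (mem_im hOR).1 ha
    obtain ⟨b, hb', rfl⟩ := (mem_im hOR).1 hb
    by_cases hb0 : b = 0
    · exact ⟨0, zero_mem _, by rw [hb0, ev_zero, div_zero]⟩
    · exact ⟨a / b, div_mem (hOk ha') (hOk hb'), hR.ev_div (hOR ha') (hO0 b hb' hb0)⟩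
  have hkk' : ∀ x ∈ k, ev res x ∈ k₁ := by
    intro x hx
    obtain ⟨a, ha, b, hb, hb0, rfl⟩ := hkO x hx
    rw [hR.ev_div (hOR ha) (hO0 b hb hb0), hk₁]
    exact div_mem (Subfield.subset_closure (ev_mem_im hOR ha))
      (Subfield.subset_closure (ev_mem_im hOR hb))
  obtain ⟨hint, P, P₁, P₂, hPm, hP₁, hPP, hPP₂, hP₂, hPk⟩ := exists_poly2 hk hkk hkk' t hsep
  have hA1R : ch O T u ≤ R := ch_R hR hOR hTR hu0
  have hOA : O ≤ ch O T u := O_le_ch
  have hSR : sp res V ≤ R := sp_le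
  have hOS : O ≤ sp res V := fun x hx => ⟨hOR hx, hOV (ev_mem_im hOR hx)⟩
  -- noetherian rings
  have hAn : IsNoetherianRing (ch O T u) := by
    have e : ch O T u = Subring.closure ((O : Set K) ∪ {z | ∃ v ∈ T, z = v / u}) := rfl
    rw [e]
    refine noeth_adjoin_set hOn ?_
    have e2 : {z | ∃ v ∈ T, z = v / u} = (fun v => v / u) '' T := by
      ext z
      constructor
      · rintro ⟨v, hv, rfl⟩; exact ⟨v, hv, rfl⟩
      · rintro ⟨v, hv, rfl⟩; exact ⟨v, hv, rfl⟩
    rw [e2]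
    exact hT.image _
  have hRlo : R = lo R (ch O T u) := by
    apply le_antisymm
    · intro x hx
      obtain ⟨a, ha, b, hb, hb0, rfl⟩ := hfr x hx
      exact ⟨a, ha, b, hb, ne_of_ev res hb0, hR.inv hb0, div_eq_mul_inv _ _⟩
    · exact lo_le hA1R
  have hRl : Loc R := by
    intro a ha
    by_cases h1 : ev res a ≠ 0
    · exact Or.inl ⟨ne_of_ev res h1, hR.inv h1⟩
    · right
      push Not at h1
      have h2 : ev res (1 - a) ≠ 0 := by
        rw [ev_sub res R.one_mem ha, ev_one, h1, sub_zero]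
        exact one_ne_zero
      exact ⟨ne_of_ev res h2, hR.inv h2⟩
  have hRn : IsNoetherianRing R := by
    have h1 := Pool.Agent.N98.T2.noeth_lo hAn hRl hA1R
    rwa [← hRlo] at h1
  have hfR : ∀ x ∈ R, ev res x = 0 → ∃ g : Fin c → K, (∀ i, g i ∈ R) ∧
      x = ∑ i, g i * f i := by
    intro x hx hx0
    obtain ⟨a, ha, b, hb, hb0, rfl⟩ := hfr x hx
    have ha0 : ev res a = 0 := by
      rw [hR.ev_div (hA1R ha) hb0] at hx0
      rcases div_eq_zero_iff.1 hx0 with h | h
      · exact h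
      · exact absurd h hb0
    obtain ⟨d, hd, hd0, g, hg, hgs⟩ := hf a ha ha0
    have hde := hO0 d hd hd0
    have hbK := ne_of_ev res hb0
    refine ⟨fun i => g i / d / b, fun i => hR.div_mem (hR.div_mem (hA1R (hg i)) hde) hb0, ?_⟩
    have e : a / b = d * a / d / b := by field_simp
    rw [e, hgs, Finset.sum_div, Finset.sum_div]
    refine Finset.sum_congr rfl fun i _ => ?_
    ring
  -- the extension
  set PR : R[X] := P.map (Subring.inclusion hk) with hPR
  have hPRF : PR.map res = minpoly F t * P₂ := by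
    rw [hPR, Polynomial.map_map]
    exact hPP₂
  obtain ⟨K', _, algK, R', res', ϖ, hR', hs', hdim', hc0, hϖ, hev, hPϖ, hpoly, hK'⟩ :=
    exists_ext2 hR hs hRn hK f (fun i => hA1R (hfA i)) hf0 hfR hdim t hint
      (gen_simple t hint hgenF) PR (hPm.map _) P₂ hPRF hP₂
  have hc : Compat res res' := hc0
  have hP0 : P.eval₂ ((algebraMap K K').comp k.toSubring.subtype) ϖ = 0 := by
    rw [hPR, eval₂_map] at hPϖ
    exact hPϖ
  have hinj : ∀ x ∈ ram (algebraMap K K') O ϖ, ev res' x = 0 → x = 0 := fun x hx hx0 =>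
    inj_k2 hc hϖ hk P hP0 (by rw [hev]; exact hPk) hOk hx hx0
  have him : im res' (ram (algebraMap K K') O ϖ) = ram (algebraMap F F') (im res O) t := by
    rw [im_ram hc hϖ hOR, hev]
  -- the valuation of the uniformizer
  have htram : t ∈ ram (algebraMap F F') (im res O) t := Subring.subset_closure (Or.inr rfl)
  obtain ⟨ht1, ht0⟩ := unif_lt V' htram hQ
  have htV : t ∈ V' := (V'.valuation_le_one_iff _).1 ht1.le
  have hVmem : ∀ x : F, x ∈ V → algebraMap F F' x ∈ V' := by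
    intro x hx
    rw [← hVV] at hx
    exact hx
  have hOR' : ram (algebraMap K K') O ϖ ≤ R' := ram_R hc hϖ hOR
  have hramV : ram (algebraMap F F') (im res O) t ≤ V'.toSubring := by
    unfold ram
    rw [Subring.closure_le]
    rintro x (⟨a, ha, rfl⟩ | hx)
    · exact hVmem a (hOV ha)
    · rw [Set.mem_singleton_iff.1 hx]; exact htV
  have hOS' : ram (algebraMap K K') O ϖ ≤ sp res' V' := by
    intro x hx
    refine ⟨hOR' hx, ?_⟩
    have h1 := ev_mem_im (res := res') hOR' hx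
    rw [him] at h1
    exact hramV h1
  have hOn' : IsNoetherianRing (ram (algebraMap K K') O ϖ) := by
    have h1 : IsNoetherianRing (O.map (algebraMap K K')) :=
      isNoetherianRing_of_surjective O _
        ((algebraMap K K').restrict O (O.map _) fun x hx => ⟨x, hx, rfl⟩) (by
          rintro ⟨_, x, hx, rfl⟩
          exact ⟨⟨x, hx⟩, rfl⟩)
    exact noeth_adjoin_set h1 (Set.finite_singleton ϖ)
  have hTR' : algebraMap K K' '' T ⊆ R' := by
    rintro _ ⟨v, hv, rfl⟩
    exact (hc v (hTR hv)).1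
  have hu0' : ev res' (algebraMap K K' u) ≠ 0 := by
    rw [(hc u (hTR hu)).2]
    exact (_root_.map_ne_zero _).2 hu0
  have huV' : ∀ v ∈ algebraMap K K' '' T, v / algebraMap K K' u ∈ sp res' V' := by
    rintro _ ⟨v, hv, rfl⟩
    rw [← map_div₀]
    have h1 := huV v hv
    refine ⟨(hc _ h1.1).1, ?_⟩
    rw [(hc _ h1.1).2]
    exact hVmem _ h1.2
  have hchr := ch_ram (O := O) (T := T) (u := u) ϖ
  have hfA' : ∀ i, algebraMap K K' (f i) ∈
      ch (ram (algebraMap K K') O ϖ) (algebraMap K K' '' T) (algebraMap K K' u) := by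
    intro i
    rw [hchr]
    exact Subring.subset_closure (Or.inl ⟨_, hfA i, rfl⟩)
  have hf0' : ∀ i, ev res' (algebraMap K K' (f i)) = 0 := by
    intro i
    rw [(hc _ (hA1R (hfA i))).2, hf0, map_zero]
  have hfr' := frac_ext2 hc hϖ hpoly hA1R hfr
  rw [← hchr] at hfr'
  obtain ⟨s, hsA, D, hD, hD0, hsD, hgen'⟩ := gen_ext3 hc hϖ hk P hP0 P₁ hP₁ hPP
    (by rw [hev]; exact hint) O_le_ch hA1R hOk hkO hL2 f hf
  rw [← hchr] at hgen' hsA
  have hQ' : ∃ (_ : IsDiscreteValuationRing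
        (lo V'.toSubring (im res' (ram (algebraMap K K') O ϖ))))
      (h : ev res' ϖ ∈ lo V'.toSubring (im res' (ram (algebraMap K K') O ϖ))),
      IsLocalRing.maximalIdeal (lo V'.toSubring (im res' (ram (algebraMap K K') O ϖ))) =
        Ideal.span {⟨ev res' ϖ, h⟩} := by
    rw [him, hev]
    exact hQ
  obtain ⟨j, y₀, hy₀, hjy⟩ := dvd_unif2 hR' hc hϖ hk hOk hinj V' hQ' hD hD0
  have hDe : ev res' (algebraMap K K' D) ≠ 0 := by
    rw [(hc D (hOR hD)).2]
    exact (_root_.map_ne_zero _).2 (hO0 D hD hD0)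
  have hse : ev res' s ≠ 0 := by
    rw [hsD, ← (hc D (hOR hD)).2]
    exact hDe
  have hy₀S : y₀ ∈ sp res' V' := lo_le hOS' hy₀
  have hqe : ev res' (ϖ ^ j / s) = ev res' y₀ := by
    rw [hR'.ev_div (pow_mem hϖ j) hse, hjy, ev_mul res' (hc D (hOR hD)).1 hy₀S.1, hsD,
      ← (hc D (hOR hD)).2]
    exact mul_div_cancel_left₀ _ hDe
  have hqS : ϖ ^ j / s ∈ sp res' V' := ⟨hR'.div_mem (pow_mem hϖ j) hse, by
    rw [hqe]; exact hy₀S.2⟩
  have hqV : ev res' (ϖ ^ j / s) ∈ lo V'.toSubring (im res' (ram (algebraMap K K') O ϖ)) := by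
    rw [hqe, ← im_lo hR' hOS']
    exact ev_mem_im ((lo_le hOS').trans sp_le) hy₀
  have hP' : ∀ a ∈ ch (ram (algebraMap K K') O ϖ) (algebraMap K K' '' T) (algebraMap K K' u),
      ev res' a = 0 → ∃ (n : ℕ) (g : Fin c → K'), (∀ i, g i ∈ lo (sp res' V')
        (ch (ram (algebraMap K K') O ϖ) (algebraMap K K' '' T) (algebraMap K K' u))) ∧
        ϖ ^ n * (s * a) = ∑ i, g i * algebraMap K K' (f i) := by
    intro a ha ha0
    obtain ⟨d, hd, hd0, g, hg, hgs⟩ := hgen' a ha ha0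
    obtain ⟨n, y, hy, hyn⟩ := dvd_unif2 hR' hc hϖ hk hOk hinj V' hQ' hd hd0
    refine ⟨n, fun i => y * g i, fun i => mul_mem (lo_mono O_le_ch hy) (le_lo _ _ (hg i)), ?_⟩
    have e : ϖ ^ n * (s * a) = y * (algebraMap K K' d * (s * a)) := by
      rw [hyn]; ring
    rw [e, hgs, Finset.mul_sum]
    exact Finset.sum_congr rfl fun i _ => by ring
  have himT : ev res' '' (algebraMap K K' '' T) = algebraMap F F' '' (ev res '' T) := by
    rw [Set.image_image, Set.image_image]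
    exact Set.image_congr fun v hv => (hc v (hTR hv)).2
  obtain ⟨z, hz, hz0, hzV, -⟩ := hss V' le_rfl ht1
  obtain ⟨Y, hY, w, hw, hw0, hwS, hsemi⟩ := lift_up2 hR' V' hOn' hOS' (hT.image _) hTR'
    ⟨u, hu, rfl⟩ hu0' huV' (Subring.subset_closure (Or.inr rfl)) (by rw [hev]; exact ht0)
    (fun i => algebraMap K K' (f i)) hfA' hf0' hdim' hfr' hsA hse hqS hqV hP'
    (Z := Z) (by rw [him, hev, himT]; exact hZ) (z := z) (by rw [himT]; exact hz) hz0
    (by rw [himT]; exact hzV)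
  refine ⟨K', inferInstance, algK, R', res', ϖ, hR', hs', hc, hϖ, hev, ?_, ?_, hpoly, Y, hY, w,
    hw, hw0, ?_⟩
  · -- generators of the field
    have h1 : ∀ y : K, algebraMap K K' y ∈
        Subfield.closure (Set.range (algebraMap K K') ∪ {ϖ}) := fun y =>
      Subfield.subset_closure (Or.inl ⟨y, rfl⟩)
    have h2 : ϖ ∈ Subfield.closure (Set.range (algebraMap K K') ∪ {ϖ}) :=
      Subfield.subset_closure (Or.inr rfl)
    have h3 : ∀ q : R[X], q.eval₂ ((algebraMap K K').comp R.subtype) ϖ ∈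
        Subfield.closure (Set.range (algebraMap K K') ∪ {ϖ}) := by
      intro q
      rw [eval₂_eq_sum_range]
      exact sum_mem fun i _ => mul_mem (h1 _) (pow_mem h2 i)
    have key : ∀ x ∈ R', x ∈ Subfield.closure (Set.range (algebraMap K K') ∪ {ϖ}) := by
      intro x hx
      obtain ⟨q, s, -, rfl⟩ := hpoly x hx
      exact div_mem (h3 q) (h3 s)
    intro x
    obtain ⟨a, ha, b, hb, -, rfl⟩ := hK' x
    exact div_mem (key a ha) (key b hb)
  · -- separability
    let e : k.toSubring →+* k := k.toSubring.subtype.codRestrict k fun x => x.2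
    let κ : k →+* F := res.comp (k.subtype.codRestrict R fun x => hk x.2)
    have h1 : (P.map e).map κ = P₁.map (algebraMap k₁ F) := by
      rw [Polynomial.map_map, ← hPP]
      rfl
    refine ⟨P.map e, ?_, ?_⟩
    · rw [← Polynomial.separable_map κ, h1]
      exact hP₁.map
    · rw [eval₂_map]
      exact hP0
  · intro V₁ hV₁ hV₁t
    refine ⟨fun v hv => sp_mono hV₁ (hwS v hv), hsemi V₁ hV₁ ?_⟩
    obtain ⟨w₁, hw₁, hw₁0, hw₁V, hw₁s⟩ := hss V₁ hV₁ hV₁t
    rw [him, himT, hev]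
    have h2 : lo V₁.toSubring (ch (ram (algebraMap F F') (im res O) t)
        (bu (algebraMap F F' '' (ev res '' T)) Z) z) =
        lo V₁.toSubring (ch (ram (algebraMap F F') (im res O) t)
        (bu (algebraMap F F' '' (ev res '' T)) Z) w₁) :=
      lo_ch_eq (S := V₁.toSubring) (hramV.trans hV₁) hz hw₁ hz0 hw₁0
        (fun v hv => hV₁ (hzV v hv)) hw₁V
    rw [h2]
    exact hw₁s


end Pool.Agent.V5helper88.SP
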