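import Pool.Agent.V5helper88.SP.Ch
import Pool.Agent.W418.LU2.Lo

/-!
Places: a local subring `R` of `K` with a residue map `res` to a field `F`.
-/

set_option autoImplicit false

open Pointwise Pool.Agent.W418.LU2

universe u

namespace Pool.Agent.V5helper88.SP

variable {K F : Type u} [Field K] [Field F] {R : Subring K}

open Classical in
/-- The residue of an element of `K` (zero outside of `R`). -/
noncomputable def ev (res : R →+* F) (x : K) : F := if h : x ∈ R then res ⟨x, h⟩ else 0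

variable (res : R →+* F)

lemma ev_mk (x : R) : ev res x = res x := by
  rw [ev, dif_pos x.2]

lemma ev_of {x : K} (h : x ∈ R) : ev res x = res ⟨x, h⟩ := dif_pos h

lemma ev_zero : ev res 0 = 0 := by
  rw [ev_of res R.zero_mem]; exact map_zero res

lemma ev_one : ev res 1 = 1 := by
  rw [ev_of res R.one_mem]; exact map_one res

lemma ev_add {x y : K} (hx : x ∈ R) (hy : y ∈ R) : ev res (x + y) = ev res x + ev res y := by
  rw [ev_of res hx, ev_of res hy, ev_of res (add_mem hx hy), ← map_add]; rfl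

lemma ev_mul {x y : K} (hx : x ∈ R) (hy : y ∈ R) : ev res (x * y) = ev res x * ev res y := by
  rw [ev_of res hx, ev_of res hy, ev_of res (mul_mem hx hy), ← map_mul]; rfl

lemma ev_neg {x : K} (hx : x ∈ R) : ev res (-x) = -ev res x := by
  rw [ev_of res hx, ev_of res (neg_mem hx), ← map_neg]; rfl

lemma ev_sub {x y : K} (hx : x ∈ R) (hy : y ∈ R) : ev res (x - y) = ev res x - ev res y := by
  rw [ev_of res hx, ev_of res hy, ev_of res (sub_mem hx hy), ← map_sub]; rfl

lemma ev_pow {x : K} (hx : x ∈ R) (n : ℕ) : ev res (x ^ n) = ev res x ^ n := by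
  rw [ev_of res hx, ev_of res (pow_mem hx n), ← map_pow]; rfl

lemma ev_sum {ι : Type*} (s : Finset ι) (f : ι → K) (hf : ∀ i ∈ s, f i ∈ R) :
    ev res (∑ i ∈ s, f i) = ∑ i ∈ s, ev res (f i) := by
  classical
  induction s using Finset.induction_on with
  | empty => rw [Finset.sum_empty, Finset.sum_empty, ev_zero]
  | insert a s ha ih =>
    rw [Finset.sum_insert ha, Finset.sum_insert ha,
      ev_add res (hf a (Finset.mem_insert_self _ _))
        (sum_mem fun i hi => hf i (Finset.mem_insert_of_mem hi)),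
      ih fun i hi => hf i (Finset.mem_insert_of_mem hi)]

lemma ev_prod {ι : Type*} (s : Finset ι) (f : ι → K) (hf : ∀ i ∈ s, f i ∈ R) :
    ev res (∏ i ∈ s, f i) = ∏ i ∈ s, ev res (f i) := by
  classical
  induction s using Finset.induction_on with
  | empty => rw [Finset.prod_empty, Finset.prod_empty, ev_one]
  | insert a s ha ih =>
    rw [Finset.prod_insert ha, Finset.prod_insert ha,
      ev_mul res (hf a (Finset.mem_insert_self _ _))
        (prod_mem fun i hi => hf i (Finset.mem_insert_of_mem hi)),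
      ih fun i hi => hf i (Finset.mem_insert_of_mem hi)]

lemma ne_of_ev {x : K} (h : ev res x ≠ 0) : x ≠ 0 := by
  rintro rfl
  exact h (ev_zero res)

lemma mem_of_ev {x : K} (h : ev res x ≠ 0) : x ∈ R := by
  by_contra hx
  exact h (dif_neg hx)

/-- `R` is local with the residue field in `F`. -/
def Rl (res : R →+* F) : Prop := ∀ x : R, res x ≠ 0 → (x : K)⁻¹ ∈ R

variable {res}

lemma Rl.inv (h : Rl res) {x : K} (hx : ev res x ≠ 0) : x⁻¹ ∈ R := by
  have hxR := mem_of_ev res hx
  rw [ev_of res hxR] at hx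
  exact h ⟨x, hxR⟩ hx

lemma Rl.ev_inv (h : Rl res) {x : K} (hx : ev res x ≠ 0) : ev res x⁻¹ = (ev res x)⁻¹ := by
  have hxR := mem_of_ev res hx
  have h1 : ev res (x * x⁻¹) = 1 := by
    rw [mul_inv_cancel₀ (ne_of_ev res hx), ev_one]
  rw [ev_mul res hxR (h.inv hx)] at h1
  exact (eq_inv_of_mul_eq_one_right h1)

lemma Rl.ev_div (h : Rl res) {x y : K} (hx : x ∈ R) (hy : ev res y ≠ 0) :
    ev res (x / y) = ev res x / ev res y := by
  rw [div_eq_mul_inv, ev_mul res hx (h.inv hy), h.ev_inv hy, div_eq_mul_inv]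

lemma Rl.div_mem (h : Rl res) {x y : K} (hx : x ∈ R) (hy : ev res y ≠ 0) : x / y ∈ R := by
  rw [div_eq_mul_inv]
  exact mul_mem hx (h.inv hy)

lemma ev_ne_of_inv {x : K} (hx : x ∈ R) (hxi : x⁻¹ ∈ R) (h0 : x ≠ 0) : ev res x ≠ 0 := by
  intro h
  have h1 : ev res (x * x⁻¹) = 1 := by
    rw [mul_inv_cancel₀ h0, ev_one]
  rw [ev_mul res hx hxi, h, zero_mul] at h1
  exact zero_ne_one h1

variable (res)

/-- The elements of `R` with residue in the valuation ring `V`. -/
def sp (V : ValuationSubring F) : Subring K where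
  carrier := {x | x ∈ R ∧ ev res x ∈ V}
  mul_mem' := by
    rintro a b ⟨ha, ha'⟩ ⟨hb, hb'⟩
    exact ⟨mul_mem ha hb, by rw [ev_mul res ha hb]; exact mul_mem ha' hb'⟩
  one_mem' := ⟨R.one_mem, by rw [ev_one]; exact one_mem V⟩
  add_mem' := by
    rintro a b ⟨ha, ha'⟩ ⟨hb, hb'⟩
    exact ⟨add_mem ha hb, by rw [ev_add res ha hb]; exact add_mem ha' hb'⟩
  zero_mem' := ⟨R.zero_mem, by rw [ev_zero]; exact zero_mem V⟩
  neg_mem' := by
    rintro a ⟨ha, ha'⟩
    exact ⟨neg_mem ha, by rw [ev_neg res ha]; exact neg_mem ha'⟩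

variable {res} {V : ValuationSubring F}

lemma mem_sp {x : K} : x ∈ sp res V ↔ x ∈ R ∧ ev res x ∈ V := Iff.rfl

lemma sp_le : sp res V ≤ R := fun _ hx => hx.1

lemma Rl.inv_sp (h : Rl res) {x : K} (hx : ev res x ≠ 0) (hV : (ev res x)⁻¹ ∈ V) :
    x⁻¹ ∈ sp res V := ⟨h.inv hx, by rw [h.ev_inv hx]; exact hV⟩

lemma Rl.loc (h : Rl res) : Loc (sp res V) := by
  rintro a ⟨ha, haV⟩
  by_cases h1 : ev res a ≠ 0 ∧ (ev res a)⁻¹ ∈ V
  · exact Or.inl ⟨ne_of_ev res h1.1, h.inv_sp h1.1 h1.2⟩
  · right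
    have h2 : ev res (1 - a) = 1 - ev res a := by rw [ev_sub res R.one_mem ha, ev_one]
    have h3 : 1 - ev res a ≠ 0 ∧ (1 - ev res a)⁻¹ ∈ V := by
      have hloc := IsLocalRing.isUnit_or_isUnit_one_sub_self (⟨ev res a, haV⟩ : V)
      have key : ∀ y : V, IsUnit y → (y : F) ≠ 0 ∧ (y : F)⁻¹ ∈ V := by
        intro y hy
        obtain ⟨z, hz⟩ := hy.exists_right_inv
        have hz' : (y : F) * z = 1 := congrArg Subtype.val hz
        have hy0 : (y : F) ≠ 0 := left_ne_zero_of_mul_eq_one hz'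
        refine ⟨hy0, ?_⟩
        rw [← eq_inv_of_mul_eq_one_right hz']
        exact z.2
      rcases hloc with hu | hu
      · exact absurd (key _ hu) h1
      · exact key _ hu
    rw [← h2] at h3
    exact ⟨ne_of_ev res h3.1, h.inv_sp h3.1 h3.2⟩

variable (res)

/-- The image of a subring of `R`. -/
def im (B : Subring K) : Subring F := (B.comap R.subtype).map res

variable {res}

lemma mem_im {B : Subring K} (hB : B ≤ R) {z : F} : z ∈ im res B ↔ ∃ b ∈ B, ev res b = z := by
  constructor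
  · rintro ⟨b, hb, rfl⟩
    exact ⟨b, hb, ev_mk res b⟩
  · rintro ⟨b, hb, rfl⟩
    exact ⟨⟨b, hB hb⟩, hb, (ev_of res (hB hb)).symm⟩

lemma ev_mem_im {B : Subring K} (hB : B ≤ R) {b : K} (hb : b ∈ B) : ev res b ∈ im res B :=
  (mem_im hB).2 ⟨b, hb, rfl⟩

lemma im_lo (h : Rl res) {B : Subring K} (hB : B ≤ sp res V) :
    im res (lo (sp res V) B) = lo V.toSubring (im res B) := by
  have hBR : B ≤ R := hB.trans sp_le
  have hlR : lo (sp res V) B ≤ R := (lo_le hB).trans sp_le
  ext z
  rw [mem_im hlR]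
  constructor
  · rintro ⟨_, ⟨a, ha, b, hb, hb0, hbA, rfl⟩, rfl⟩
    have hbe : ev res b ≠ 0 := ev_ne_of_inv (hBR hb) hbA.1 hb0
    refine ⟨ev res a, ev_mem_im hBR ha, ev res b, ev_mem_im hBR hb, hbe, ?_, ?_⟩
    · rw [← h.ev_inv hbe]
      exact hbA.2
    · rw [ev_mul res (hBR ha) hbA.1, h.ev_inv hbe]
  · rintro ⟨a, ha, b, hb, hb0, hbA, rfl⟩
    obtain ⟨a, ha', rfl⟩ := (mem_im hBR).1 ha
    obtain ⟨b, hb', rfl⟩ := (mem_im hBR).1 hb
    clear ha hb
    have ha := ha'
    have hb := hb'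
    refine ⟨a * b⁻¹, ⟨a, ha, b, hb, ne_of_ev res hb0, h.inv_sp hb0 hbA, rfl⟩, ?_⟩
    rw [ev_mul res (hBR ha) (h.inv hb0), h.ev_inv hb0]

variable {O : Subring K} {W : Set K} {w : K}

lemma span_R (hO : O ≤ R) (hW : W ⊆ R) (i : ℕ) :
    ∀ z ∈ (Submodule.span O W) ^ i, z ∈ R := by
  have h1 : ∀ z ∈ Submodule.span O W, z ∈ R := by
    intro z hz
    induction hz using Submodule.span_induction with
    | mem z hz => exact hW hz
    | zero => exact zero_mem _
    | add x y _ _ hx hy => exact add_mem hx hy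
    | smul a x _ hx => exact mul_mem (hO a.2) hx
  induction i with
  | zero =>
    intro z hz
    rw [pow_zero, Submodule.mem_one] at hz
    obtain ⟨o, rfl⟩ := hz
    exact hO o.2
  | succ i ih =>
    intro z hz
    rw [pow_succ] at hz
    refine Submodule.mul_induction_on hz ?_ ?_
    · intro a ha b hb
      exact mul_mem (ih a ha) (h1 b hb)
    · intro a b ha hb
      exact add_mem ha hb

lemma ev_span (hO : O ≤ R) (hW : W ⊆ R) (i : ℕ) :
    ∀ z ∈ (Submodule.span O W) ^ i,
      ev res z ∈ (Submodule.span (im res O) (ev res '' W)) ^ i := by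
  have h1 : ∀ z ∈ Submodule.span O W, ev res z ∈ Submodule.span (im res O) (ev res '' W) := by
    intro z hz
    induction hz using Submodule.span_induction with
    | mem z hz => exact Submodule.subset_span ⟨z, hz, rfl⟩
    | zero => rw [ev_zero]; exact zero_mem _
    | add x y hx' hy' hx hy =>
      have h2 := span_R hO hW 1
      rw [pow_one] at h2
      rw [ev_add res (h2 x hx') (h2 y hy')]
      exact add_mem hx hy
    | smul a x hx' hx =>
      have h2 := span_R hO hW 1
      rw [pow_one] at h2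
      rw [smul_eq, ev_mul res (hO a.2) (h2 x hx')]
      exact Submodule.smul_mem _ (⟨ev res a, ev_mem_im hO a.2⟩ : im res O) hx
  induction i with
  | zero =>
    intro z hz
    rw [pow_zero, Submodule.mem_one] at hz
    obtain ⟨o, rfl⟩ := hz
    rw [pow_zero, Submodule.mem_one]
    exact ⟨⟨ev res o, ev_mem_im hO o.2⟩, rfl⟩
  | succ i ih =>
    have h3 : ∀ z ∈ (Submodule.span O W) ^ (i + 1), z ∈ R ∧
        ev res z ∈ (Submodule.span (im res O) (ev res '' W)) ^ (i + 1) := by
      intro z hz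
      rw [pow_succ] at hz
      rw [pow_succ]
      refine Submodule.mul_induction_on hz ?_ ?_
      · intro a ha b hb
        have haR := span_R hO hW i a ha
        have hbR : b ∈ R := span_R hO hW 1 b (by rw [pow_one]; exact hb)
        refine ⟨mul_mem haR hbR, ?_⟩
        rw [ev_mul res haR hbR]
        exact Submodule.mul_mem_mul (ih a ha) (h1 b hb)
      · rintro a b ⟨ha, ha'⟩ ⟨hb, hb'⟩
        refine ⟨add_mem ha hb, ?_⟩
        rw [ev_add res ha hb]
        exact add_mem ha' hb'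
    exact fun z hz => (h3 z hz).2

/-- Lifting of forms. -/
lemma lift_span (hO : O ≤ R) (hW : W ⊆ R) (i : ℕ) :
    ∀ y ∈ (Submodule.span (im res O) (ev res '' W)) ^ i,
      ∃ z ∈ (Submodule.span O W) ^ i, ev res z = y := by
  have h1 : ∀ y ∈ Submodule.span (im res O) (ev res '' W),
      ∃ z ∈ Submodule.span O W, ev res z = y := by
    have h2 := span_R hO hW 1
    rw [pow_one] at h2
    intro y hy
    induction hy using Submodule.span_induction with
    | mem y hy =>
      obtain ⟨z, hz, rfl⟩ := hy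
      exact ⟨z, Submodule.subset_span hz, rfl⟩
    | zero => exact ⟨0, zero_mem _, ev_zero res⟩
    | add x y _ _ hx hy =>
      obtain ⟨a, ha, rfl⟩ := hx
      obtain ⟨b, hb, rfl⟩ := hy
      exact ⟨a + b, add_mem ha hb, ev_add res (h2 a ha) (h2 b hb)⟩
    | smul c x _ hx =>
      obtain ⟨a, ha, rfl⟩ := hx
      obtain ⟨o, ho, ho'⟩ := (mem_im hO).1 c.2
      refine ⟨(⟨o, ho⟩ : O) • a, Submodule.smul_mem _ _ ha, ?_⟩
      rw [smul_eq, ev_mul res (hO ho) (h2 a ha), ho']
      rfl
  induction i with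
  | zero =>
    intro y hy
    rw [pow_zero, Submodule.mem_one] at hy
    obtain ⟨c, rfl⟩ := hy
    obtain ⟨o, ho, ho'⟩ := (mem_im hO).1 c.2
    refine ⟨o, ?_, ho'⟩
    rw [pow_zero, Submodule.mem_one]
    exact ⟨⟨o, ho⟩, rfl⟩
  | succ i ih =>
    intro y hy
    rw [pow_succ] at hy
    rw [pow_succ]
    refine Submodule.mul_induction_on hy ?_ ?_
    · intro a ha b hb
      obtain ⟨a', ha', rfl⟩ := ih a ha
      obtain ⟨b', hb', rfl⟩ := h1 b hb
      have haR := span_R hO hW i a' ha'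
      have hbR : b' ∈ R := span_R hO hW 1 b' (by rw [pow_one]; exact hb')
      exact ⟨a' * b', Submodule.mul_mem_mul ha' hb', ev_mul res haR hbR⟩
    · rintro a b ⟨a', ha', rfl⟩ ⟨b', hb', rfl⟩
      have hR : ∀ z ∈ (Submodule.span O W) ^ i * Submodule.span O W, z ∈ R := by
        rw [← pow_succ]
        exact span_R hO hW (i + 1)
      exact ⟨a' + b', add_mem ha' hb', ev_add res (hR a' ha') (hR b' hb')⟩

lemma ch_R (h : Rl res) (hO : O ≤ R) (hW : W ⊆ R) (hw : ev res w ≠ 0) : ch O W w ≤ R := by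
  unfold ch
  rw [Subring.closure_le]
  rintro z (hz | ⟨v, hv, rfl⟩)
  · exact hO hz
  · exact h.div_mem (hW hv) hw

lemma im_ch (h : Rl res) (hO : O ≤ R) (hW : W ⊆ R) (hw : ev res w ≠ 0) :
    im res (ch O W w) = ch (im res O) (ev res '' W) (ev res w) := by
  have hR := ch_R h hO hW hw
  apply le_antisymm
  · intro z hz
    obtain ⟨b, hb, rfl⟩ := (mem_im hR).1 hz
    clear hz
    unfold ch at hb
    induction hb using Subring.closure_induction with
    | mem x hx =>
      rcases hx with hx | ⟨v, hv, rfl⟩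
      · exact O_le_ch (ev_mem_im hO hx)
      · rw [h.ev_div (hW hv) hw]
        exact div_mem_ch ⟨v, hv, rfl⟩
    | zero => rw [ev_zero]; exact zero_mem _
    | one => rw [ev_one]; exact one_mem _
    | add x y hx' hy' hx hy => rw [ev_add res (hR hx') (hR hy')]; exact add_mem hx hy
    | neg x hx' hx => rw [ev_neg res (hR hx')]; exact neg_mem hx
    | mul x y hx' hy' hx hy => rw [ev_mul res (hR hx') (hR hy')]; exact mul_mem hx hy
  · unfold ch
    rw [Subring.closure_le]
    rintro z (hz | ⟨_, ⟨v, hv, rfl⟩, rfl⟩)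
    · obtain ⟨o, ho, rfl⟩ := (mem_im hO).1 hz
      exact ev_mem_im hR (O_le_ch ho)
    · rw [← h.ev_div (hW hv) hw]
      exact ev_mem_im hR (div_mem_ch hv)

end Pool.Agent.V5helper88.SP
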