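import Pool.Agent.V5helper88.SP.Alg

/-!
Lifting of a blowing-up of the support to the ambient model.
-/

set_option autoImplicit false

open Pointwise Pool.Agent.W418.LU2 IsLocalRing

universe u

namespace Pool.Agent.V5helper88.SP

variable {K F : Type u} [Field K] [Field F] {R : Subring K} {res : R →+* F}

/-- The local ring does not depend on the chart. -/
lemma lo_ch_eq {S O : Subring K} {W : Set K} {w w' : K}
    (hOS : O ≤ S) (hw : w ∈ W) (hw' : w' ∈ W) (hw0 : w ≠ 0) (hw0' : w' ≠ 0)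
    (h : ∀ v ∈ W, v / w ∈ S) (h' : ∀ v ∈ W, v / w' ∈ S) :
    lo S (ch O W w) = lo S (ch O W w') := by
  have key : ∀ w₁ ∈ W, ∀ w₂ ∈ W, w₁ ≠ 0 → w₂ ≠ 0 → (∀ v ∈ W, v / w₁ ∈ S) →
      (∀ v ∈ W, v / w₂ ∈ S) → lo S (ch O W w₁) ≤ lo S (ch O W w₂) := by
    intro w₁ hw₁ w₂ hw₂ h₁ h₂ hS₁ hS₂
    have hch : ∀ w₃, (∀ v ∈ W, v / w₃ ∈ S) → ch O W w₃ ≤ S := by
      intro w₃ hS₃
      unfold ch
      rw [Subring.closure_le]
      rintro z (hz | ⟨v, hv, rfl⟩)
      · exact hOS hz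
      · exact hS₃ v hv
    have hle : ch O W w₁ ≤ lo S (ch O W w₂) := by
      unfold ch
      rw [Subring.closure_le]
      rintro z (hz | ⟨v, hv, rfl⟩)
      · exact le_lo _ _ (O_le_ch hz)
      · refine ⟨v / w₂, div_mem_ch hv, w₁ / w₂, div_mem_ch hw₁, div_ne_zero h₁ h₂, ?_, ?_⟩
        · rw [inv_div]; exact hS₁ w₂ hw₂
        · field_simp
    rintro x ⟨a, ha, b, hb, hb0, hbS, rfl⟩
    exact mul_mem (hle ha) (inv_mem_lo (hch w₂ hS₂) (hle hb) hb0 hbS)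
  exact le_antisymm (key w hw w' hw' hw0 hw0' h h') (key w' hw' w hw hw0' hw0 h' h)

variable {O : Subring K} {T : Set K} {u : K}

/-- Lifting of a vertical centre. -/
theorem lift_vert (hR : Rl res) (hOR : O ≤ R) (hT : T.Finite) (hTR : T ⊆ R) {p : K} (hp : p ∈ O)
    {Z : Set F} (hZ : Vert (im res O) (ev res p) (ev res '' T) Z) {z : F}
    (hz : z ∈ bu (ev res '' T) Z) (hz0 : z ≠ 0) :
    ∃ Y : Set K, Vert O p T Y ∧ ∃ y ∈ Y, ∃ v ∈ T, ev res (y * v) = z ∧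
      (∀ a ∈ bu T Y, a ∈ R) ∧
      im res (ch O (bu T Y) (y * v)) = ch (im res O) (bu (ev res '' T) Z) z := by
  classical
  obtain ⟨hZf, d, n, hZd, hZn⟩ := hZ
  have hl : ∀ a : F, ∃ b : K, a ∈ Z → b ∈ (Submodule.span O T) ^ d ∧ ev res b = a := by
    intro a
    by_cases ha : a ∈ Z
    · obtain ⟨b, hb, hb'⟩ := lift_span hOR hTR d a (hZd ha)
      exact ⟨b, fun _ => ⟨hb, hb'⟩⟩
    · exact ⟨0, fun h => absurd h ha⟩
  choose L hL using hl
  set Y : Set K := L '' Z ∪ (fun m => p ^ n * m) '' (T ^ d) with hY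
  have hTd : T ^ d ⊆ ((Submodule.span O T) ^ d : Submodule O K) := by
    rw [Submodule.span_pow]; exact Submodule.subset_span
  have hYd : Y ⊆ ((Submodule.span O T) ^ d : Submodule O K) := by
    rintro y (⟨a, ha, rfl⟩ | ⟨m, hm, rfl⟩)
    · exact (hL a ha).1
    · exact Submodule.smul_mem _ (⟨p ^ n, pow_mem hp n⟩ : O) (hTd hm)
  have hYR : ∀ y ∈ Y, y ∈ R := fun y hy => span_R hOR hTR d y (hYd hy)
  have hbR : ∀ a ∈ bu T Y, a ∈ R := by
    rintro _ ⟨y, hy, v, hv, rfl⟩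
    exact mul_mem (hYR y hy) (hTR hv)
  obtain ⟨a, ha, _, ⟨v, hv, rfl⟩, hzv⟩ := hz
  have hLa : ev res (L a * v) = z := by
    rw [ev_mul res (hYR _ (Or.inl ⟨a, ha, rfl⟩)) (hTR hv), (hL a ha).2, hzv]
  refine ⟨Y, ⟨(hZf.image _).union ((pow_finite hT d).image _), d, n, hYd, ?_⟩,
    L a, Or.inl ⟨a, ha, rfl⟩, v, hv, hLa, hbR, ?_⟩
  · intro x hx
    rw [Submodule.span_pow] at hx
    induction hx using Submodule.span_induction with
    | mem z hz => exact Submodule.subset_span (Or.inr ⟨z, hz, rfl⟩)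
    | zero => rw [mul_zero]; exact zero_mem _
    | add x y _ _ hx hy => rw [mul_add]; exact add_mem hx hy
    | smul a x _ hx =>
      rw [smul_eq, mul_left_comm]
      exact Submodule.smul_mem _ a hx
  · rw [im_ch hR hOR hbR (by rw [hLa]; exact hz0), hLa]
    apply le_antisymm
    · conv_lhs => unfold ch
      rw [Subring.closure_le]
      rintro x (hx | ⟨_, ⟨_, ⟨y, hy, v', hv', rfl⟩, rfl⟩, rfl⟩)
      · exact O_le_ch hx
      · rw [ev_mul res (hYR y hy) (hTR hv')]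
        have key : ∀ b ∈ Submodule.span (im res O) Z,
            b * ev res v' / z ∈ ch (im res O) (bu (ev res '' T) Z) z := by
          intro b hb
          induction hb using Submodule.span_induction with
          | mem b hb => exact div_mem_ch ⟨b, hb, _, ⟨v', hv', rfl⟩, rfl⟩
          | zero => rw [zero_mul, zero_div]; exact zero_mem _
          | add x y _ _ hx hy => rw [add_mul, add_div]; exact add_mem hx hy
          | smul a x _ hx =>
            rw [smul_eq, mul_assoc, mul_div_assoc]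
            exact mul_mem (O_le_ch a.2) hx
        apply key
        rcases hy with ⟨b, hb, rfl⟩ | ⟨m, hm, rfl⟩
        · rw [(hL b hb).2]
          exact Submodule.subset_span hb
        · have hmR : m ∈ R := span_R hOR hTR d m (hTd hm)
          simp only []
          rw [ev_mul res (pow_mem (hOR hp) n) hmR, ev_pow res (hOR hp)]
          exact hZn _ (ev_span hOR hTR d m (hTd hm))
    · conv_lhs => unfold ch
      rw [Subring.closure_le]
      rintro x (hx | ⟨_, ⟨b, hb, _, ⟨v', hv', rfl⟩, rfl⟩, rfl⟩)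
      · exact O_le_ch hx
      · refine div_mem_ch ⟨L b * v', ⟨L b, Or.inl ⟨b, hb, rfl⟩, v', hv', rfl⟩, ?_⟩
        rw [ev_mul res (hYR _ (Or.inl ⟨b, hb, rfl⟩)) (hTR hv'), (hL b hb).2]

/-- A chart of the blowing-up dominates the chart. -/
theorem ch_le_lo {S : Subring K} (hu : u ∈ T) (hu0 : u ≠ 0)
    (huS : ∀ v ∈ T, v / u ∈ S) {Y : Set K} (hOS : O ≤ S)
    {y₀ v₀ : K} (hy₀ : y₀ ∈ Y) (hv₀ : v₀ ∈ T) (h0 : y₀ * v₀ ≠ 0)
    (hS : ∀ a ∈ bu T Y, a / (y₀ * v₀) ∈ S) :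
    ch O T u ≤ lo S (ch O (bu T Y) (y₀ * v₀)) := by
  conv_lhs => unfold ch
  rw [Subring.closure_le]
  have hy00 : y₀ ≠ 0 := left_ne_zero_of_mul h0
  have hv00 : v₀ ≠ 0 := right_ne_zero_of_mul h0
  rintro z (hz | ⟨v, hv, rfl⟩)
  · exact le_lo _ _ (O_le_ch hz)
  · refine ⟨y₀ * v / (y₀ * v₀), div_mem_ch ⟨y₀, hy₀, v, hv, rfl⟩, y₀ * u / (y₀ * v₀),
      div_mem_ch ⟨y₀, hy₀, u, hu, rfl⟩, ?_, ?_, ?_⟩
    · exact div_ne_zero (mul_ne_zero hy00 hu0) h0
    · have e : (y₀ * u / (y₀ * v₀))⁻¹ = v₀ / u := by field_simp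
      rw [e]
      exact huS v₀ hv₀
    · field_simp

/-- Generators of the ideal of the support after a vertical blowing-up. -/
theorem gen_B (hR : Rl res) {S : Subring K} (hSR : S ≤ R) (hOS : O ≤ S)
    (hTR : T ⊆ R) (hu : u ∈ T) (hu0 : ev res u ≠ 0) (huS : ∀ v ∈ T, v / u ∈ S)
    {p : K} (hp : p ∈ O) {c : ℕ} (f : Fin c → K)
    (hP : ∀ a ∈ ch O T u, ev res a = 0 → ∃ (n : ℕ) (g : Fin c → K),
      (∀ i, g i ∈ lo S (ch O T u)) ∧ p ^ n * a = ∑ i, g i * f i)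
    {Y : Set K} (hY : Vert O p T Y) {y₀ v₀ : K} (hy₀ : y₀ ∈ Y) (hv₀ : v₀ ∈ T)
    (h0 : y₀ * v₀ ≠ 0) (hS : ∀ a ∈ bu T Y, a / (y₀ * v₀) ∈ S) :
    ∀ b ∈ ch O (bu T Y) (y₀ * v₀), ev res b = 0 → ∃ (n : ℕ) (g : Fin c → K),
      (∀ i, g i ∈ lo S (ch O (bu T Y) (y₀ * v₀))) ∧ p ^ n * b = ∑ i, g i * f i := by
  have hu00 : u ≠ 0 := ne_of_ev res hu0
  have hBS : ch O (bu T Y) (y₀ * v₀) ≤ S := by
    unfold ch
    rw [Subring.closure_le]
    rintro z (hz | ⟨v, hv, rfl⟩)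
    · exact hOS hz
    · exact hS v hv
  have hAS : ch O T u ≤ S := by
    unfold ch
    rw [Subring.closure_le]
    rintro z (hz | ⟨v, hv, rfl⟩)
    · exact hOS hz
    · exact huS v hv
  have hAlo := ch_le_lo hu hu00 huS hOS hy₀ hv₀ h0 hS
  have hlo : lo S (ch O T u) ≤ lo S (ch O (bu T Y) (y₀ * v₀)) := by
    rintro x ⟨a, ha, b, hb, hb0, hbS, rfl⟩
    exact mul_mem (hAlo ha) (inv_mem_lo hBS (hAlo hb) hb0 hbS)
  intro b hb hbe
  obtain ⟨-, d, m, hYd, hYm⟩ := id hY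
  set w2 := y₀ * v₀ with hw2
  have hw2m : w2 ∈ bu T Y := ⟨y₀, hy₀, v₀, hv₀, rfl⟩
  obtain ⟨i, hi⟩ := ch_form (O := O) hw2m h0 hb
  -- the forms
  have hsp : Submodule.span O (bu T Y) ≤ (Submodule.span O T) ^ (d + 1) := by
    rw [Submodule.span_le]
    rintro _ ⟨y, hy, v, hv, rfl⟩
    rw [SetLike.mem_coe, pow_succ]
    exact Submodule.mul_mem_mul (hYd hy) (Submodule.subset_span hv)
  have hform : b * w2 ^ i ∈ (Submodule.span O T) ^ ((d + 1) * i) := by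
    rw [pow_mul]
    exact pow_le_pow_left' hsp i hi
  set z2 := w2 / u ^ (d + 1) with hz2
  have hz2A : z2 ∈ ch O T u := form_div (d + 1) w2 (hsp (Submodule.subset_span hw2m))
  have hz20 : z2 ≠ 0 := div_ne_zero h0 (pow_ne_zero _ hu00)
  set a := b * z2 ^ i with ha
  have haA : a ∈ ch O T u := by
    have h1 := form_div (O := O) (w := u) ((d + 1) * i) _ hform
    have e : a = b * w2 ^ i / u ^ ((d + 1) * i) := by
      rw [ha, hz2, div_pow, pow_mul, mul_div_assoc]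
    rw [e]
    exact h1
  have hbR : b ∈ R := hSR (hBS hb)
  have hz2R : z2 ∈ R := hSR (hAS hz2A)
  have hae : ev res a = 0 := by
    rw [ha, ev_mul res hbR (pow_mem hz2R i), hbe, zero_mul]
  obtain ⟨n, g, hg, hga⟩ := hP a haA hae
  -- the inverse of z2
  have hinv : p ^ m / z2 ∈ ch O (bu T Y) w2 := by
    have h1 : u ^ d ∈ (Submodule.span O T) ^ d :=
      Submodule.pow_mem_pow _ (Submodule.subset_span hu) d
    have h2 := hYm _ h1
    have key : ∀ y ∈ Submodule.span O Y, y * u / w2 ∈ ch O (bu T Y) w2 := by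
      intro y hy
      induction hy using Submodule.span_induction with
      | mem y hy => exact div_mem_ch ⟨y, hy, u, hu, rfl⟩
      | zero => rw [zero_mul, zero_div]; exact zero_mem _
      | add x y _ _ hx hy => rw [add_mul, add_div]; exact add_mem hx hy
      | smul a x _ hx =>
        rw [smul_eq, mul_assoc, mul_div_assoc]
        exact mul_mem (O_le_ch a.2) hx
    have e : p ^ m / z2 = p ^ m * u ^ d * u / w2 := by
      rw [hz2]
      field_simp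
      ring
    rw [e]
    exact key _ h2
  refine ⟨n + m * i, fun j => (p ^ m / z2) ^ i * g j, fun j => mul_mem (pow_mem
    (le_lo _ _ hinv) i) (hlo (hg j)), ?_⟩
  have e : p ^ (n + m * i) * b = (p ^ m / z2) ^ i * (p ^ n * a) := by
    rw [ha, div_pow, pow_add, pow_mul]
    field_simp
  rw [e, hga, Finset.mul_sum]
  exact Finset.sum_congr rfl fun j _ => by ring

lemma noeth_adjoin_set {B : Subring K} (hB : IsNoetherianRing B) {G : Set K} (hG : G.Finite) :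
    IsNoetherianRing (Subring.closure ((B : Set K) ∪ G)) := by
  obtain ⟨n, t, -, ht⟩ := hG.fin_param
  rw [← ht]
  exact noeth_adjoin hB t

lemma lo_mono_left {S S' B : Subring K} (h : S ≤ S') : lo S B ≤ lo S' B := by
  rintro x ⟨a, ha, b, hb, hb0, hbS, rfl⟩
  exact ⟨a, ha, b, hb, hb0, h hbS, rfl⟩

lemma sp_mono {V V' : ValuationSubring F} (h : V ≤ V') : sp res V ≤ sp res V' :=
  fun _ hx => ⟨hx.1, h hx.2⟩

/-- Uniformization of the support gives uniformization of the ambient scheme. -/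
theorem lift_up (hR : Rl res) (V : ValuationSubring F) (hOn : IsNoetherianRing O)
    (hOS : O ≤ sp res V) (hT : T.Finite) (hTR : T ⊆ R) (hu : u ∈ T) (hu0 : ev res u ≠ 0)
    (huV : ∀ v ∈ T, v / u ∈ sp res V) {p : K} (hp : p ∈ O) (hp0 : ev res p ≠ 0)
    {c : ℕ} (f : Fin c → K) (hfA : ∀ i, f i ∈ ch O T u) (hf0 : ∀ i, ev res (f i) = 0)
    (hdim : (c : WithBot ℕ∞) ≤ ringKrullDim R)
    (hfr : ∀ x ∈ R, ∃ a ∈ ch O T u, ∃ b ∈ ch O T u, ev res b ≠ 0 ∧ x = a / b)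
    (hP : ∀ a ∈ ch O T u, ev res a = 0 → ∃ (n : ℕ) (g : Fin c → K),
      (∀ i, g i ∈ lo (sp res V) (ch O T u)) ∧ p ^ n * a = ∑ i, g i * f i)
    {Z : Set F} (hZ : Vert (im res O) (ev res p) (ev res '' T) Z) {z : F}
    (hz : z ∈ bu (ev res '' T) Z) (hz0 : z ≠ 0)
    (hzV : ∀ a ∈ bu (ev res '' T) Z, a / z ∈ V) :
    ∃ Y : Set K, Vert O p T Y ∧ ∃ w ∈ bu T Y, w ≠ 0 ∧ (∀ v ∈ bu T Y, v / w ∈ sp res V) ∧
      ∀ V₁ : ValuationSubring F, V ≤ V₁ →
        Semi (lo V₁.toSubring (ch (im res O) (bu (ev res '' T) Z) z)) (ev res p) →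
        Semi (lo (sp res V₁) (ch O (bu T Y) w)) p := by
  have hSR : sp res V ≤ R := sp_le
  have hOR : O ≤ R := hOS.trans hSR
  have hu00 : u ≠ 0 := ne_of_ev res hu0
  have hpK : p ≠ 0 := ne_of_ev res hp0
  have hOV : im res O ≤ V.toSubring := by
    intro x hx
    obtain ⟨o, ho, rfl⟩ := (mem_im hOR).1 hx
    exact (hOS ho).2
  obtain ⟨Y₁, hY₁, y₀, hy₀, v₀, hv₀, hev, hbR, him⟩ := lift_vert hR hOR hT hTR hp hZ hz hz0
  set w2 := y₀ * v₀ with hw2
  have hw2e : ev res w2 ≠ 0 := by rw [hev]; exact hz0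
  have hw20 : w2 ≠ 0 := ne_of_ev res hw2e
  have hw2m : w2 ∈ bu T Y₁ := ⟨y₀, hy₀, v₀, hv₀, rfl⟩
  have hzch : ch (im res O) (bu (ev res '' T) Z) z ≤ V.toSubring := by
    unfold ch
    rw [Subring.closure_le]
    rintro x (hx | ⟨a, ha, rfl⟩)
    · exact hOV hx
    · exact hzV a ha
  set B := ch O (bu T Y₁) w2 with hB
  have hBR : B ≤ R := ch_R hR hOR hbR hw2e
  have hBS : B ≤ sp res V := fun x hx => ⟨hBR hx, by
    have h1 := ev_mem_im (res := res) hBR hx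
    rw [him] at h1
    exact hzch h1⟩
  have hS : ∀ a ∈ bu T Y₁, a / w2 ∈ sp res V := fun a ha => hBS (div_mem_ch ha)
  have hAlo : ch O T u ≤ lo (sp res V) B := ch_le_lo hu hu00 huV hOS hy₀ hv₀ hw20 hS
  have hgen0 := gen_B hR hSR hOS hTR hu hu0 huV hp f hP hY₁ hy₀ hv₀ hw20 hS
  -- the parameters
  have hfd : ∀ i, ∃ a ∈ B, ∃ s ∈ B, s ≠ 0 ∧ s⁻¹ ∈ sp res V ∧ f i = a * s⁻¹ := fun i =>
    hAlo (hfA i)
  choose b hbB s hsB hs0 hsS hfs using hfd
  have hse : ∀ i, ev res (s i) ≠ 0 := fun i => ev_ne_of_inv (hBR (hsB i)) (hSR (hsS i)) (hs0 i)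
  have hbe : ∀ i, ev res (b i) = 0 := fun i => by
    have h1 := hf0 i
    rw [hfs, ev_mul res (hBR (hbB i)) (hSR (hsS i)), hR.ev_inv (hse i)] at h1
    rcases mul_eq_zero.1 h1 with h | h
    · exact h
    · exact absurd (inv_eq_zero.1 h) (hse i)
  have hgen1 : ∀ x ∈ B, ev res x = 0 → ∃ (M : ℕ) (g : Fin c → K),
      (∀ i, g i ∈ lo (sp res V) B) ∧ p ^ M * x = ∑ i, g i * b i := by
    intro x hx hx0
    obtain ⟨n, g, hg, hgx⟩ := hgen0 x hx hx0
    refine ⟨n, fun i => g i * (s i)⁻¹, fun i => mul_mem (hg i)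
      (inv_mem_lo hBS (le_lo _ _ (hsB i)) (hs0 i) (hsS i)), ?_⟩
    rw [hgx]
    refine Finset.sum_congr rfl fun i _ => ?_
    rw [hfs i]
    ring
  have hBn : IsNoetherianRing B := by
    have e : B = Subring.closure ((O : Set K) ∪ {z | ∃ v ∈ bu T Y₁, z = v / w2}) := rfl
    rw [e]
    refine noeth_adjoin_set hOn ?_
    have e2 : {z | ∃ v ∈ bu T Y₁, z = v / w2} = (fun v => v / w2) '' (bu T Y₁) := by
      ext z
      constructor
      · rintro ⟨v, hv, rfl⟩; exact ⟨v, hv, rfl⟩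
      · rintro ⟨v, hv, rfl⟩; exact ⟨v, hv, rfl⟩
    rw [e2]
    exact (bu_finite hT hY₁.1).image _
  have hpB : p ∈ B := O_le_ch hp
  obtain ⟨M, hM⟩ := unif_gen hR V B hBn hBS b hbB p hpB hgen1
  have hfrB : ∀ x ∈ R, ∃ a ∈ B, ∃ b ∈ B, ev res b ≠ 0 ∧ x = a / b := by
    intro x hx
    obtain ⟨a, ha, d, hd, hd0, rfl⟩ := hfr x hx
    obtain ⟨a1, ha1, s1, hs1, hs10, hs1S, rfl⟩ := hAlo ha
    obtain ⟨a2, ha2, s2, hs2, hs20, hs2S, rfl⟩ := hAlo hd
    have h1 : ev res s1 ≠ 0 := ev_ne_of_inv (hBR hs1) (hSR hs1S) hs10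
    have h2 : ev res a2 ≠ 0 := by
      intro h
      apply hd0
      rw [ev_mul res (hBR ha2) (hSR hs2S), h, zero_mul]
    have h3 := ne_of_ev res h2
    refine ⟨a1 * s2, mul_mem ha1 hs2, s1 * a2, mul_mem hs1 ha2, ?_, ?_⟩
    · rw [ev_mul res (hBR hs1) (hBR ha2)]
      exact mul_ne_zero h1 h2
    · field_simp
  -- the last blowing-up
  set G : Set K := {p ^ (M + 1)} ∪ Set.range b with hG
  have hGf : G.Finite := (Set.finite_singleton _).union (Set.finite_range b)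
  have hGB : ∀ g ∈ G, g ∈ B := by
    rintro g (hg | ⟨i, rfl⟩)
    · rw [Set.mem_singleton_iff.1 hg]
      exact pow_mem hpB _
    · exact hbB i
  obtain ⟨e, he⟩ := ch_form_fin (O := O) hw2m hw20 hGf hGB
  have ha0 : p ^ (M + 1) ≠ 0 := pow_ne_zero _ hpK
  have haG : p ^ (M + 1) ∈ G := Or.inl rfl
  obtain ⟨hV2, hch2⟩ := bu_ch (bu_finite hT hY₁.1) hw2m hw20 hp (M + 1) hGf haG ha0 he
  set Y₂ : Set K := (fun m => p ^ (M + 1) * m) '' ((bu T Y₁) ^ e) ∪ (fun g => g * w2 ^ e) '' G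
    with hY₂
  obtain ⟨hV3, hbu⟩ := vert_comp hp hY₁ hV2
  have hch3 : ch O (bu T (Y₂ * Y₁)) (p ^ (M + 1) * w2 ^ e * w2) =
      Subring.closure ((B : Set K) ∪ Set.range fun i => b i / p ^ (M + 1)) := by
    rw [← hbu, hch2]
    apply le_antisymm
    · rw [Subring.closure_le]
      rintro x (hx | hx | ⟨g, (hg | ⟨i, rfl⟩), rfl⟩)
      · exact Subring.subset_closure (Or.inl hx)
      · rw [Set.mem_singleton_iff.1 hx, div_self ha0]
        exact one_mem _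
      · rw [Set.mem_singleton_iff.1 hg]
        simp only []
        rw [div_self ha0]
        exact one_mem _
      · exact Subring.subset_closure (Or.inr ⟨i, rfl⟩)
    · rw [Subring.closure_le]
      rintro x (hx | ⟨i, rfl⟩)
      · exact Subring.subset_closure (Or.inl hx)
      · exact Subring.subset_closure (Or.inr (Or.inr ⟨b i, Or.inr ⟨i, rfl⟩, rfl⟩))
  have hpe : ev res (p ^ (M + 1)) ≠ 0 := by
    rw [ev_pow res (hOR hp)]
    exact pow_ne_zero _ hp0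
  have hle : Subring.closure ((B : Set K) ∪ Set.range fun i => b i / p ^ (M + 1)) ≤
      sp res V := by
    rw [Subring.closure_le]
    rintro x (hx | ⟨i, rfl⟩)
    · exact hBS hx
    · refine ⟨hR.div_mem (hBR (hbB i)) hpe, ?_⟩
      simp only []
      rw [hR.ev_div (hBR (hbB i)) hpe, hbe, zero_div]
      exact zero_mem _
  refine ⟨Y₂ * Y₁, hV3, p ^ (M + 1) * w2 ^ e * w2, ?_, ?_, ?_, ?_⟩
  · rw [← hbu]
    exact ⟨p ^ (M + 1) * w2 ^ e, Or.inr ⟨_, haG, rfl⟩, w2, hw2m, rfl⟩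
  · exact mul_ne_zero (mul_ne_zero ha0 (pow_ne_zero _ hw20)) hw20
  · intro v hv
    apply hle
    rw [← hch3]
    exact div_mem_ch hv
  · intro V₁ hV₁ hsemi
    rw [hch3]
    refine semi_up hR V₁ B hBn (hBS.trans (sp_mono hV₁)) hfrB b hbB hbe hdim p hpB hp0 M ?_ ?_
    · intro x hx hx0
      obtain ⟨g, hg, hgx⟩ := hM x hx hx0
      exact ⟨g, fun i => lo_mono_left (sp_mono hV₁) (hg i), hgx⟩
    · rw [him]
      exact hsemi

end Pool.Agent.V5helper88.SP
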